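import Pool.Agent.H214.Tri.Area

/-!
# Area of the intersection of an annulus with the preimage of an annulus under an affine map
-/

set_option autoImplicit false

open MeasureTheory Set Filter Topology Metric
open scoped ENNReal NNReal Real

namespace Pool.Agent.H214.Tri

theorem cos_expand_aux {a b : ℝ} (hb : 0 ≤ b) (hab : b ≤ a) (ha : a ≤ π) :
    2 / π ^ 2 * (a - b) ^ 2 ≤ Real.cos b - Real.cos a := by
  have hπ := Real.pi_pos
  rw [Real.cos_sub_cos]
  have h1 : 2 / π * ((a - b) / 2) ≤ Real.sin ((a - b) / 2) :=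
    Real.mul_le_sin (by linarith) (by linarith)
  have h2 : 2 / π * ((a - b) / 2) ≤ Real.sin ((b + a) / 2) := by
    rcases le_total ((b + a) / 2) (π / 2) with h | h
    · have h3 := Real.mul_le_sin (x := (b + a) / 2) (by linarith) h
      refine le_trans ?_ h3
      apply mul_le_mul_of_nonneg_left _ (by positivity)
      linarith
    · have h3 := Real.mul_le_sin (x := π - (b + a) / 2) (by linarith) (by linarith)
      rw [Real.sin_pi_sub] at h3
      refine le_trans ?_ h3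
      apply mul_le_mul_of_nonneg_left _ (by positivity)
      linarith
  have h4 : 0 ≤ 2 / π * ((a - b) / 2) := by
    apply mul_nonneg (by positivity); linarith
  have h5 : Real.sin ((b - a) / 2) = - Real.sin ((a - b) / 2) := by
    rw [← Real.sin_neg]; congr 1; ring
  rw [h5]
  have h6 := mul_le_mul h2 h1 h4 (h4.trans h2)
  have h7 : 2 / π ^ 2 * (a - b) ^ 2 = 2 * (2 / π * ((a - b) / 2) * (2 / π * ((a - b) / 2))) := by
    field_simp
  rw [h7]
  linarith

theorem cos_expand {a b : ℝ} (ha : a ∈ Icc 0 π) (hb : b ∈ Icc 0 π) :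
    2 / π ^ 2 * (a - b) ^ 2 ≤ |Real.cos a - Real.cos b| := by
  rcases le_total b a with h | h
  · rw [abs_sub_comm]
    exact (cos_expand_aux hb.1 h ha.2).trans (le_abs_self _)
  · have h1 := cos_expand_aux ha.1 h hb.2
    rw [show (a - b) ^ 2 = (b - a) ^ 2 by ring]
    exact h1.trans (le_abs_self _)

/-- the measure of the set of angles in `[0, π]` with cosine in a given interval -/
theorem cos_meas0 (c L : ℝ) :
    ∀ a ∈ {ψ : ℝ | ψ ∈ Icc 0 π ∧ |Real.cos ψ - c| ≤ L}, ∀ b ∈ {ψ : ℝ | ψ ∈ Icc 0 π ∧ |Real.cos ψ - c| ≤ L},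
      |a - b| ≤ π * √L := by
  intro a ha b hb
  have h1 := cos_expand ha.1 hb.1
  have h2 : |Real.cos a - Real.cos b| ≤ 2 * L := by
    calc |Real.cos a - Real.cos b| = |(Real.cos a - c) - (Real.cos b - c)| := by congr 1; ring
      _ ≤ |Real.cos a - c| + |Real.cos b - c| := abs_sub _ _
      _ ≤ 2 * L := by linarith [ha.2, hb.2]
  have hL : 0 ≤ L := le_trans (abs_nonneg _) ha.2
  have hπ := Real.pi_pos
  have h3 : (a - b) ^ 2 ≤ π ^ 2 * L := by
    have h4 : 2 / π ^ 2 * (a - b) ^ 2 ≤ 2 * L := h1.trans h2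
    have h5 : (a - b) ^ 2 = π ^ 2 / 2 * (2 / π ^ 2 * (a - b) ^ 2) := by field_simp
    rw [h5]
    calc π ^ 2 / 2 * (2 / π ^ 2 * (a - b) ^ 2) ≤ π ^ 2 / 2 * (2 * L) :=
          mul_le_mul_of_nonneg_left h4 (by positivity)
      _ = π ^ 2 * L := by ring
  calc |a - b| = √((a - b) ^ 2) := (Real.sqrt_sq_eq_abs _).symm
    _ ≤ √(π ^ 2 * L) := Real.sqrt_le_sqrt h3
    _ = π * √L := by rw [Real.sqrt_mul (by positivity), Real.sqrt_sq hπ.le]

/-- the measure of the set of angles with cosine in a given interval -/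
theorem cos_meas (c L : ℝ) :
    volume {ψ : ℝ | |ψ| < 2 * π ∧ |Real.cos ψ - c| ≤ L} ≤ ENNReal.ofReal (4 * (π * √L)) := by
  have hπ := Real.pi_pos
  -- the general piece
  have piece : ∀ (g : ℝ → ℝ) (c' : ℝ) (A : Set ℝ), (∀ x y, |g x - g y| = |x - y|) →
      (∀ ψ ∈ A, g ψ ∈ Icc 0 π ∧ |Real.cos (g ψ) - c'| ≤ L) →
      volume A ≤ ENNReal.ofReal (π * √L) := by
    intro g c' A hg hA
    refine (Real.volume_le_diam A).trans ?_
    apply Metric.ediam_le_of_forall_dist_le
    intro x hx y hy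
    rw [Real.dist_eq, ← hg]
    exact cos_meas0 c' L _ (hA x hx) _ (hA y hy)
  have hcov : {ψ : ℝ | |ψ| < 2 * π ∧ |Real.cos ψ - c| ≤ L} ⊆
      ({ψ : ℝ | ψ ∈ Icc (-(2 * π)) (-π) ∧ |Real.cos ψ - c| ≤ L} ∪
      {ψ : ℝ | ψ ∈ Icc (-π) 0 ∧ |Real.cos ψ - c| ≤ L}) ∪
      ({ψ : ℝ | ψ ∈ Icc 0 π ∧ |Real.cos ψ - c| ≤ L} ∪
      {ψ : ℝ | ψ ∈ Icc π (2 * π) ∧ |Real.cos ψ - c| ≤ L}) := by
    rintro ψ ⟨h1, h2⟩
    rw [abs_lt] at h1
    rcases le_total ψ 0 with h0 | h0
    · left
      rcases le_total ψ (-π) with h3 | h3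
      · left; exact ⟨⟨h1.1.le, h3⟩, h2⟩
      · right; exact ⟨⟨h3, h0⟩, h2⟩
    · right
      rcases le_total ψ π with h3 | h3
      · left; exact ⟨⟨h0, h3⟩, h2⟩
      · right; exact ⟨⟨h3, h1.2.le⟩, h2⟩
  have e1 : volume {ψ : ℝ | ψ ∈ Icc (-(2 * π)) (-π) ∧ |Real.cos ψ - c| ≤ L} ≤
      ENNReal.ofReal (π * √L) := by
    apply piece (fun x => x + 2 * π) c _ (fun x y => by congr 1; ring)
    rintro ψ ⟨h1, h2⟩
    refine ⟨⟨by linarith [h1.1], by linarith [h1.2]⟩, ?_⟩
    rw [Real.cos_add_two_pi]; exact h2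
  have e2 : volume {ψ : ℝ | ψ ∈ Icc (-π) 0 ∧ |Real.cos ψ - c| ≤ L} ≤
      ENNReal.ofReal (π * √L) := by
    apply piece (fun x => x + π) (-c) _ (fun x y => by congr 1; ring)
    rintro ψ ⟨h1, h2⟩
    refine ⟨⟨by linarith [h1.1], by linarith [h1.2]⟩, ?_⟩
    rw [Real.cos_add_pi, ← abs_neg]
    convert h2 using 2
    ring
  have e3 : volume {ψ : ℝ | ψ ∈ Icc 0 π ∧ |Real.cos ψ - c| ≤ L} ≤
      ENNReal.ofReal (π * √L) := by
    apply piece (fun x => x) c _ (fun x y => rfl)
    rintro ψ ⟨h1, h2⟩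
    exact ⟨h1, h2⟩
  have e4 : volume {ψ : ℝ | ψ ∈ Icc π (2 * π) ∧ |Real.cos ψ - c| ≤ L} ≤
      ENNReal.ofReal (π * √L) := by
    apply piece (fun x => x - π) (-c) _ (fun x y => by congr 1; ring)
    rintro ψ ⟨h1, h2⟩
    refine ⟨⟨by linarith [h1.1], by linarith [h1.2]⟩, ?_⟩
    rw [Real.cos_sub_pi, ← abs_neg]
    convert h2 using 2
    ring
  have h0 : 0 ≤ π * √L := by positivity
  calc volume {ψ : ℝ | |ψ| < 2 * π ∧ |Real.cos ψ - c| ≤ L}
      ≤ _ := measure_mono hcov
    _ ≤ _ := measure_union_le _ _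
    _ ≤ _ := add_le_add (measure_union_le _ _) (measure_union_le _ _)
    _ ≤ (ENNReal.ofReal (π * √L) + ENNReal.ofReal (π * √L)) +
        (ENNReal.ofReal (π * √L) + ENNReal.ofReal (π * √L)) :=
        add_le_add (add_le_add e1 e2) (add_le_add e3 e4)
    _ = ENNReal.ofReal (4 * (π * √L)) := by
        rw [← ENNReal.ofReal_add h0 h0, ← ENNReal.ofReal_add (by linarith) (by linarith)]
        congr 1; ring

/-- with a shift -/
theorem cos_meas_shift (φ c L : ℝ) (hφ : |φ| ≤ π) :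
    volume {θ : ℝ | |θ| < π ∧ |Real.cos (θ + φ) - c| ≤ L} ≤ ENNReal.ofReal (4 * (π * √L)) := by
  have h1 : {θ : ℝ | |θ| < π ∧ |Real.cos (θ + φ) - c| ≤ L} ⊆
      (fun θ => θ + φ) ⁻¹' {ψ : ℝ | |ψ| < 2 * π ∧ |Real.cos ψ - c| ≤ L} := by
    rintro θ ⟨h1, h2⟩
    refine ⟨?_, h2⟩
    calc |θ + φ| ≤ |θ| + |φ| := abs_add_le _ _
      _ < 2 * π := by linarith
  calc volume {θ : ℝ | |θ| < π ∧ |Real.cos (θ + φ) - c| ≤ L} ≤ _ := measure_mono h1
    _ = volume {ψ : ℝ | |ψ| < 2 * π ∧ |Real.cos ψ - c| ≤ L} :=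
        measure_preimage_add_right _ _ _
    _ ≤ _ := cos_meas c L

/-- the law of cosines in the form that we need -/
theorem normSq_expand (α β : ℂ) (r θ : ℝ) :
    ‖α * (r * Complex.exp (θ * Complex.I)) - β‖ ^ 2 =
      ‖α‖ ^ 2 * r ^ 2 + ‖β‖ ^ 2 -
        2 * (‖α‖ * ‖β‖ * r) * Real.cos (θ + (α * (starRingEnd ℂ) β).arg) := by
  set w : ℂ := α * (starRingEnd ℂ) β with hw
  have hre : (w * Complex.exp (θ * Complex.I)).re = ‖w‖ * Real.cos (θ + w.arg) := by
    conv_lhs => rw [← Complex.norm_mul_exp_arg_mul_I w]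
    rw [mul_assoc, ← Complex.exp_add, ← add_mul, ← Complex.ofReal_add, Complex.re_ofReal_mul,
      Complex.exp_ofReal_mul_I_re, add_comm w.arg θ]
  have hnw : ‖w‖ = ‖α‖ * ‖β‖ := by
    rw [hw, norm_mul, Complex.norm_conj]
  rw [Complex.sq_norm, Complex.normSq_sub, Complex.normSq_mul, Complex.normSq_mul,
    ← Complex.sq_norm, ← Complex.sq_norm, ← Complex.sq_norm, ← Complex.sq_norm]
  have h1 : ‖Complex.exp (θ * Complex.I)‖ = 1 := Complex.norm_exp_ofReal_mul_I θ
  rw [h1, Complex.norm_real, Real.norm_eq_abs, sq_abs]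
  have h2 : (α * (r * Complex.exp (θ * Complex.I)) * (starRingEnd ℂ) β).re =
      r * (‖α‖ * ‖β‖ * Real.cos (θ + w.arg)) := by
    rw [← hnw, ← hre, show α * (r * Complex.exp (θ * Complex.I)) * (starRingEnd ℂ) β =
      r * (w * Complex.exp (θ * Complex.I)) by rw [hw]; ring, Complex.re_ofReal_mul]
  rw [h2]
  ring

/-- one angular slice -/
theorem slice {α β : ℂ} {r x y : ℝ} (hα : 0 < ‖α‖) (hβ : 0 < ‖β‖) (hx2 : x ≤ 1 / 2)
    (hr : |r - 1| ≤ x) :
    volume {θ : ℝ | |θ| < π ∧ |‖α * (r * Complex.exp (θ * Complex.I)) - β‖ ^ 2 - 1| ≤ y} ≤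
      ENNReal.ofReal (4 * (π * √(y / (‖α‖ * ‖β‖)))) := by
  have hr1 : 1 / 2 ≤ r := by
    have := (abs_le.1 hr).1
    linarith
  by_cases hy : 0 ≤ y
  swap
  · have : {θ : ℝ | |θ| < π ∧ |‖α * (r * Complex.exp (θ * Complex.I)) - β‖ ^ 2 - 1| ≤ y} = ∅ := by
      ext θ
      simp only [mem_ofPred_eq, mem_empty_iff_false, iff_false, not_and, not_le]
      intro _
      exact lt_of_lt_of_le (not_le.1 hy) (abs_nonneg _)
    rw [this, measure_empty]
    exact bot_le
  set M : ℝ := 2 * (‖α‖ * ‖β‖ * r) with hM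
  have hMp : 0 < M := by positivity
  set φ : ℝ := (α * (starRingEnd ℂ) β).arg with hφ
  have hsub : {θ : ℝ | |θ| < π ∧ |‖α * (r * Complex.exp (θ * Complex.I)) - β‖ ^ 2 - 1| ≤ y} ⊆
      {θ : ℝ | |θ| < π ∧ |Real.cos (θ + φ) - (‖α‖ ^ 2 * r ^ 2 + ‖β‖ ^ 2 - 1) / M| ≤ y / M} := by
    rintro θ ⟨h1, h2⟩
    refine ⟨h1, ?_⟩
    rw [normSq_expand, ← hφ, ← hM] at h2
    have h3 : Real.cos (θ + φ) - (‖α‖ ^ 2 * r ^ 2 + ‖β‖ ^ 2 - 1) / M =
        -((‖α‖ ^ 2 * r ^ 2 + ‖β‖ ^ 2 - M * Real.cos (θ + φ) - 1) / M) := by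
      field_simp
      ring
    rw [h3, abs_neg, abs_div, abs_of_pos hMp]
    exact div_le_div_of_nonneg_right h2 hMp.le
  refine (measure_mono hsub).trans ((cos_meas_shift φ _ _ (Complex.abs_arg_le_pi _)).trans ?_)
  apply ENNReal.ofReal_le_ofReal
  have : √(y / M) ≤ √(y / (‖α‖ * ‖β‖)) := by
    apply Real.sqrt_le_sqrt
    apply div_le_div_of_nonneg_left hy (by positivity)
    rw [hM]
    nlinarith [mul_pos hα hβ]
  have hπ := Real.pi_pos
  nlinarith

/-- **The area of the intersection of a thin annulus with the preimage of a thin annulus under an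
affine map.** -/
theorem weak_area {α β : ℂ} {x y : ℝ} (hα : 0 < ‖α‖) (hβ : 0 < ‖β‖) (hx : 0 ≤ x) (hx2 : x ≤ 1 / 2) :
    volume {v : ℂ | |‖v‖ - 1| ≤ x ∧ |‖α * v - β‖ ^ 2 - 1| ≤ y} ≤
      ENNReal.ofReal (12 * π * (x * √(y / (‖α‖ * ‖β‖)))) := by
  set S : Set ℂ := {v : ℂ | |‖v‖ - 1| ≤ x ∧ |‖α * v - β‖ ^ 2 - 1| ≤ y} with hS
  have hSm : MeasurableSet S := by
    have m1 : MeasurableSet {v : ℂ | |‖v‖ - 1| ≤ x} := measurableSet_le (by fun_prop) (by fun_prop)
    have m2 : MeasurableSet {v : ℂ | |‖α * v - β‖ ^ 2 - 1| ≤ y} :=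
      measurableSet_le (by fun_prop) (by fun_prop)
    exact m1.inter m2
  set W : Set (ℝ × ℝ) := {p : ℝ × ℝ | |p.1 - 1| ≤ x ∧ |p.2| < π ∧
    |‖α * (p.1 * Complex.exp (p.2 * Complex.I)) - β‖ ^ 2 - 1| ≤ y} with hW
  have hWm : MeasurableSet W := by
    have m1 : MeasurableSet {p : ℝ × ℝ | |p.1 - 1| ≤ x} := measurableSet_le (by fun_prop) (by fun_prop)
    have m2 : MeasurableSet {p : ℝ × ℝ | |p.2| < π} := measurableSet_lt (by fun_prop) (by fun_prop)
    have m3 : MeasurableSet {p : ℝ × ℝ |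
        |‖α * (p.1 * Complex.exp (p.2 * Complex.I)) - β‖ ^ 2 - 1| ≤ y} :=
      measurableSet_le (by fun_prop) (by fun_prop)
    exact m1.inter (m2.inter m3)
  have h1 : volume S ≤ ENNReal.ofReal (3 / 2) * volume W := by
    calc volume S = ∫⁻ p, S.indicator 1 p := (lintegral_indicator_one hSm).symm
      _ = ∫⁻ p in polarCoord.target, ENNReal.ofReal p.1 • (S.indicator 1 (Complex.polarCoord.symm p)) :=
          (Complex.lintegral_comp_polarCoord_symm _).symm
      _ ≤ ∫⁻ p in polarCoord.target, ENNReal.ofReal (3 / 2) * (W.indicator 1 p) := by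
          apply setLIntegral_mono' (polarCoord.open_target.measurableSet)
          intro p hp
          rw [polarCoord_target] at hp
          by_cases hpS : Complex.polarCoord.symm p ∈ S
          · have hp1 : 0 < p.1 := hp.1
            rw [Complex.polarCoord_symm_apply] at hpS ⊢
            have he : (p.1 : ℂ) * (Real.cos p.2 + Real.sin p.2 * Complex.I) =
                p.1 * Complex.exp (p.2 * Complex.I) := by
              rw [Complex.exp_mul_I, Complex.ofReal_cos, Complex.ofReal_sin]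
            rw [he] at hpS ⊢
            have hn : ‖(p.1 : ℂ) * Complex.exp (p.2 * Complex.I)‖ = p.1 := by
              rw [norm_mul, Complex.norm_exp_ofReal_mul_I, Complex.norm_real, Real.norm_eq_abs,
                abs_of_pos hp1, mul_one]
            have hpW : p ∈ W := by
              refine ⟨?_, ?_, hpS.2⟩
              · have := hpS.1
                rw [hn] at this
                exact this
              · exact abs_lt.2 hp.2
            rw [indicator_of_mem hpS, indicator_of_mem hpW]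
            simp only [Pi.one_apply, smul_eq_mul, mul_one]
            apply ENNReal.ofReal_le_ofReal
            have := (abs_le.1 hpW.1).2
            linarith
          · rw [indicator_of_notMem hpS]
            simp
      _ ≤ ∫⁻ p, ENNReal.ofReal (3 / 2) * (W.indicator 1 p) := setLIntegral_le_lintegral _ _
      _ = ENNReal.ofReal (3 / 2) * volume W := by
          rw [lintegral_const_mul _ (measurable_one.indicator hWm), lintegral_indicator_one hWm]
  have h2 : volume W ≤ ENNReal.ofReal (2 * x) * ENNReal.ofReal (4 * (π * √(y / (‖α‖ * ‖β‖)))) := by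
    rw [Measure.volume_eq_prod, Measure.prod_apply hWm]
    calc ∫⁻ r, volume (Prod.mk r ⁻¹' W)
        ≤ ∫⁻ r, (Icc (1 - x) (1 + x)).indicator
            (fun _ => ENNReal.ofReal (4 * (π * √(y / (‖α‖ * ‖β‖))))) r := by
          apply lintegral_mono
          intro r
          by_cases hr : |r - 1| ≤ x
          · have hr' : r ∈ Icc (1 - x) (1 + x) := by
              rw [abs_le] at hr
              exact ⟨by linarith, by linarith⟩
            rw [indicator_of_mem hr']
            refine le_trans (measure_mono ?_) (slice (y := y) hα hβ hx2 hr)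
            intro θ hθ
            exact ⟨hθ.2.1, hθ.2.2⟩
          · have : Prod.mk r ⁻¹' W = ∅ := by
              ext θ
              simp only [mem_preimage, mem_empty_iff_false, iff_false]
              intro h
              exact hr h.1
            change volume (Prod.mk r ⁻¹' W) ≤ _
            rw [this, measure_empty]
            exact bot_le
      _ = ENNReal.ofReal (2 * x) * ENNReal.ofReal (4 * (π * √(y / (‖α‖ * ‖β‖)))) := by
          rw [lintegral_indicator measurableSet_Icc, setLIntegral_const, Real.volume_Icc, mul_comm]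
          congr 2
          ring
  refine h1.trans ((mul_le_mul_right h2 _).trans ?_)
  rw [← ENNReal.ofReal_mul (by positivity), ← ENNReal.ofReal_mul (by positivity)]
  apply ENNReal.ofReal_le_ofReal
  apply le_of_eq
  ring

/-- the area of a thin annulus -/
theorem annulus_area {x : ℝ} (hx : 0 ≤ x) (hx1 : x ≤ 1) :
    volume {v : ℂ | |‖v‖ - 1| ≤ x} ≤ ENNReal.ofReal (4 * π * x) := by
  have h1 : {v : ℂ | |‖v‖ - 1| ≤ x} = closedBall 0 (1 + x) \ ball 0 (1 - x) := by
    ext v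
    simp only [mem_ofPred_eq, Set.mem_sdiff, mem_closedBall, dist_zero_right, mem_ball, not_lt, abs_le]
    constructor
    · rintro ⟨h, h'⟩; constructor <;> linarith
    · rintro ⟨h, h'⟩; constructor <;> linarith
  have hsub : ball (0 : ℂ) (1 - x) ⊆ closedBall 0 (1 + x) :=
    (ball_subset_ball (by linarith)).trans ball_subset_closedBall
  rw [h1, measure_sdiff hsub measurableSet_ball.nullMeasurableSet measure_ball_lt_top.ne,
    Complex.volume_closedBall, Complex.volume_ball]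
  have hpi : (NNReal.pi : ENNReal) = ENNReal.ofReal π := by
    rw [ENNReal.ofReal, Real.toNNReal_of_nonneg Real.pi_pos.le]; rfl
  rw [hpi, ← ENNReal.ofReal_pow (by linarith), ← ENNReal.ofReal_pow (by linarith),
    ← ENNReal.ofReal_mul (by positivity), ← ENNReal.ofReal_mul (by positivity),
    ← ENNReal.ofReal_sub _ (by positivity)]
  apply ENNReal.ofReal_le_ofReal
  apply le_of_eq
  ring

end Pool.Agent.H214.Tri
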