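import Mathlib

/-!
# Areas and maps of bounded multiplicity (adapted from the library module `Q79/DynA`)
-/

set_option autoImplicit false

open MeasureTheory Set Filter Topology Metric
open scoped ENNReal NNReal

namespace Pool.Agent.H214.Tri

theorem det_mul_real (a : ℂ) :
    ((ContinuousLinearMap.toSpanSingleton ℂ a).restrictScalars ℝ : ℂ →L[ℝ] ℂ).det = ‖a‖ ^ 2 := by
  rw [ContinuousLinearMap.det, ← LinearMap.det_toMatrix Complex.basisOneI, Matrix.det_fin_two]
  simp [LinearMap.toMatrix_apply, Complex.basisOneI, Complex.sq_norm, Complex.normSq_apply]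

/-- the derivative as a real linear map -/
noncomputable def D (g' : ℂ → ℂ) (w : ℂ) : ℂ →L[ℝ] ℂ :=
  (ContinuousLinearMap.toSpanSingleton ℂ (g' w)).restrictScalars ℝ

/-- measurable partition into pieces of injectivity -/
theorem partition {E : Set ℂ} {g g' : ℂ → ℂ} (hg : ∀ z ∈ E, HasDerivAt g (g' z) z)
    (h0 : ∀ z ∈ E, g' z ≠ 0) : ∃ t : ℕ → Set ℂ, Pairwise (Function.onFun Disjoint t) ∧
    (∀ n, MeasurableSet (t n)) ∧ (E ⊆ ⋃ n, t n) ∧ ∀ n, InjOn g (E ∩ t n) := by
  classical
  have hne0 : ∀ e : ℂ ≃L[ℝ] ℂ, ‖(e.symm : ℂ →L[ℝ] ℂ)‖₊ ≠ 0 := by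
    intro e h00
    have : (e.symm : ℂ →L[ℝ] ℂ) = 0 := by
      rw [← nnnorm_eq_zero]; exact h00
    have h1 : e.symm (1 : ℂ) = 0 := by
      have := congrArg (fun f : ℂ →L[ℝ] ℂ => f 1) this
      simpa using this
    simp at h1
  obtain ⟨t, A, hdisj, hmeas, hcov, happ, hne⟩ :=
    exists_partition_approximatesLinearOn_of_hasFDerivWithinAt g E (D g')
      (fun x hx => ((hg x hx).hasFDerivAt.restrictScalars ℝ).hasFDerivWithinAt)
      (fun B => if h : ∃ e : ℂ ≃L[ℝ] ℂ, (e : ℂ →L[ℝ] ℂ) = B then
        ‖(h.choose.symm : ℂ →L[ℝ] ℂ)‖₊⁻¹ / 2 else 1)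
      (by
        intro B
        split_ifs with h
        · have := hne0 h.choose
          positivity
        · exact one_ne_zero)
  refine ⟨t, hdisj, hmeas, hcov, fun n => ?_⟩
  by_cases hV : E.Nonempty
  · obtain ⟨y, hy, hAy⟩ := hne hV n
    have hex : ∃ e : ℂ ≃L[ℝ] ℂ, (e : ℂ →L[ℝ] ℂ) = A n := by
      rw [hAy]
      refine ⟨(ContinuousLinearEquiv.unitsEquivAut ℂ
        (Units.mk0 _ (h0 y hy))).restrictScalars ℝ, ?_⟩
      ext <;> simp [D]
    have h := happ n
    rw [dif_pos hex] at h
    have h2 : ApproximatesLinearOn g ((hex.choose : ℂ ≃L[ℝ] ℂ) : ℂ →L[ℝ] ℂ) (E ∩ t n)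
        (‖(hex.choose.symm : ℂ →L[ℝ] ℂ)‖₊⁻¹ / 2) := by
      rw [hex.choose_spec]; exact h
    exact h2.injOn (Or.inr (NNReal.half_lt_self (inv_ne_zero (hne0 _))))
  · intro a ha
    exact absurd ⟨a, ha.1⟩ hV

/-- the injective case -/
theorem inj_area {E : Set ℂ} (hE : MeasurableSet E) {g g' : ℂ → ℂ}
    (hg : ∀ z ∈ E, HasDerivAt g (g' z) z) {b : ℝ} (hb : 0 < b)
    (h0 : ∀ z ∈ E, b ≤ ‖g' z‖) (hinj : InjOn g E) :
    MeasurableSet (g '' E) ∧ ENNReal.ofReal (b ^ 2) * volume E ≤ volume (g '' E) := by
  have hfd : ∀ x ∈ E, HasFDerivWithinAt g (D g' x) E x := fun x hx =>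
    ((hg x hx).hasFDerivAt.restrictScalars ℝ).hasFDerivWithinAt
  have hm : MeasurableSet (g '' E) := measurable_image_of_fderivWithin hE hfd hinj
  refine ⟨hm, ?_⟩
  have h1 := lintegral_abs_det_fderiv_eq_addHaar_image (volume : Measure ℂ) hE hfd hinj
  rw [← h1, ← setLIntegral_const]
  apply setLIntegral_mono' hE
  intro x hx
  unfold D
  rw [det_mul_real, abs_of_nonneg (by positivity)]
  apply ENNReal.ofReal_le_ofReal
  exact pow_le_pow_left₀ hb.le (h0 x hx) 2

/-- **Areas and maps of bounded multiplicity.** -/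
theorem mult_area {E : Set ℂ} (hE : MeasurableSet E) {g g' : ℂ → ℂ}
    (hg : ∀ z ∈ E, HasDerivAt g (g' z) z) {b : ℝ} (hb : 0 < b)
    (h0 : ∀ z ∈ E, b ≤ ‖g' z‖) {N : ℕ}
    {A : Set ℂ} (hA : MeasurableSet A) (hgA : MapsTo g E A)
    (hN : ∀ w, (E ∩ g ⁻¹' {w}).encard ≤ N) :
    ENNReal.ofReal (b ^ 2) * volume E ≤ N * volume A := by
  classical
  have hg0 : ∀ z ∈ E, g' z ≠ 0 := by
    intro z hz h
    have h1 := h0 z hz
    rw [h, norm_zero] at h1
    linarith
  obtain ⟨t, hdisj, hmeas, hcov, hinj⟩ := partition hg hg0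
  have hEn : ∀ n, MeasurableSet (E ∩ t n) := fun n => hE.inter (hmeas n)
  have hU : E = ⋃ n, E ∩ t n := by
    rw [← inter_iUnion]
    exact (inter_eq_left.2 hcov).symm
  have hk := fun n => inj_area (hEn n) (fun z hz => hg z hz.1) hb (fun z hz => h0 z hz.1) (hinj n)
  have h1 : volume E ≤ ∑' n, volume (E ∩ t n) := by
    conv_lhs => rw [hU]
    exact measure_iUnion_le _
  calc ENNReal.ofReal (b ^ 2) * volume E
      ≤ ENNReal.ofReal (b ^ 2) * ∑' n, volume (E ∩ t n) := mul_le_mul_right h1 _
    _ = ∑' n, ENNReal.ofReal (b ^ 2) * volume (E ∩ t n) := ENNReal.tsum_mul_left.symm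
    _ ≤ ∑' n, volume (g '' (E ∩ t n)) := ENNReal.tsum_le_tsum fun n => (hk n).2
    _ = ∑' n, ∫⁻ w, (g '' (E ∩ t n)).indicator 1 w := by
        congr 1
        funext n
        rw [lintegral_indicator_one (hk n).1]
    _ = ∫⁻ w, ∑' n, (g '' (E ∩ t n)).indicator 1 w := by
        rw [lintegral_tsum]
        intro n
        exact (measurable_one.indicator (hk n).1).aemeasurable
    _ ≤ ∫⁻ w, A.indicator (fun _ => (N : ENNReal)) w := by
        apply lintegral_mono
        intro w
        change ∑' n, (g '' (E ∩ t n)).indicator (1 : ℂ → ENNReal) w ≤ _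
        by_cases hw : w ∈ A
        · rw [indicator_of_mem hw]
          -- the indices form a set of cardinality at most `N`
          set I : Set ℕ := {n | w ∈ g '' (E ∩ t n)} with hI
          have hch : ∀ n ∈ I, ∃ z, (z ∈ E ∧ z ∈ t n) ∧ g z = w := fun n hn => hn
          choose! φ hφ using hch
          have hφinj : InjOn φ I := by
            intro i hi j hj hij
            by_contra hne
            have h2 := (hφ i hi).1.2
            have h3 := (hφ j hj).1.2
            rw [hij] at h2
            exact Set.disjoint_left.1 (hdisj hne) h2 h3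
          have hIc : I.encard ≤ N := by
            calc I.encard = (φ '' I).encard := (hφinj.encard_image).symm
              _ ≤ (E ∩ g ⁻¹' {w}).encard := by
                  apply encard_le_encard
                  rintro _ ⟨i, hi, rfl⟩
                  exact ⟨(hφ i hi).1.1, (hφ i hi).2⟩
              _ ≤ N := hN w
          have hIf : I.Finite := finite_of_encard_le_coe hIc
          have hsum : ∑' n, (g '' (E ∩ t n)).indicator (1 : ℂ → ENNReal) w =
              ∑ n ∈ hIf.toFinset, 1 := by
            rw [tsum_eq_sum (s := hIf.toFinset)]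
            · apply Finset.sum_congr rfl
              intro n hn
              rw [Finite.mem_toFinset] at hn
              have hn' : w ∈ g '' (E ∩ t n) := hn
              rw [indicator_of_mem hn']
              rfl
            · intro n hn
              rw [Finite.mem_toFinset] at hn
              have hn' : w ∉ g '' (E ∩ t n) := hn
              exact indicator_of_notMem hn' _
          rw [hsum, Finset.sum_const, nsmul_eq_mul, mul_one]
          have : hIf.toFinset.card ≤ N := by
            have h4 : I.encard = hIf.toFinset.card := by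
              rw [← encard_coe_eq_coe_finsetCard, Finite.coe_toFinset]
            rw [h4] at hIc
            exact_mod_cast hIc
          exact_mod_cast this
        · rw [indicator_of_notMem hw]
          have : ∀ n, (g '' (E ∩ t n)).indicator (1 : ℂ → ENNReal) w = 0 := by
            intro n
            apply indicator_of_notMem
            rintro ⟨z, hz, rfl⟩
            exact hw (hgA hz.1)
          simp only [this, tsum_zero, le_refl]
    _ = N * volume A := by
        rw [lintegral_indicator hA, setLIntegral_const]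

open Polynomial in
/-- The area of a set on which a polynomial of degree at most `N` expands and which it maps into a
set `A`. -/
theorem poly_area {E : Set ℂ} (hE : MeasurableSet E) {P : ℂ[X]} {b : ℝ} (hb : 0 < b)
    (h0 : ∀ z ∈ E, b ≤ ‖(derivative P).eval z‖) {N : ℕ} (hN : P.natDegree ≤ N)
    {A : Set ℂ} (hA : MeasurableSet A) (hgA : ∀ z ∈ E, P.eval z ∈ A) :
    ENNReal.ofReal (b ^ 2) * volume E ≤ N * volume A := by
  classical
  apply mult_area hE (g := fun z => P.eval z) (g' := fun z => (derivative P).eval z)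
    (fun z _ => P.hasDerivAt z) hb h0 hA hgA
  intro w
  by_cases hemp : (E ∩ (fun z => P.eval z) ⁻¹' {w}) = ∅
  · rw [hemp, encard_empty]
    exact bot_le
  · obtain ⟨z, hz1, hz2⟩ := nonempty_iff_ne_empty.2 hemp
    have hne : P - C w ≠ 0 := by
      intro h
      have h1 : P = C w := sub_eq_zero.1 h
      have h2 := h0 z hz1
      rw [h1, derivative_C, eval_zero, norm_zero] at h2
      linarith
    have hsub : (E ∩ (fun z => P.eval z) ⁻¹' {w}) ⊆ ((P - C w).roots.toFinset : Set ℂ) := by
      intro x hx
      rw [Finset.mem_coe, Multiset.mem_toFinset, mem_roots hne, IsRoot.def, eval_sub, eval_C]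
      have : P.eval x = w := hx.2
      rw [this, sub_self]
    calc (E ∩ (fun z => P.eval z) ⁻¹' {w}).encard
        ≤ ((P - C w).roots.toFinset : Set ℂ).encard := encard_le_encard hsub
      _ = ((P - C w).roots.toFinset.card : ℕ∞) := encard_coe_eq_coe_finsetCard _
      _ ≤ N := by
          have h1 : (P - C w).roots.toFinset.card ≤ N := by
            calc (P - C w).roots.toFinset.card ≤ Multiset.card (P - C w).roots :=
                  Multiset.toFinset_card_le _
              _ ≤ (P - C w).natDegree := card_roots' _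
              _ ≤ N := by rw [natDegree_sub_C]; exact hN
          exact_mod_cast h1

end Pool.Agent.H214.Tri
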