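import Mathlib

/-!
# From area bounds to almost every parameter
-/

set_option autoImplicit false

open MeasureTheory Set Filter Topology
open scoped ENNReal

namespace Pool.Agent.H214.Tri

open scoped Classical in
/-- the number of `n` in the `i`-th dyadic block for which `t ∈ B n` -/
noncomputable def blockCard (B : ℕ → Set ℂ) (i : ℕ) (t : ℂ) : ℕ :=
  ((Finset.Ico (2 ^ i) (2 ^ (i + 1))).filter fun n => t ∈ B n).card

theorem block_meas {B : ℕ → Set ℂ} {C : ℝ} (hC : 0 ≤ C) {n₀ : ℕ}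
    (hB : ∀ n : ℕ, n₀ ≤ n → volume (B n) ≤ ENNReal.ofReal (C * (n : ℝ) ^ (-(1 / 10) : ℝ)))
    {i : ℕ} (hi : n₀ ≤ 2 ^ i) {x : ℝ} :
    volume {t : ℂ | (2 : ℝ) ^ (x * i) ≤ blockCard B i t} ≤
      ENNReal.ofReal (C * ((2 : ℝ) ^ (9 / 10 - x)) ^ i) := by
  classical
  set M : ℕ → Set ℂ := fun n => toMeasurable volume (B n) with hM
  set D : ℂ → ℝ≥0∞ := fun t =>
    ∑ n ∈ Finset.Ico (2 ^ i) (2 ^ (i + 1)), (M n).indicator 1 t with hD
  have hDm : Measurable D := by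
    apply Finset.measurable_sum
    intro n _
    exact measurable_one.indicator (measurableSet_toMeasurable _ _)
  have hDint : ∫⁻ t, D t ≤ ENNReal.ofReal ((2 : ℝ) ^ i * (C * ((2 : ℝ) ^ i) ^ (-(1 / 10) : ℝ))) := by
    rw [hD, lintegral_finsetSum _ (fun n _ =>
      measurable_one.indicator (measurableSet_toMeasurable _ _))]
    calc ∑ n ∈ Finset.Ico (2 ^ i) (2 ^ (i + 1)), ∫⁻ t, (M n).indicator 1 t
        ≤ ∑ n ∈ Finset.Ico (2 ^ i) (2 ^ (i + 1)),
            ENNReal.ofReal (C * ((2 : ℝ) ^ i) ^ (-(1 / 10) : ℝ)) := by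
          apply Finset.sum_le_sum
          intro n hn
          rw [Finset.mem_Ico] at hn
          rw [lintegral_indicator_one (measurableSet_toMeasurable _ _), measure_toMeasurable]
          refine (hB n (hi.trans hn.1)).trans (ENNReal.ofReal_le_ofReal ?_)
          apply mul_le_mul_of_nonneg_left _ hC
          apply Real.rpow_le_rpow_of_nonpos (by positivity) _ (by norm_num)
          exact_mod_cast hn.1
      _ = ENNReal.ofReal ((2 : ℝ) ^ i * (C * ((2 : ℝ) ^ i) ^ (-(1 / 10) : ℝ))) := by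
          rw [Finset.sum_const, Nat.card_Ico, nsmul_eq_mul]
          have h1 : 2 ^ (i + 1) - 2 ^ i = 2 ^ i := by rw [pow_succ]; omega
          have h2 : ((2 ^ (i + 1) - 2 ^ i : ℕ) : ℝ≥0∞) = ENNReal.ofReal ((2 : ℝ) ^ i) := by
            rw [h1, ENNReal.ofReal_pow (by norm_num), ENNReal.ofReal_ofNat]
            push_cast
            rfl
          rw [h2, ← ENNReal.ofReal_mul (by positivity)]
  have hsub : {t : ℂ | (2 : ℝ) ^ (x * i) ≤ blockCard B i t} ⊆
      {t : ℂ | ENNReal.ofReal ((2 : ℝ) ^ (x * i)) ≤ D t} := by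
    intro t ht
    have h1 : ENNReal.ofReal ((2 : ℝ) ^ (x * i)) ≤ (blockCard B i t : ℝ≥0∞) := by
      rw [← ENNReal.ofReal_natCast]
      exact ENNReal.ofReal_le_ofReal ht
    refine le_trans h1 ?_
    unfold blockCard
    rw [Finset.card_filter]
    push_cast
    apply Finset.sum_le_sum
    intro n _
    by_cases h : t ∈ B n
    · rw [if_pos h, indicator_of_mem (subset_toMeasurable _ _ h)]
      exact le_rfl
    · rw [if_neg h]
      exact bot_le
  have hpos : (0 : ℝ) < (2 : ℝ) ^ (x * i) := by positivity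
  refine (measure_mono hsub).trans ((meas_ge_le_lintegral_div hDm.aemeasurable
    (by simpa using hpos) ENNReal.ofReal_ne_top).trans ?_)
  refine (ENNReal.div_le_div_right hDint _).trans ?_
  rw [← ENNReal.ofReal_div_of_pos hpos]
  apply ENNReal.ofReal_le_ofReal
  apply le_of_eq
  have e1 : ((2 : ℝ) ^ i) ^ (-(1 / 10) : ℝ) = (2 : ℝ) ^ ((i : ℝ) * (-(1 / 10))) := by
    rw [← Real.rpow_natCast, ← Real.rpow_mul (by norm_num)]
  have e2 : ((2 : ℝ) ^ (9 / 10 - x)) ^ i = (2 : ℝ) ^ ((9 / 10 - x) * i) := by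
    rw [← Real.rpow_natCast, ← Real.rpow_mul (by norm_num)]
  rw [e1, e2, div_eq_iff hpos.ne', ← Real.rpow_natCast 2 i]
  calc (2 : ℝ) ^ (i : ℝ) * (C * (2 : ℝ) ^ ((i : ℝ) * (-(1 / 10)))) =
      C * ((2 : ℝ) ^ (i : ℝ) * (2 : ℝ) ^ ((i : ℝ) * (-(1 / 10)))) := by ring
    _ = C * ((2 : ℝ) ^ ((9 / 10 - x) * i) * (2 : ℝ) ^ (x * i)) := by
        rw [← Real.rpow_add (by norm_num), ← Real.rpow_add (by norm_num)]
        congr 2
        ring
    _ = _ := by ring

/-- **Almost every point is in few of the sets.** -/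
theorem ae_count {B : ℕ → Set ℂ} {C : ℝ} (hC : 0 ≤ C) {n₀ : ℕ}
    (hB : ∀ n : ℕ, n₀ ≤ n → volume (B n) ≤ ENNReal.ofReal (C * (n : ℝ) ^ (-(1 / 10) : ℝ))) :
    ∀ᵐ t : ℂ, ∀ᶠ N : ℕ in atTop, ({n : ℕ | n < N ∧ t ∈ B n}.ncard : ℝ) ≤ (N : ℝ) ^ (10 / 11 : ℝ) := by
  classical
  set x : ℝ := 181 / 200 with hx
  set ρ : ℝ := (2 : ℝ) ^ (9 / 10 - x) with hρ
  have hρ0 : 0 < ρ := by positivity
  have hρ1 : ρ < 1 := by
    rw [hρ, hx]
    exact Real.rpow_lt_one_of_one_lt_of_neg (by norm_num) (by norm_num)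
  set s : ℕ → Set ℂ := fun i => if n₀ ≤ 2 ^ i then
    {t : ℂ | (2 : ℝ) ^ (x * i) ≤ blockCard B i t} else ∅ with hs
  have hsm : ∀ i, volume (s i) ≤ ENNReal.ofReal (C * ρ ^ i) := by
    intro i
    by_cases hi : n₀ ≤ 2 ^ i
    · simp only [hs, if_pos hi]
      exact block_meas hC hB hi
    · simp only [hs, if_neg hi, measure_empty]
      exact bot_le
  have hsum : ∑' i, volume (s i) ≠ ∞ := by
    apply ne_top_of_le_ne_top _ (ENNReal.tsum_le_tsum hsm)
    have : Summable fun i : ℕ => C * ρ ^ i :=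
      (summable_geometric_of_lt_one hρ0.le hρ1).mul_left C
    exact this.tsum_ofReal_ne_top
  filter_upwards [ae_eventually_notMem hsum] with t ht
  obtain ⟨i₁, hi₁⟩ := eventually_atTop.1 ht
  obtain ⟨i₂, hi₂⟩ : ∃ i : ℕ, n₀ ≤ 2 ^ i := ⟨n₀, Nat.lt_two_pow_self.le⟩
  set i₀ := max i₁ i₂ with hi₀
  have hblock : ∀ i, i₀ ≤ i → (blockCard B i t : ℝ) ≤ (2 : ℝ) ^ (x * i) := by
    intro i hi
    have h1 := hi₁ i ((le_max_left _ _).trans hi)
    have h2 : n₀ ≤ 2 ^ i := hi₂.trans (Nat.pow_le_pow_right (by norm_num) ((le_max_right _ _).trans hi))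
    simp only [hs, if_pos h2, mem_ofPred_eq, not_le] at h1
    exact h1.le
  -- the asymptotic comparison
  have hlog := (isLittleO_log_rpow_atTop (r := 1 / 400) (by norm_num)).bound
    (show (0 : ℝ) < 1 by norm_num)
  have hev : ∀ᶠ N : ℕ in atTop, (2 : ℝ) ^ i₀ + (4 * Real.log N + 1) * (N : ℝ) ^ x ≤
      (N : ℝ) ^ (10 / 11 : ℝ) := by
    have h1 : Tendsto (fun N : ℝ => ((2 : ℝ) ^ i₀ * N ^ (-(10 / 11) : ℝ) +
        (4 * (Real.log N / N ^ (1 / 400 : ℝ)) * N ^ (1 / 400 + x - 10 / 11 : ℝ) +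
          N ^ (x - 10 / 11 : ℝ)))) atTop (𝓝 ((2 : ℝ) ^ i₀ * 0 + (4 * 0 * 0 + 0))) := by
      apply Tendsto.add
      · apply Tendsto.const_mul
        exact tendsto_rpow_neg_atTop (by norm_num)
      · apply Tendsto.add
        · apply Tendsto.mul
          · apply Tendsto.const_mul
            exact (isLittleO_log_rpow_atTop (by norm_num)).tendsto_div_nhds_zero
          · have := tendsto_rpow_neg_atTop (y := 10 / 11 - 1 / 400 - x) (by rw [hx]; norm_num)
            refine this.congr fun N => ?_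
            congr 1
            ring
        · have := tendsto_rpow_neg_atTop (y := 10 / 11 - x) (by rw [hx]; norm_num)
          refine this.congr fun N => ?_
          congr 1
          ring
    rw [show (2 : ℝ) ^ i₀ * 0 + (4 * 0 * 0 + 0) = 0 by ring] at h1
    have h2 := h1.eventually_le_const (show (0 : ℝ) < 1 by norm_num)
    have h3 : ∀ᶠ N : ℝ in atTop, (2 : ℝ) ^ i₀ + (4 * Real.log N + 1) * N ^ x ≤
        N ^ (10 / 11 : ℝ) := by
      filter_upwards [h2, eventually_gt_atTop 0] with N h4 h5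
      have h6 : (0 : ℝ) < N ^ (10 / 11 : ℝ) := by positivity
      have h7 := mul_le_mul_of_nonneg_right h4 h6.le
      rw [one_mul] at h7
      refine le_trans (le_of_eq ?_) h7
      have r1 : N ^ (-(10 / 11) : ℝ) * N ^ (10 / 11 : ℝ) = 1 := by
        rw [← Real.rpow_add h5]; norm_num
      have r2 : N ^ (x - 10 / 11 : ℝ) * N ^ (10 / 11 : ℝ) = N ^ x := by
        rw [← Real.rpow_add h5]; congr 1; ring
      have r3 : N ^ (1 / 400 + x - 10 / 11 : ℝ) * N ^ (10 / 11 : ℝ) = N ^ (1 / 400 : ℝ) * N ^ x := by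
        rw [← Real.rpow_add h5, ← Real.rpow_add h5]; congr 1; ring
      have r4 : Real.log N / N ^ (1 / 400 : ℝ) * N ^ (1 / 400 : ℝ) = Real.log N := by
        have : (0 : ℝ) < N ^ (1 / 400 : ℝ) := by positivity
        field_simp
      calc (2 : ℝ) ^ i₀ + (4 * Real.log N + 1) * N ^ x =
          (2 : ℝ) ^ i₀ * 1 + (4 * Real.log N * N ^ x + N ^ x) := by ring
        _ = (2 : ℝ) ^ i₀ * (N ^ (-(10 / 11) : ℝ) * N ^ (10 / 11 : ℝ)) +
            (4 * (Real.log N / N ^ (1 / 400 : ℝ) * N ^ (1 / 400 : ℝ)) * N ^ x +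
              N ^ (x - 10 / 11 : ℝ) * N ^ (10 / 11 : ℝ)) := by rw [r1, r2, r4]
        _ = (2 : ℝ) ^ i₀ * (N ^ (-(10 / 11) : ℝ) * N ^ (10 / 11 : ℝ)) +
            (4 * (Real.log N / N ^ (1 / 400 : ℝ)) * (N ^ (1 / 400 : ℝ) * N ^ x) +
              N ^ (x - 10 / 11 : ℝ) * N ^ (10 / 11 : ℝ)) := by ring
        _ = (2 : ℝ) ^ i₀ * (N ^ (-(10 / 11) : ℝ) * N ^ (10 / 11 : ℝ)) +
            (4 * (Real.log N / N ^ (1 / 400 : ℝ)) *
              (N ^ (1 / 400 + x - 10 / 11 : ℝ) * N ^ (10 / 11 : ℝ)) +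
              N ^ (x - 10 / 11 : ℝ) * N ^ (10 / 11 : ℝ)) := by rw [r3]
        _ = _ := by ring
    exact tendsto_natCast_atTop_atTop.eventually h3
  filter_upwards [hev, eventually_ge_atTop 1] with N hN hN1
  refine le_trans ?_ hN
  -- the count
  set J := Nat.log 2 N with hJ
  have hJ1 : 2 ^ J ≤ N := Nat.pow_log_le_self 2 (by omega)
  have hJ2 : N < 2 ^ (J + 1) := Nat.lt_pow_succ_log_self (by norm_num) N
  have hsub : {n : ℕ | n < N ∧ t ∈ B n} ⊆ ((Finset.range (2 ^ i₀) ∪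
      (Finset.Icc i₀ J).biUnion fun i =>
        ((Finset.Ico (2 ^ i) (2 ^ (i + 1))).filter fun n => t ∈ B n) : Finset ℕ) : Set ℕ) := by
    rintro n ⟨h1, h2⟩
    rw [Finset.mem_coe, Finset.mem_union, Finset.mem_range, Finset.mem_biUnion]
    by_cases h3 : n < 2 ^ i₀
    · exact Or.inl h3
    · right
      push Not at h3
      have h0 : n ≠ 0 := by
        have : 0 < 2 ^ i₀ := by positivity
        omega
      refine ⟨Nat.log 2 n, ?_, ?_⟩
      · rw [Finset.mem_Icc]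
        constructor
        · exact (Nat.le_log_iff_pow_le (by norm_num) h0).2 h3
        · exact Nat.log_mono_right h1.le
      · rw [Finset.mem_filter, Finset.mem_Ico]
        exact ⟨⟨Nat.pow_log_le_self 2 h0, Nat.lt_pow_succ_log_self (by norm_num) n⟩, h2⟩
  have hcard : {n : ℕ | n < N ∧ t ∈ B n}.ncard ≤ 2 ^ i₀ +
      ∑ i ∈ Finset.Icc i₀ J, blockCard B i t := by
    calc {n : ℕ | n < N ∧ t ∈ B n}.ncard ≤ _ := Set.ncard_le_ncard hsub (Finset.finite_toSet _)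
      _ = _ := Set.ncard_coe_finset _
      _ ≤ _ := Finset.card_union_le _ _
      _ ≤ _ := by
          rw [Finset.card_range]
          exact Nat.add_le_add_left Finset.card_biUnion_le _
  have hcard' : ({n : ℕ | n < N ∧ t ∈ B n}.ncard : ℝ) ≤ 2 ^ i₀ +
      ∑ i ∈ Finset.Icc i₀ J, (blockCard B i t : ℝ) := by exact_mod_cast hcard
  refine hcard'.trans ?_
  have hNr : (1 : ℝ) ≤ N := by exact_mod_cast hN1
  have hx0 : 0 ≤ x := by rw [hx]; norm_num
  have hJN : ∀ i ∈ Finset.Icc i₀ J, (blockCard B i t : ℝ) ≤ (N : ℝ) ^ x := by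
    intro i hi
    rw [Finset.mem_Icc] at hi
    refine (hblock i hi.1).trans ?_
    have h1 : (2 : ℝ) ^ (x * i) = ((2 : ℝ) ^ i) ^ x := by
      rw [← Real.rpow_natCast, ← Real.rpow_mul (by norm_num), mul_comm]
    rw [h1]
    apply Real.rpow_le_rpow (by positivity) _ hx0
    calc (2 : ℝ) ^ i ≤ 2 ^ J := pow_le_pow_right₀ (by norm_num) hi.2
      _ ≤ N := by exact_mod_cast hJ1
  have hJlog : (J : ℝ) ≤ 2 * Real.log N := by
    have h1 : (J : ℝ) * Real.log 2 ≤ Real.log N := by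
      rw [← Real.log_pow]
      apply Real.log_le_log (by positivity)
      exact_mod_cast hJ1
    have h2 := Real.log_two_gt_d9
    have h3 : (0 : ℝ) ≤ J := Nat.cast_nonneg _
    nlinarith
  have hlog0 : 0 ≤ Real.log N := Real.log_nonneg hNr
  have hc : ((Finset.Icc i₀ J).card : ℝ) ≤ 4 * Real.log N + 1 := by
    have h1 : (Finset.Icc i₀ J).card ≤ J + 1 := by
      rw [Nat.card_Icc]; omega
    have h2 : ((Finset.Icc i₀ J).card : ℝ) ≤ J + 1 := by exact_mod_cast h1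
    linarith
  have hNx : 0 ≤ (N : ℝ) ^ x := by positivity
  calc (2 : ℝ) ^ i₀ + ∑ i ∈ Finset.Icc i₀ J, (blockCard B i t : ℝ)
      ≤ (2 : ℝ) ^ i₀ + ∑ i ∈ Finset.Icc i₀ J, (N : ℝ) ^ x :=
        add_le_add le_rfl (Finset.sum_le_sum hJN)
    _ = (2 : ℝ) ^ i₀ + ((Finset.Icc i₀ J).card : ℝ) * (N : ℝ) ^ x := by
        rw [Finset.sum_const, nsmul_eq_mul]
    _ ≤ (2 : ℝ) ^ i₀ + (4 * Real.log N + 1) * (N : ℝ) ^ x :=
        add_le_add le_rfl (mul_le_mul_of_nonneg_right hc hNx)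

end Pool.Agent.H214.Tri
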