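import Pool.Agent.H214.Tri.Dyn

/-!
# The critical orbits for good parameters
-/

set_option autoImplicit false

open Set Filter Topology Metric

namespace Pool.Agent.H214.Tri

/-- the numerical conditions -/
structure Num (n K : ℕ) (ℓ s r e η M Λ E D P : ℝ) : Prop where
  hn : 2 ≤ n
  he0 : 0 < e
  he1 : e ≤ 1 / 4
  hs0 : 0 < s
  hs1 : s ≤ 1
  hη0 : 0 ≤ η
  inner : (1 - e) ^ n ≤ η
  outer : M ≤ (1 + e) ^ (n - 1)
  hM : 0 ≤ M
  hΛ : ∀ j, j ≤ K + 1 → ℓ ^ j ≤ Λ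
  hE : η * ((K + 1) * Λ) ≤ E
  hE2 : (1 + 2 * E) ^ (n - 1) ≤ 2
  hEe : E ≤ e
  hD : n * (2 * M) * E + ℓ * E ≤ D
  hDr : D ≤ r / 2
  hDe : Λ * D + η * (K * Λ) ≤ e
  gt : 1 < ℓ → 1 + P < ℓ ^ K * (r / 2 - η / (ℓ - 1))
  lt : ℓ < 1 → ℓ ^ K * (1 + P) + η / (1 - ℓ) ≤ s / 2
  trap : ℓ < 1 → n * (1 - s / 2) ^ (n - 1) ≤ (1 - ℓ) / 2 * (s / 2)

variable {n K : ℕ} {l t p a : ℂ} {s r e η M Λ E D P : ℝ}

/-- A long inner run. -/
theorem run_final (N : Num n K ‖l‖ s r e η M Λ E D P) (hl : ‖l‖ ≠ 1) (hp : l * p + t = p)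
    (hpP : ‖p‖ ≤ P) (hG0 : s ≤ |‖p‖ - 1|) (y0 : ℂ)
    (hin : ∀ j, j ≤ K → ‖(f n l t)^[j] y0‖ ≤ 1 - e) (hr : 1 < ‖l‖ → r / 2 ≤ ‖y0 - p‖) :
    ‖l‖ < 1 ∧ ‖p‖ < 1 ∧ ∃ x : ℂ, f n l t x = x ∧ ‖deriv (f n l t) x‖ < 1 ∧
      Tendsto (fun k : ℕ => (f n l t)^[k] y0) atTop (𝓝 x) := by
  have he0 := N.he0
  have hη0 := N.hη0
  have hy : ∀ j, j < K → (f n l t)^[j + 1] y0 =
      ((f n l t)^[j] y0) ^ n + l * (f n l t)^[j] y0 + t := fun j _ => f_iter_succ n l t y0 j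
  have hη : ∀ j, j < K → ‖((f n l t)^[j] y0) ^ n‖ ≤ η := by
    intro j hj
    rw [norm_pow]
    exact (pow_le_pow_left₀ (norm_nonneg _) (hin j hj.le) _).trans N.inner
  rcases lt_or_gt_of_ne hl with h | h
  · refine ⟨h, ?_⟩
    have h1 := run_lt h hη0 hp (fun j => (f n l t)^[j] y0) K hy hη K le_rfl
    have h2 := N.lt h
    have h3 : ‖y0 - p‖ ≤ 1 + P := by
      have h0 := hin 0 (Nat.zero_le _)
      rw [Function.iterate_zero, id] at h0
      exact (norm_sub_le _ _).trans (add_le_add (by linarith) hpP)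
    have h4 : ‖(f n l t)^[K] y0 - p‖ ≤ s / 2 := by
      refine h1.trans (le_trans ?_ h2)
      have : ‖l‖ ^ K * ‖y0 - p‖ ≤ ‖l‖ ^ K * (1 + P) :=
        mul_le_mul_of_nonneg_left h3 (by positivity)
      simp only [Function.iterate_zero, id]
      linarith
    have h5 : ‖p‖ ≤ 1 - s := by
      rcases le_total ‖p‖ 1 with h6 | h6
      · rw [abs_of_nonpos (by linarith)] at hG0; linarith
      · exfalso
        rw [abs_of_nonneg (by linarith)] at hG0
        have h7 : ‖p‖ ≤ ‖(f n l t)^[K] y0‖ + ‖(f n l t)^[K] y0 - p‖ := by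
          have : p = (f n l t)^[K] y0 - ((f n l t)^[K] y0 - p) := by ring
          conv_lhs => rw [this]
          exact norm_sub_le _ _
        have h8 := hin K le_rfl
        have := N.hs0
        linarith
    obtain ⟨x, hx1, hx2, hx3⟩ := Tri.trap N.hn h hp N.hs0 N.hs1 h5 (N.trap h) h4
    exact ⟨by linarith [N.hs0], x, hx1, hx2, tendsto_iter K hx3⟩
  · exfalso
    have h1 := run_gt h hp (fun j => (f n l t)^[j] y0) K hy hη K le_rfl
    have h2 := N.gt h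
    have h3 := hr h
    have h4 : ‖(f n l t)^[K] y0 - p‖ ≤ 1 + P :=
      (norm_sub_le _ _).trans (add_le_add (by linarith [hin K le_rfl]) hpP)
    have h5 : ‖l‖ ^ K * (r / 2 - η / (‖l‖ - 1)) ≤ ‖l‖ ^ K * (‖y0 - p‖ - η / (‖l‖ - 1)) :=
      mul_le_mul_of_nonneg_left (by linarith) (by positivity)
    have h6 : 0 ≤ η / (‖l‖ - 1) := div_nonneg hη0 (by linarith)
    simp only [Function.iterate_zero, id] at h1
    linarith

/-- **The critical orbits for good parameters.** -/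
theorem det (N : Num n K ‖l‖ s r e η M Λ E D P) (hl : ‖l‖ ≠ 1) (hp : l * p + t = p)
    (hM : 2 + ‖l‖ + ‖t‖ ≤ M) (hpP : ‖p‖ ≤ P) (hG0 : s ≤ |‖p‖ - 1|)
    (hG1 : ∀ m, m ≤ K → ∀ k, k ≤ K → |‖u l a t m‖ - 1| ≤ 2 * e → ¬ |‖w n l a t m k‖ - 1| ≤ 2 * e)
    (hG2 : 1 < ‖l‖ → ∀ m, m ≤ K → |‖u l a t m‖ - 1| ≤ 2 * e → r ≤ ‖w n l a t m 0 - p‖)
    (hG3 : 1 < ‖l‖ → r / 2 ≤ ‖t + a - p‖) :
    Tendsto (fun k : ℕ => ‖(f n l t)^[k] (t + a)‖) atTop atTop ∨
      (‖l‖ < 1 ∧ ‖p‖ < 1 ∧ ∃ x : ℂ, f n l t x = x ∧ ‖deriv (f n l t) x‖ < 1 ∧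
        Tendsto (fun k : ℕ => (f n l t)^[k] (t + a)) atTop (𝓝 x)) := by
  classical
  by_cases hesc : Tendsto (fun k : ℕ => ‖(f n l t)^[k] (t + a)‖) atTop atTop
  · exact Or.inl hesc
  right
  have hn := N.hn
  have he0 := N.he0
  have he1 := N.he1
  have hη0 := N.hη0
  have hM0 := N.hM
  have hEe := N.hEe
  have hΛ1 : 1 ≤ Λ := by simpa using N.hΛ 0 (Nat.zero_le _)
  have hE0 : 0 ≤ E := le_trans (by positivity) N.hE
  -- no orbit point is far away
  have hne : ∀ j, ‖(f n l t)^[j] (t + a)‖ ^ (n - 1) < M := by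
    intro j
    by_contra h
    push Not at h
    exact hesc (escape_iter j (escape hn hM h))
  have hne' : ∀ j, ‖(f n l t)^[j] (t + a)‖ < 1 + e := by
    intro j
    by_contra h
    push Not at h
    have h1 := hne j
    have h2 := pow_le_pow_left₀ (by linarith) h (n - 1)
    linarith [N.outer]
  by_cases hall : ∀ j, j ≤ K → ‖(f n l t)^[j] (t + a)‖ ≤ 1 - e
  · exact run_final N hl hp hpP hG0 (t + a) hall hG3
  push Not at hall
  -- the first point which is not inner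
  have hex : ∃ m, 1 - e < ‖(f n l t)^[m] (t + a)‖ := by
    obtain ⟨j, _, hj⟩ := hall
    exact ⟨j, hj⟩
  set m := Nat.find hex with hm
  have hm1 : 1 - e < ‖(f n l t)^[m] (t + a)‖ := Nat.find_spec hex
  have hm2 : ∀ j, j < m → ‖(f n l t)^[j] (t + a)‖ ≤ 1 - e := fun j hj =>
    not_lt.1 (Nat.find_min hex hj)
  have hmK : m ≤ K := by
    obtain ⟨j, hj1, hj2⟩ := hall
    exact (Nat.find_le hj2).trans hj1
  have hin : ∀ z : ℂ, ‖z‖ ≤ 1 - e → ‖z ^ n‖ ≤ η := by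
    intro z hz
    rw [norm_pow]
    exact (pow_le_pow_left₀ (norm_nonneg _) hz _).trans N.inner
  -- shadowing up to the time `m`
  set zm := (f n l t)^[m] (t + a) with hzm
  have hsh : ‖zm - u l a t m‖ ≤ E := by
    have h1 := shadow (Δ := 0) hη0 (fun j => (f n l t)^[j] (t + a)) (fun j => u l a t j) m
      (fun j _ => f_iter_succ n l t (t + a) j) (fun j => u_succ l a t j)
      (fun j hj => hin _ (hm2 j hj)) (by simp [u_zero])
      (fun j hj => N.hΛ j (by omega)) m le_rfl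
    refine h1.trans (le_trans ?_ N.hE)
    rw [mul_zero, zero_add]
    apply mul_le_mul_of_nonneg_left _ hη0
    have h3 : (m : ℝ) ≤ K := by exact_mod_cast hmK
    nlinarith
  have hu1 : |‖u l a t m‖ - 1| ≤ 2 * e := by
    have h1 := abs_norm_sub_norm_le zm (u l a t m)
    have h2 := hne' m
    rw [abs_le] at h1 ⊢
    constructor <;> linarith
  -- the next point
  have hz1 : ‖f n l t zm - w n l a t m 0‖ ≤ D := by
    rw [w_zero]
    have h1 : f n l t zm - f n l t (u l a t m) =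
        (zm ^ n - u l a t m ^ n) + l * (zm - u l a t m) := by unfold f; ring
    have hB1 : ‖u l a t m‖ ≤ ‖zm‖ + E := by
      have : u l a t m = zm - (zm - u l a t m) := by ring
      rw [this]
      exact (norm_sub_le _ _).trans (add_le_add le_rfl hsh)
    have h2 := pow_sub_pow_norm (z := zm) (B := ‖zm‖ + E) (by linarith) hB1 n
    have h3 : (‖zm‖ + E) ^ (n - 1) ≤ 2 * M := by
      have h4 : ‖zm‖ + E ≤ ‖zm‖ * (1 + 2 * E) := by nlinarith
      calc (‖zm‖ + E) ^ (n - 1) ≤ (‖zm‖ * (1 + 2 * E)) ^ (n - 1) :=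
            pow_le_pow_left₀ (by positivity) h4 _
        _ = ‖zm‖ ^ (n - 1) * (1 + 2 * E) ^ (n - 1) := mul_pow _ _ _
        _ ≤ M * 2 := mul_le_mul (hne m).le N.hE2 (by positivity) hM0
        _ = 2 * M := by ring
    rw [h1]
    calc ‖(zm ^ n - u l a t m ^ n) + l * (zm - u l a t m)‖
        ≤ ‖zm ^ n - u l a t m ^ n‖ + ‖l‖ * ‖zm - u l a t m‖ := by
          refine (norm_add_le _ _).trans ?_
          rw [norm_mul]
      _ ≤ n * (‖zm‖ + E) ^ (n - 1) * ‖zm - u l a t m‖ + ‖l‖ * E :=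
          add_le_add h2 (mul_le_mul_of_nonneg_left hsh (norm_nonneg _))
      _ ≤ n * (2 * M) * E + ‖l‖ * E := by
          apply add_le_add _ le_rfl
          apply mul_le_mul _ hsh (norm_nonneg _) (by positivity)
          exact mul_le_mul_of_nonneg_left h3 (by positivity)
      _ ≤ D := N.hD
  have hD0 : 0 ≤ D := (norm_nonneg _).trans hz1
  set y0 := f n l t zm with hy0
  have hy0' : ∀ k, (f n l t)^[k] y0 = (f n l t)^[k + (m + 1)] (t + a) := by
    intro k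
    rw [Function.iterate_add_apply, Function.iterate_succ_apply']
  -- shadowing after the visit
  have hsh2 : ∀ k, k ≤ K → (∀ j, j < k → ‖(f n l t)^[j] y0‖ ≤ 1 - e) →
      ‖(f n l t)^[k] y0 - w n l a t m k‖ ≤ e := by
    intro k hk hj
    have h1 := shadow (Δ := D) (Λ := Λ) hη0 (fun j => (f n l t)^[j] y0) (fun j => w n l a t m j) k
      (fun j _ => f_iter_succ n l t y0 j) (fun j => w_succ n l a t m j)
      (fun j hj' => hin _ (hj j hj')) (by simpa using hz1)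
      (fun j hj' => N.hΛ j (by omega)) k le_rfl
    refine h1.trans (le_trans ?_ N.hDe)
    have h3 : (k : ℝ) ≤ K := by exact_mod_cast hk
    have h4 : η * (k * Λ) ≤ η * (K * Λ) := by
      apply mul_le_mul_of_nonneg_left _ hη0
      exact mul_le_mul_of_nonneg_right h3 (by linarith)
    linarith
  by_cases hall2 : ∀ j, j ≤ K → ‖(f n l t)^[j] y0‖ ≤ 1 - e
  · have hr : 1 < ‖l‖ → r / 2 ≤ ‖y0 - p‖ := by
      intro h
      have h1 := hG2 h m hmK hu1
      have h2 : ‖w n l a t m 0 - p‖ ≤ ‖y0 - p‖ + D := by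
        have : w n l a t m 0 - p = (y0 - p) - (y0 - w n l a t m 0) := by ring
        rw [this]
        exact (norm_sub_le _ _).trans (add_le_add le_rfl hz1)
      linarith [N.hDr]
    obtain ⟨h1, h1p, x, hx1, hx2, hx3⟩ := run_final N hl hp hpP hG0 y0 hall2 hr
    refine ⟨h1, h1p, x, hx1, hx2, ?_⟩
    apply tendsto_iter (m + 1)
    rw [Function.iterate_succ_apply']
    exact hx3
  · exfalso
    push Not at hall2
    have hex2 : ∃ k, 1 - e < ‖(f n l t)^[k] y0‖ := by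
      obtain ⟨j, _, hj⟩ := hall2
      exact ⟨j, hj⟩
    set k := Nat.find hex2 with hk
    have hk1 : 1 - e < ‖(f n l t)^[k] y0‖ := Nat.find_spec hex2
    have hk2 : ∀ j, j < k → ‖(f n l t)^[j] y0‖ ≤ 1 - e := fun j hj =>
      not_lt.1 (Nat.find_min hex2 hj)
    have hkK : k ≤ K := by
      obtain ⟨j, hj1, hj2⟩ := hall2
      exact (Nat.find_le hj2).trans hj1
    have h1 := hsh2 k hkK hk2
    have h2 := hne' (k + (m + 1))
    rw [← hy0'] at h2
    apply hG1 m hmK k hkK hu1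
    have h3 := abs_norm_sub_norm_le ((f n l t)^[k] y0) (w n l a t m k)
    rw [abs_le] at h3 ⊢
    constructor <;> linarith

end Pool.Agent.H214.Tri
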