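import Mathlib

/-!
# The dynamics of `z ^ n + l z + t`

Outside a thin annulus around the unit circle, the map is nearly affine (inside) or escaping
(outside).  We follow the critical orbits until they enter this annulus for the second time.
-/

set_option autoImplicit false

open Set Filter Topology Metric
open scoped NNReal

namespace Pool.Agent.H214.Tri

/-- the trinomial -/
def f (n : ℕ) (l t z : ℂ) : ℂ := z ^ n + l * z + t

/-- geometric sums -/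
def sg (l : ℂ) (j : ℕ) : ℂ := ∑ i ∈ Finset.range j, l ^ i

/-- the affine orbit of `t + a` -/
def u (l a t : ℂ) (m : ℕ) : ℂ := sg l (m + 1) * t + l ^ m * a

/-- the orbit of `t + a` which makes use of the power at the time `m` only -/
def w (n : ℕ) (l a t : ℂ) (m k : ℕ) : ℂ := l ^ k * u l a t m ^ n + u l a t (m + k + 1)

theorem sg_succ (l : ℂ) (j : ℕ) : sg l (j + 1) = l * sg l j + 1 := geom_sum_succ

theorem sg_zero (l : ℂ) : sg l 0 = 0 := by simp [sg]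

theorem sg_one (l : ℂ) : sg l 1 = 1 := by simp [sg]

theorem u_zero (l a t : ℂ) : u l a t 0 = t + a := by simp [u, sg_one]

theorem u_succ (l a t : ℂ) (m : ℕ) : u l a t (m + 1) = l * u l a t m + t := by
  unfold u
  rw [sg_succ l (m + 1)]
  ring

theorem w_zero (n : ℕ) (l a t : ℂ) (m : ℕ) : w n l a t m 0 = f n l t (u l a t m) := by
  unfold w f
  rw [add_zero, u_succ]
  ring

theorem w_succ (n : ℕ) (l a t : ℂ) (m k : ℕ) :
    w n l a t m (k + 1) = l * w n l a t m k + t := by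
  unfold w
  rw [show m + (k + 1) + 1 = (m + k + 1) + 1 by ring, u_succ]
  ring

theorem pow_sub_pow_norm {z v : ℂ} {B : ℝ} (hz : ‖z‖ ≤ B) (hv : ‖v‖ ≤ B) (n : ℕ) :
    ‖z ^ n - v ^ n‖ ≤ n * B ^ (n - 1) * ‖z - v‖ := by
  have hB : 0 ≤ B := (norm_nonneg z).trans hz
  rcases n with _ | n
  · simp
  rw [Nat.add_sub_cancel]
  induction n with
  | zero => simp
  | succ n ih =>
    have h1 : z ^ (n + 1 + 1) - v ^ (n + 1 + 1) =
        z * (z ^ (n + 1) - v ^ (n + 1)) + (z - v) * v ^ (n + 1) := by ring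
    rw [h1]
    have h2 : ‖v‖ ^ (n + 1) ≤ B ^ (n + 1) := pow_le_pow_left₀ (norm_nonneg _) hv _
    calc ‖z * (z ^ (n + 1) - v ^ (n + 1)) + (z - v) * v ^ (n + 1)‖
        ≤ ‖z‖ * ‖z ^ (n + 1) - v ^ (n + 1)‖ + ‖z - v‖ * ‖v‖ ^ (n + 1) := by
          refine (norm_add_le _ _).trans ?_
          rw [norm_mul, norm_mul, norm_pow]
      _ ≤ B * (((n + 1 : ℕ) : ℝ) * B ^ n * ‖z - v‖) + ‖z - v‖ * B ^ (n + 1) := by
          apply add_le_add
          · exact mul_le_mul hz ih (norm_nonneg _) hB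
          · exact mul_le_mul_of_nonneg_left h2 (norm_nonneg _)
      _ = ((n + 1 + 1 : ℕ) : ℝ) * B ^ (n + 1) * ‖z - v‖ := by
          push_cast
          ring

theorem f_iter_succ (n : ℕ) (l t z : ℂ) (k : ℕ) :
    (f n l t)^[k + 1] z = ((f n l t)^[k] z) ^ n + l * (f n l t)^[k] z + t := by
  rw [Function.iterate_succ_apply']
  rfl

/-- escape -/
theorem escape {n : ℕ} {l t z : ℂ} {M : ℝ} (hn : 2 ≤ n) (hM : 2 + ‖l‖ + ‖t‖ ≤ M)
    (hz : M ≤ ‖z‖ ^ (n - 1)) :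
    Tendsto (fun k : ℕ => ‖(f n l t)^[k] z‖) atTop atTop := by
  have hM2 : 2 ≤ M := by linarith [norm_nonneg l, norm_nonneg t]
  have key : ∀ z : ℂ, M ≤ ‖z‖ ^ (n - 1) → 1 ≤ ‖z‖ ∧ 2 * ‖z‖ ≤ ‖f n l t z‖ := by
    intro z hz
    have h1 : 1 ≤ ‖z‖ := by
      by_contra h
      push Not at h
      have h2 : ‖z‖ ^ (n - 1) ≤ 1 := pow_le_one₀ (norm_nonneg _) h.le
      linarith
    refine ⟨h1, ?_⟩
    have h3 : ‖z‖ ^ n = ‖z‖ ^ (n - 1) * ‖z‖ := by
      rw [← pow_succ]; congr 1; omega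
    have h4 : ‖z ^ n‖ ≤ ‖f n l t z‖ + ‖l * z‖ + ‖t‖ := by
      have : z ^ n = f n l t z - l * z - t := by unfold f; ring
      rw [this]
      exact (norm_sub_le _ _).trans (add_le_add (norm_sub_le _ _) le_rfl)
    rw [norm_pow, h3, norm_mul] at h4
    have h5 : M * ‖z‖ ≤ ‖z‖ ^ (n - 1) * ‖z‖ := mul_le_mul_of_nonneg_right hz (norm_nonneg _)
    have h6 : ‖t‖ ≤ ‖t‖ * ‖z‖ := le_mul_of_one_le_right (norm_nonneg _) h1
    have h7 : (2 + ‖l‖ + ‖t‖) * ‖z‖ ≤ M * ‖z‖ := mul_le_mul_of_nonneg_right hM (norm_nonneg _)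
    nlinarith
  have main : ∀ k : ℕ, M ≤ ‖(f n l t)^[k] z‖ ^ (n - 1) ∧ (2 : ℝ) ^ k ≤ ‖(f n l t)^[k] z‖ := by
    intro k
    induction k with
    | zero =>
      refine ⟨hz, ?_⟩
      simpa using (key z hz).1
    | succ k ih =>
      rw [Function.iterate_succ_apply']
      obtain ⟨h1, h2⟩ := key _ ih.1
      refine ⟨?_, ?_⟩
      · refine ih.1.trans (pow_le_pow_left₀ (norm_nonneg _) ?_ _)
        linarith [norm_nonneg ((f n l t)^[k] z)]
      · rw [pow_succ]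
        linarith [ih.2]
  exact tendsto_atTop_mono (fun k => (main k).2) (tendsto_pow_atTop_atTop_of_one_lt one_lt_two)

/-- If an iterate escapes then the point escapes. -/
theorem escape_iter {n : ℕ} {l t z : ℂ} (j : ℕ)
    (h : Tendsto (fun k : ℕ => ‖(f n l t)^[k] ((f n l t)^[j] z)‖) atTop atTop) :
    Tendsto (fun k : ℕ => ‖(f n l t)^[k] z‖) atTop atTop := by
  rw [← tendsto_add_atTop_iff_nat j]
  simpa only [Function.iterate_add_apply] using h

theorem tendsto_iter {n : ℕ} {l t z x : ℂ} (j : ℕ)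
    (h : Tendsto (fun k : ℕ => (f n l t)^[k] ((f n l t)^[j] z)) atTop (𝓝 x)) :
    Tendsto (fun k : ℕ => (f n l t)^[k] z) atTop (𝓝 x) := by
  rw [← tendsto_add_atTop_iff_nat j]
  simpa only [Function.iterate_add_apply] using h

theorem f_hasDerivAt (n : ℕ) (l t z : ℂ) :
    HasDerivAt (f n l t) (n * z ^ (n - 1) + l) z := by
  unfold f
  have h1 := hasDerivAt_pow n z
  have h2 : HasDerivAt (fun z : ℂ => l * z) l z := by
    simpa using (hasDerivAt_id z).const_mul l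
  have h3 := (h1.add h2).add_const t
  exact h3

/-- the trap -/
theorem trap {n : ℕ} {l t p z : ℂ} {s : ℝ} (hn : 2 ≤ n) (hl : ‖l‖ < 1) (hp : l * p + t = p)
    (hs : 0 < s) (hs1 : s ≤ 1) (hps : ‖p‖ ≤ 1 - s)
    (hsmall : n * (1 - s / 2) ^ (n - 1) ≤ (1 - ‖l‖) / 2 * (s / 2))
    (hz : ‖z - p‖ ≤ s / 2) :
    ∃ x : ℂ, f n l t x = x ∧ ‖deriv (f n l t) x‖ < 1 ∧
      Tendsto (fun k : ℕ => (f n l t)^[k] z) atTop (𝓝 x) := by
  set B := closedBall p (s / 2) with hB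
  have hin : ∀ y ∈ B, ‖y‖ ≤ 1 - s / 2 := by
    intro y hy
    rw [mem_closedBall, dist_eq_norm] at hy
    calc ‖y‖ = ‖(y - p) + p‖ := by congr 1; ring
      _ ≤ ‖y - p‖ + ‖p‖ := norm_add_le _ _
      _ ≤ 1 - s / 2 := by linarith
  have hnn : (1 : ℝ) ≤ n := by exact_mod_cast (by omega : 1 ≤ n)
  have hρ0 : 0 ≤ 1 - s / 2 := by linarith
  have hρ1 : 1 - s / 2 ≤ 1 := by linarith
  have hρn : (1 - s / 2) ^ n ≤ n * (1 - s / 2) ^ (n - 1) := by
    calc (1 - s / 2) ^ n ≤ (1 - s / 2) ^ (n - 1) := pow_le_pow_of_le_one hρ0 hρ1 (by omega)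
      _ ≤ n * (1 - s / 2) ^ (n - 1) := le_mul_of_one_le_left (by positivity) hnn
  set q : ℝ := n * (1 - s / 2) ^ (n - 1) + ‖l‖ with hq
  have hq0 : 0 ≤ q := by positivity
  have hq1 : q < 1 := by
    have : (1 - ‖l‖) / 2 * (s / 2) < 1 - ‖l‖ := by nlinarith
    linarith
  have hlip : ∀ y ∈ B, ∀ y' ∈ B, ‖f n l t y - f n l t y'‖ ≤ q * ‖y - y'‖ := by
    intro y hy y' hy'
    have h1 := pow_sub_pow_norm (hin y hy) (hin y' hy') n
    have h2 : f n l t y - f n l t y' = (y ^ n - y' ^ n) + l * (y - y') := by unfold f; ring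
    rw [h2]
    calc ‖(y ^ n - y' ^ n) + l * (y - y')‖ ≤ ‖y ^ n - y' ^ n‖ + ‖l * (y - y')‖ := norm_add_le _ _
      _ ≤ n * (1 - s / 2) ^ (n - 1) * ‖y - y'‖ + ‖l‖ * ‖y - y'‖ := by
          rw [norm_mul]; linarith
      _ = q * ‖y - y'‖ := by rw [hq]; ring
  have hmaps : MapsTo (f n l t) B B := by
    intro y hy
    rw [hB, mem_closedBall, dist_eq_norm]
    have hy' := hy
    rw [hB, mem_closedBall, dist_eq_norm] at hy'
    have h2 : f n l t y - p = y ^ n + l * (y - p) := by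
      unfold f
      linear_combination hp
    rw [h2]
    calc ‖y ^ n + l * (y - p)‖ ≤ ‖y‖ ^ n + ‖l‖ * ‖y - p‖ := by
          refine (norm_add_le _ _).trans ?_
          rw [norm_pow, norm_mul]
      _ ≤ (1 - s / 2) ^ n + ‖l‖ * (s / 2) := by
          apply add_le_add
          · exact pow_le_pow_left₀ (norm_nonneg _) (hin y hy) _
          · exact mul_le_mul_of_nonneg_left hy' (norm_nonneg _)
      _ ≤ s / 2 := by nlinarith
  have hcomplete : IsComplete B := isClosed_closedBall.isComplete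
  have hcontr : ContractingWith ⟨q, hq0⟩ (hmaps.restrict (f n l t) B B) := by
    refine ⟨by exact_mod_cast hq1, ?_⟩
    apply LipschitzWith.of_dist_le_mul
    rintro ⟨y, hy⟩ ⟨y', hy'⟩
    rw [Subtype.dist_eq, Subtype.dist_eq, dist_eq_norm, dist_eq_norm]
    exact hlip y hy y' hy'
  have hzB : z ∈ B := by rw [hB, mem_closedBall, dist_eq_norm]; exact hz
  obtain ⟨x, hxB, hfix, htend, -⟩ := hcontr.exists_fixedPoint' hcomplete hmaps hzB (edist_ne_top _ _)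
  refine ⟨x, hfix, ?_, htend⟩
  rw [(f_hasDerivAt n l t x).deriv]
  calc ‖(n : ℂ) * x ^ (n - 1) + l‖ ≤ n * ‖x‖ ^ (n - 1) + ‖l‖ := by
        refine (norm_add_le _ _).trans ?_
        rw [norm_mul, norm_pow, Complex.norm_natCast]
    _ ≤ q := by
        rw [hq]
        have : ‖x‖ ^ (n - 1) ≤ (1 - s / 2) ^ (n - 1) := pow_le_pow_left₀ (norm_nonneg _) (hin x hxB) _
        have h2 := mul_le_mul_of_nonneg_left this (by positivity : (0 : ℝ) ≤ n)
        linarith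
    _ < 1 := hq1

/-- A run of inner points, expanding case. -/
theorem run_gt {l t p : ℂ} {n : ℕ} {η : ℝ} (hl : 1 < ‖l‖) (hp : l * p + t = p) (y : ℕ → ℂ)
    (K : ℕ) (hy : ∀ j, j < K → y (j + 1) = y j ^ n + l * y j + t)
    (hη : ∀ j, j < K → ‖y j ^ n‖ ≤ η) :
    ∀ j, j ≤ K → ‖l‖ ^ j * (‖y 0 - p‖ - η / (‖l‖ - 1)) ≤ ‖y j - p‖ - η / (‖l‖ - 1) := by
  intro j
  induction j with
  | zero => intro _; simp
  | succ j ih =>
    intro hj
    have h1 := ih (by omega)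
    have h2 : l * (y j - p) = (y (j + 1) - p) - y j ^ n := by
      rw [hy j (by omega)]; linear_combination -hp
    have h3 : ‖l‖ * ‖y j - p‖ ≤ ‖y (j + 1) - p‖ + η := by
      rw [← norm_mul, h2]
      exact (norm_sub_le _ _).trans (add_le_add le_rfl (hη j (by omega)))
    have hl1 : 0 < ‖l‖ - 1 := by linarith
    have h4 : ‖l‖ * (η / (‖l‖ - 1)) = η + η / (‖l‖ - 1) := by
      field_simp
      ring
    calc ‖l‖ ^ (j + 1) * (‖y 0 - p‖ - η / (‖l‖ - 1))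
        = ‖l‖ * (‖l‖ ^ j * (‖y 0 - p‖ - η / (‖l‖ - 1))) := by ring
      _ ≤ ‖l‖ * (‖y j - p‖ - η / (‖l‖ - 1)) := mul_le_mul_of_nonneg_left h1 (norm_nonneg _)
      _ = ‖l‖ * ‖y j - p‖ - ‖l‖ * (η / (‖l‖ - 1)) := by ring
      _ ≤ ‖y (j + 1) - p‖ - η / (‖l‖ - 1) := by rw [h4]; linarith

/-- A run of inner points, contracting case. -/
theorem run_lt {l t p : ℂ} {n : ℕ} {η : ℝ} (hl : ‖l‖ < 1) (hη0 : 0 ≤ η) (hp : l * p + t = p)
    (y : ℕ → ℂ) (K : ℕ) (hy : ∀ j, j < K → y (j + 1) = y j ^ n + l * y j + t)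
    (hη : ∀ j, j < K → ‖y j ^ n‖ ≤ η) :
    ∀ j, j ≤ K → ‖y j - p‖ ≤ ‖l‖ ^ j * ‖y 0 - p‖ + η / (1 - ‖l‖) := by
  have hl1 : 0 < 1 - ‖l‖ := by linarith
  intro j
  induction j with
  | zero => intro _; simp only [pow_zero, one_mul]; linarith [div_nonneg hη0 hl1.le]
  | succ j ih =>
    intro hj
    have h1 := ih (by omega)
    have h2 : y (j + 1) - p = y j ^ n + l * (y j - p) := by
      rw [hy j (by omega)]; linear_combination hp
    have h4 : ‖l‖ * (η / (1 - ‖l‖)) + η = η / (1 - ‖l‖) := by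
      field_simp
      ring
    calc ‖y (j + 1) - p‖ ≤ ‖y j ^ n‖ + ‖l‖ * ‖y j - p‖ := by
          rw [h2]
          refine (norm_add_le _ _).trans ?_
          rw [norm_mul l]
      _ ≤ η + ‖l‖ * (‖l‖ ^ j * ‖y 0 - p‖ + η / (1 - ‖l‖)) :=
          add_le_add (hη j (by omega)) (mul_le_mul_of_nonneg_left h1 (norm_nonneg _))
      _ = ‖l‖ ^ (j + 1) * ‖y 0 - p‖ + (‖l‖ * (η / (1 - ‖l‖)) + η) := by ring
      _ = _ := by rw [h4]

/-- shadowing -/
theorem shadow {l t : ℂ} {n : ℕ} {η Δ Λ : ℝ} (hη0 : 0 ≤ η) (y v : ℕ → ℂ) (K : ℕ)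
    (hy : ∀ j, j < K → y (j + 1) = y j ^ n + l * y j + t)
    (hv : ∀ j, v (j + 1) = l * v j + t)
    (hη : ∀ j, j < K → ‖y j ^ n‖ ≤ η) (h0 : ‖y 0 - v 0‖ ≤ Δ)
    (hlΛ : ∀ j, j ≤ K → ‖l‖ ^ j ≤ Λ) :
    ∀ j, j ≤ K → ‖y j - v j‖ ≤ Λ * Δ + η * (j * Λ) := by
  have hΔ : 0 ≤ Δ := (norm_nonneg _).trans h0
  have key : ∀ j, j ≤ K → ‖y j - v j‖ ≤ ‖l‖ ^ j * Δ + η * ∑ i ∈ Finset.range j, ‖l‖ ^ i := by
    intro j
    induction j with
    | zero => intro _; simpa using h0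
    | succ j ih =>
      intro hj
      have h1 := ih (by omega)
      have h2 : y (j + 1) - v (j + 1) = y j ^ n + l * (y j - v j) := by
        rw [hy j (by omega), hv j]; ring
      rw [geom_sum_succ]
      calc ‖y (j + 1) - v (j + 1)‖ ≤ ‖y j ^ n‖ + ‖l‖ * ‖y j - v j‖ := by
            rw [h2]
            refine (norm_add_le _ _).trans ?_
            rw [norm_mul l]
        _ ≤ η + ‖l‖ * (‖l‖ ^ j * Δ + η * ∑ i ∈ Finset.range j, ‖l‖ ^ i) :=
            add_le_add (hη j (by omega)) (mul_le_mul_of_nonneg_left h1 (norm_nonneg _))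
        _ = _ := by ring
  intro j hj
  refine (key j hj).trans (add_le_add (mul_le_mul_of_nonneg_right (hlΛ j hj) hΔ) ?_)
  apply mul_le_mul_of_nonneg_left _ hη0
  calc ∑ i ∈ Finset.range j, ‖l‖ ^ i ≤ ∑ i ∈ Finset.range j, Λ := by
        apply Finset.sum_le_sum
        intro i hi
        rw [Finset.mem_range] at hi
        exact hlΛ i (by omega)
    _ = j * Λ := by rw [Finset.sum_const, Finset.card_range, nsmul_eq_mul]

end Pool.Agent.H214.Tri
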