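import Pool.Agent.H214.Tri.Param

/-!
# The area estimate
-/

set_option autoImplicit false

open MeasureTheory Set Filter Topology Metric Polynomial
open scoped ENNReal NNReal Real

namespace Pool.Agent.H214.Tri

variable {R κ y L z : ℝ} {n K : ℕ} {l : ℂ}

theorem num2_ok (B : Big R κ y L) (hz : z = y⁻¹) (hn : (n : ℝ) = y ^ 60)
    {cΛ cG : ℝ} (hcΛ : 1 ≤ cΛ) (hcG : 1 ≤ cG)
    (b1 : 2 * (2 * R ^ 3) ^ 2 * R * cG ≤ y) (b2 : 4 * cΛ ≤ y)
    (b3 : 32 * R * (2 * R ^ 3) ^ 2 ≤ y)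
    (hK5 : ∀ k, k ≤ K → 1 ≤ cG * y ^ 6 * ‖l‖ ^ k) :
    Num2 n K ‖l‖ R (z ^ 6) (z ^ 12) (4 * L * z ^ 60) (z ^ 20) (cG * y ^ 6) (cΛ * y ^ 12) := by
  obtain ⟨h1, h2, h3, h4, h5, h6, h7⟩ := zfacts B hz
  have hR := B.hR
  have hR0 : 0 < R := by linarith
  have hy1 := B.hy
  have hy0 : 0 < y := by linarith
  have hL0 : 0 < L := by linarith
  have hzp : ∀ {a b : ℕ}, b ≤ a → z ^ a ≤ z ^ b := fun h => pow_le_pow_of_le_one h2.le h3 h
  have cz : ∀ {c : ℝ}, c ≤ y → c * z ≤ 1 := by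
    intro c hc
    rw [← h1]; exact mul_le_mul_of_nonneg_right hc h2.le
  have hyp : ∀ {a b : ℕ}, a ≤ b → y ^ a ≤ y ^ b := fun h => pow_le_pow_right₀ hy1 h
  have hn1 : (1 : ℝ) ≤ n := by rw [hn]; exact one_le_pow₀ hy1
  have hny : y ≤ n := by
    rw [hn]
    calc y = y ^ 1 := (pow_one y).symm
      _ ≤ y ^ 60 := hyp (by norm_num)
  have hn2 : 2 ≤ n := by
    have : (2 : ℝ) ≤ n := by linarith [B.h16]
    exact_mod_cast this
  have hnN : (n : ℝ) ≤ 2 * ((n - 1 : ℕ) : ℝ) := by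
    exact_mod_cast (by omega : n ≤ 2 * (n - 1))
  have h16z := cz B.h16
  have hnz : (n : ℝ) * z ^ 60 = 1 := by
    rw [hn]
    have := yz_pow h1 60 0
    rwa [add_zero, pow_zero] at this
  have he4 : 4 * (4 * L * z ^ 60) ≤ z ^ 6 := by
    calc 4 * (4 * L * z ^ 60) = (L * z) * (16 * z) * z ^ 58 := by ring
      _ ≤ 1 * 1 * z ^ 58 := by gcongr
      _ = z ^ 58 := by ring
      _ ≤ z ^ 6 := hzp (by norm_num)
  have he20 : 4 * L * z ^ 60 ≤ z ^ 20 := by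
    calc 4 * L * z ^ 60 = (L * z) * (16 * z) * z ^ 58 / 4 := by ring
      _ ≤ 1 * 1 * z ^ 58 / 4 := by gcongr
      _ ≤ z ^ 58 := by
          have : 0 < z ^ 58 := by positivity
          linarith
      _ ≤ z ^ 20 := hzp (by norm_num)
  have he4' : 4 * L * z ^ 60 ≤ 1 / 4 := by
    have : z ^ 6 ≤ 1 := pow_le_one₀ h2.le h3
    linarith
  have he0 : 0 < 4 * L * z ^ 60 := by positivity
  have hlog : 4 * z ≤ 1 := by linarith
  refine
    { hRn := by linarith [B.hR4]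
      hne := ?_
      hen := ?_
      hes := he4
      hr := by positivity
      hrs := ?_
      hG := ?_
      hGk := hK5
      hδ := by positivity
      hB1 := ?_
      hB2 := ?_
      hB3 := ?_
      hbig := ?_ }
  · rw [div_le_iff₀ (by linarith)]
    nlinarith
  · have e1 : (1 - 4 * L * z ^ 60) ^ (n - 1) ≤ z ^ 120 :=
      pow_exp B hz hn (by linarith) (c := 4) (q := 2) le_rfl hnN (by norm_num)
        (by norm_num) (by norm_num)
    refine e1.trans ?_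
    rw [le_div_iff₀ (by positivity)]
    calc z ^ 120 * (R * n) = (n * z ^ 60) * (R * z) * z ^ 59 := by ring
      _ ≤ 1 * 1 * 1 := by
          rw [hnz]
          have p1 : R * z ≤ 1 := cz (by linarith [B.hR4])
          have p2 : z ^ 59 ≤ 1 := pow_le_one₀ h2.le h3
          have p3 := mul_le_mul p1 p2 (by positivity) zero_le_one
          linarith
      _ = 1 := by norm_num
  · calc z ^ 12 = (4 * z) * z ^ 11 / 4 := by ring
      _ ≤ 1 * z ^ 6 / 4 := by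
          have p1 : z ^ 11 ≤ z ^ 6 := hzp (by norm_num)
          have p2 := mul_le_mul hlog p1 (by positivity) zero_le_one
          linarith
      _ = z ^ 6 / 4 := by ring
  · exact one_le_mul_of_one_le_of_one_le hcG (one_le_pow₀ hy1)
  · have e1 : (n : ℝ) * z ^ 20 = y ^ 40 := by
      rw [hn]
      have h10 : y ^ 20 * z ^ 20 = 1 := by rw [← mul_pow, h1, one_pow]
      calc y ^ 60 * z ^ 20 = y ^ 40 * (y ^ 20 * z ^ 20) := by ring
        _ = y ^ 40 := by rw [h10, mul_one]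
    rw [e1]
    calc 2 * (2 * R ^ 3) ^ 2 * R * (cG * y ^ 6) = (2 * (2 * R ^ 3) ^ 2 * R * cG) * y ^ 6 := by ring
      _ ≤ y * y ^ 6 := mul_le_mul_of_nonneg_right b1 (by positivity)
      _ = y ^ 7 := by ring
      _ ≤ y ^ 40 := hyp (by norm_num)
  · have e1 : y ^ 12 * z ^ 20 = z ^ 8 := by
      have := yz_pow h1 12 8
      norm_num at this
      exact this
    calc 2 * (cΛ * y ^ 12) * (4 * L * z ^ 60 + z ^ 20) ≤ 2 * (cΛ * y ^ 12) * (z ^ 20 + z ^ 20) := by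
          gcongr
      _ = 4 * cΛ * (y ^ 12 * z ^ 20) := by ring
      _ = (4 * cΛ * z) * z ^ 7 := by rw [e1]; ring
      _ ≤ 1 * 1 := mul_le_mul (cz b2) (pow_le_one₀ h2.le h3) (by positivity) zero_le_one
      _ = 1 := one_mul 1
  · have e1 : (n : ℝ) * z ^ 6 = y ^ 54 := by
      rw [hn]
      have h10 : y ^ 6 * z ^ 6 = 1 := by rw [← mul_pow, h1, one_pow]
      calc y ^ 60 * z ^ 6 = y ^ 54 * (y ^ 6 * z ^ 6) := by ring
        _ = y ^ 54 := by rw [h10, mul_one]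
    rw [e1, le_div_iff₀ (by positivity)]
    calc 2 * R * (2 * R ^ 3) * (16 * (2 * R ^ 3)) = 32 * R * (2 * R ^ 3) ^ 2 := by ring
      _ ≤ y := b3
      _ = y ^ 1 := (pow_one y).symm
      _ ≤ y ^ 54 := hyp (by norm_num)
  · have e1 : R + 2 ≤ ((n - 2 : ℕ) : ℝ) := by
      have : ((n - 2 : ℕ) : ℝ) = n - 2 := by
        rw [Nat.cast_sub hn2]; norm_num
      rw [this]
      linarith [B.hR4]
    have e2 : ((n - 2 : ℕ) : ℝ) < 2 ^ (n - 2) := by exact_mod_cast Nat.lt_two_pow_self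
    linarith

/-- the constant of the area estimate -/
noncomputable def CC (R cK cG : ℝ) : ℝ :=
  16 * π * R ^ 2 + cK ^ 2 * (128 * π * ((2 * R ^ 3) ^ 2 * R ^ 2 * cG ^ 2) +
    (2 * R ^ 3) ^ 2 * (96 * π * √(24 * (2 * R ^ 3) ^ 4 * R * cG)) + 256 * π * (2 * R ^ 3) ^ 2)

theorem final_bound (B : Big R κ y L) (hz : z = y⁻¹) (hn : (n : ℝ) = y ^ 60)
    {cK cG : ℝ} (hcK : 1 ≤ cK) (hcG : 1 ≤ cG) (hK4 : (K : ℝ) + 1 ≤ cK * L) :
    16 * π * R ^ 2 * z ^ 6 + n * ((K : ℝ) + 1) ^ 2 * (n * (4 * π * (2 * (4 * L * z ^ 60))) /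
          (n * z ^ 20 / (2 * (2 * R ^ 3) * R * (cG * y ^ 6))) ^ 2 +
        (2 * R ^ 3) ^ 2 * (12 * π * (2 * (4 * L * z ^ 60) *
          √(12 * (2 * R ^ 3) ^ 4 * R * (cG * y ^ 6) * (4 * L * z ^ 60 + z ^ 20)))) +
        n * (π * (z ^ 12) ^ 2) / (n * z ^ 6 / (16 * (2 * R ^ 3))) ^ 2) ≤ CC R cK cG * z ^ 6 := by
  obtain ⟨h1, h2, h3, h4, h5, h6, h7⟩ := zfacts B hz
  have hR := B.hR
  have hR0 : 0 < R := by linarith
  have hy1 := B.hy
  have hy0 : 0 < y := by linarith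
  have hL0 : 0 < L := by linarith
  have hπ := Real.pi_pos
  have hzp : ∀ {a b : ℕ}, b ≤ a → z ^ a ≤ z ^ b := fun h => pow_le_pow_of_le_one h2.le h3 h
  have cz : ∀ {c : ℝ}, c ≤ y → c * z ≤ 1 := by
    intro c hc
    rw [← h1]; exact mul_le_mul_of_nonneg_right hc h2.le
  have h16z := cz B.h16
  have hnz : (n : ℝ) * z ^ 60 = 1 := by
    rw [hn]
    have := yz_pow h1 60 0
    rwa [add_zero, pow_zero] at this
  have he20 : 4 * L * z ^ 60 ≤ z ^ 20 := by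
    calc 4 * L * z ^ 60 = (L * z) * (16 * z) * z ^ 58 / 4 := by ring
      _ ≤ 1 * 1 * z ^ 58 / 4 := by gcongr
      _ ≤ z ^ 58 := by
          have : 0 < z ^ 58 := by positivity
          linarith
      _ ≤ z ^ 20 := hzp (by norm_num)
  have hn0 : (0 : ℝ) < n := by rw [hn]; positivity
  have hcG0 : 0 < cG := by linarith
  have hcK0 : 0 < cK := by linarith
  set B0 := 2 * R ^ 3 with hB0
  have hB0p : 0 < B0 := by positivity
  have hL2 : L ^ 2 * z ≤ 1 := by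
    refine le_trans ?_ h6
    apply mul_le_mul_of_nonneg_right _ h2.le
    exact pow_le_pow_right₀ h4 (by norm_num)
  have hKsq : ((K : ℝ) + 1) ^ 2 ≤ cK ^ 2 * L ^ 2 := by
    rw [← mul_pow]
    exact pow_le_pow_left₀ (by positivity) hK4 2
  -- the first term
  have t1 : n * (n * (4 * π * (2 * (4 * L * z ^ 60))) /
          (n * z ^ 20 / (2 * B0 * R * (cG * y ^ 6))) ^ 2) =
      128 * π * (B0 ^ 2 * R ^ 2 * cG ^ 2) * (L * z ^ 8) := by
    have hzy : z = y⁻¹ := hz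
    rw [hn, hzy]
    field_simp
    ring
  have t2 : n * (B0 ^ 2 * (12 * π * (2 * (4 * L * z ^ 60) *
          √(12 * B0 ^ 4 * R * (cG * y ^ 6) * (4 * L * z ^ 60 + z ^ 20))))) ≤
      B0 ^ 2 * (96 * π * √(24 * B0 ^ 4 * R * cG)) * (L * z ^ 7) := by
    have e1 : 12 * B0 ^ 4 * R * (cG * y ^ 6) * (4 * L * z ^ 60 + z ^ 20) ≤
        (24 * B0 ^ 4 * R * cG) * (z ^ 7) ^ 2 := by
      have e2 : y ^ 6 * z ^ 20 = z ^ 14 := by
        have := yz_pow h1 6 14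
        norm_num at this
        exact this
      calc 12 * B0 ^ 4 * R * (cG * y ^ 6) * (4 * L * z ^ 60 + z ^ 20) ≤
          12 * B0 ^ 4 * R * (cG * y ^ 6) * (z ^ 20 + z ^ 20) := by gcongr
        _ = 24 * B0 ^ 4 * R * cG * (y ^ 6 * z ^ 20) := by ring
        _ = (24 * B0 ^ 4 * R * cG) * (z ^ 7) ^ 2 := by rw [e2]; ring
    have e2 : √(12 * B0 ^ 4 * R * (cG * y ^ 6) * (4 * L * z ^ 60 + z ^ 20)) ≤
        √(24 * B0 ^ 4 * R * cG) * z ^ 7 := by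
      refine (Real.sqrt_le_sqrt e1).trans (le_of_eq ?_)
      rw [Real.sqrt_mul (by positivity), Real.sqrt_sq (by positivity)]
    calc n * (B0 ^ 2 * (12 * π * (2 * (4 * L * z ^ 60) *
          √(12 * B0 ^ 4 * R * (cG * y ^ 6) * (4 * L * z ^ 60 + z ^ 20))))) =
        (n * z ^ 60) * (96 * π * B0 ^ 2 * L *
          √(12 * B0 ^ 4 * R * (cG * y ^ 6) * (4 * L * z ^ 60 + z ^ 20))) := by ring
      _ ≤ (n * z ^ 60) * (96 * π * B0 ^ 2 * L * (√(24 * B0 ^ 4 * R * cG) * z ^ 7)) := by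
          gcongr
      _ = _ := by rw [hnz]; ring
  have t3 : n * (n * (π * (z ^ 12) ^ 2) / (n * z ^ 6 / (16 * B0)) ^ 2) =
      256 * π * B0 ^ 2 * z ^ 12 := by
    field_simp
    ring
  set s1 := n * (4 * π * (2 * (4 * L * z ^ 60))) /
          (n * z ^ 20 / (2 * B0 * R * (cG * y ^ 6))) ^ 2 with hs1
  set s2 := B0 ^ 2 * (12 * π * (2 * (4 * L * z ^ 60) *
          √(12 * B0 ^ 4 * R * (cG * y ^ 6) * (4 * L * z ^ 60 + z ^ 20)))) with hs2
  set s3 := n * (π * (z ^ 12) ^ 2) / (n * z ^ 6 / (16 * B0)) ^ 2 with hs3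
  have hs1' : 0 ≤ s1 := by positivity
  have hs2' : 0 ≤ s2 := by positivity
  have hs3' : 0 ≤ s3 := by positivity
  have hc1 : 0 ≤ 128 * π * (B0 ^ 2 * R ^ 2 * cG ^ 2) := by positivity
  have hc2 : 0 ≤ B0 ^ 2 * (96 * π * √(24 * B0 ^ 4 * R * cG)) := by positivity
  have hc3 : 0 ≤ 256 * π * B0 ^ 2 := by positivity
  have m1 : L ^ 2 * (L * z ^ 8) ≤ z ^ 6 := by
    calc L ^ 2 * (L * z ^ 8) = (L ^ 3 * z) * z ^ 7 := by ring
      _ ≤ 1 * z ^ 6 := mul_le_mul h6 (hzp (by norm_num)) (by positivity) zero_le_one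
      _ = z ^ 6 := one_mul _
  have m2 : L ^ 2 * (L * z ^ 7) ≤ z ^ 6 := by
    calc L ^ 2 * (L * z ^ 7) = (L ^ 3 * z) * z ^ 6 := by ring
      _ ≤ 1 * z ^ 6 := mul_le_mul h6 le_rfl (by positivity) zero_le_one
      _ = z ^ 6 := one_mul _
  have m3 : L ^ 2 * z ^ 12 ≤ z ^ 6 := by
    calc L ^ 2 * z ^ 12 = (L ^ 2 * z) * z ^ 11 := by ring
      _ ≤ 1 * z ^ 6 := mul_le_mul hL2 (hzp (by norm_num)) (by positivity) zero_le_one
      _ = z ^ 6 := one_mul _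
  have hmain : n * ((K : ℝ) + 1) ^ 2 * (s1 + s2 + s3) ≤ cK ^ 2 * L ^ 2 *
      (128 * π * (B0 ^ 2 * R ^ 2 * cG ^ 2) * (L * z ^ 8) +
        B0 ^ 2 * (96 * π * √(24 * B0 ^ 4 * R * cG)) * (L * z ^ 7) + 256 * π * B0 ^ 2 * z ^ 12) := by
    calc n * ((K : ℝ) + 1) ^ 2 * (s1 + s2 + s3) =
        ((K : ℝ) + 1) ^ 2 * (n * s1 + n * s2 + n * s3) := by ring
      _ ≤ (cK ^ 2 * L ^ 2) * (n * s1 + n * s2 + n * s3) :=
          mul_le_mul_of_nonneg_right hKsq (by positivity)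
      _ ≤ _ := by
          apply mul_le_mul_of_nonneg_left _ (by positivity)
          rw [t1, t3]
          linarith
  have q1 := mul_le_mul_of_nonneg_left m1 hc1
  have q2 := mul_le_mul_of_nonneg_left m2 hc2
  have q3 := mul_le_mul_of_nonneg_left m3 hc3
  have hq : cK ^ 2 * L ^ 2 *
      (128 * π * (B0 ^ 2 * R ^ 2 * cG ^ 2) * (L * z ^ 8) +
        B0 ^ 2 * (96 * π * √(24 * B0 ^ 4 * R * cG)) * (L * z ^ 7) + 256 * π * B0 ^ 2 * z ^ 12) ≤
      cK ^ 2 * (128 * π * (B0 ^ 2 * R ^ 2 * cG ^ 2) +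
        B0 ^ 2 * (96 * π * √(24 * B0 ^ 4 * R * cG)) + 256 * π * B0 ^ 2) * z ^ 6 := by
    calc _ = cK ^ 2 * (128 * π * (B0 ^ 2 * R ^ 2 * cG ^ 2) * (L ^ 2 * (L * z ^ 8)) +
        B0 ^ 2 * (96 * π * √(24 * B0 ^ 4 * R * cG)) * (L ^ 2 * (L * z ^ 7)) +
          256 * π * B0 ^ 2 * (L ^ 2 * z ^ 12)) := by ring
      _ ≤ cK ^ 2 * (128 * π * (B0 ^ 2 * R ^ 2 * cG ^ 2) * z ^ 6 +
        B0 ^ 2 * (96 * π * √(24 * B0 ^ 4 * R * cG)) * z ^ 6 + 256 * π * B0 ^ 2 * z ^ 6) := by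
          apply mul_le_mul_of_nonneg_left _ (by positivity)
          linarith
      _ = _ := by ring
  unfold CC
  rw [← hB0]
  linarith

/-- **The area estimate.** -/
theorem area_bound (hR : 2 ≤ R) : ∃ C : ℝ, 0 < C ∧ ∃ n₀ : ℕ, ∀ n : ℕ, n₀ ≤ n → ∀ l : ℂ,
    Rng R ‖l‖ → volume {t : ℂ | ¬ Good n l t} ≤ ENNReal.ofReal (C * (n : ℝ) ^ (-(1 / 10) : ℝ)) := by
  have hR0 : 0 < R := by linarith
  have hR2 : 1 ≤ R ^ 2 := one_le_pow₀ (by linarith)
  set cΛ : ℝ := 4 * R ^ 2 * (1 + 2 * R ^ 2) with hcΛ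
  set cG : ℝ := 4 * R * (1 + 2 * R ^ 2) with hcG
  set cK : ℝ := 2 / Real.log (1 + 1 / R) + 2 with hcK
  set κ : ℝ := cK * cΛ ^ 2 with hκ
  have hRi : 0 < 1 / R := by positivity
  have hlog : 0 < Real.log (1 + 1 / R) := Real.log_pos (by linarith)
  have hcΛ1 : 1 ≤ cΛ := by rw [hcΛ]; nlinarith
  have hcG1 : 1 ≤ cG := by rw [hcG]; nlinarith
  have hcK1 : 1 ≤ cK := by
    have : 0 < 2 / Real.log (1 + 1 / R) := by positivity
    linarith
  have hκ1 : 1 ≤ κ := one_le_mul_of_one_le_of_one_le hcK1 (one_le_pow₀ hcΛ1)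
  have hCC : 0 < CC R cK cG := by
    unfold CC
    have hπ := Real.pi_pos
    have : 0 < 16 * π * R ^ 2 := by positivity
    have : 0 ≤ cK ^ 2 * (128 * π * ((2 * R ^ 3) ^ 2 * R ^ 2 * cG ^ 2) +
      (2 * R ^ 3) ^ 2 * (96 * π * √(24 * (2 * R ^ 3) ^ 4 * R * cG)) +
        256 * π * (2 * R ^ 3) ^ 2) := by positivity
    linarith
  refine ⟨CC R cK cG, hCC, ?_⟩
  -- the conditions on `y`
  have hev : ∀ᶠ y : ℝ in atTop, Big R κ y (60 * Real.log y) ∧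
      2 * (2 * R ^ 3) ^ 2 * R * cG ≤ y ∧ 4 * cΛ ≤ y ∧ 32 * R * (2 * R ^ 3) ^ 2 ≤ y ∧
      Real.log (4 * (1 + 2 * R ^ 2)) ≤ 108 * Real.log y := by
    have l1 : ∀ᶠ y : ℝ in atTop, 2 * R ≤ 60 * Real.log y := by
      filter_upwards [Real.tendsto_log_atTop.eventually_ge_atTop (2 * R)] with y hy
      linarith
    have l2 : ∀ᶠ y : ℝ in atTop, (60 * Real.log y) ^ 3 ≤ y := by
      have h1 := (Real.isLittleO_pow_log_id_atTop (n := 3)).bound
        (show (0 : ℝ) < 1 / 60 ^ 3 by norm_num)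
      filter_upwards [h1, eventually_ge_atTop 1] with y hy hy1
      rw [Real.norm_eq_abs, Real.norm_eq_abs, id, abs_of_nonneg (pow_nonneg (Real.log_nonneg hy1) 3),
        abs_of_nonneg (by linarith)] at hy
      calc (60 * Real.log y) ^ 3 = 60 ^ 3 * Real.log y ^ 3 := mul_pow _ _ _
        _ ≤ 60 ^ 3 * (1 / 60 ^ 3 * y) := mul_le_mul_of_nonneg_left hy (by norm_num)
        _ = y := by ring
    have l3 : ∀ᶠ y : ℝ in atTop, Real.log (4 * (1 + 2 * R ^ 2)) ≤ 108 * Real.log y := by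
      filter_upwards [Real.tendsto_log_atTop.eventually_ge_atTop
        |Real.log (4 * (1 + 2 * R ^ 2))|] with y hy
      have := le_abs_self (Real.log (4 * (1 + 2 * R ^ 2)))
      have := abs_nonneg (Real.log (4 * (1 + 2 * R ^ 2)))
      linarith
    filter_upwards [l1, l2, l3, eventually_ge_atTop 1, eventually_ge_atTop 16,
      eventually_ge_atTop (R + 4), eventually_ge_atTop (18 * R * κ), eventually_ge_atTop (4 * κ),
      eventually_ge_atTop (4 * R), eventually_ge_atTop (2 * (2 * R ^ 3) ^ 2 * R * cG),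
      eventually_ge_atTop (4 * cΛ), eventually_ge_atTop (32 * R * (2 * R ^ 3) ^ 2)]
      with y a1 a2 a3 a4 a5 a6 a7 a8 a9 a10 a11 a12
    exact ⟨⟨hR, hκ1, a4, rfl, a1, a2, a5, a6, a7, a8, a9⟩, a10, a11, a12, a3⟩
  have hyn : Tendsto (fun n : ℕ => (n : ℝ) ^ (1 / 60 : ℝ)) atTop atTop :=
    (tendsto_rpow_atTop (by norm_num)).comp tendsto_natCast_atTop_atTop
  obtain ⟨n₀, hn₀⟩ := eventually_atTop.1 (hyn.eventually hev)
  refine ⟨n₀, fun n hn l H => ?_⟩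
  obtain ⟨B, b1, b2, b3, b4⟩ := hn₀ n hn
  set y : ℝ := (n : ℝ) ^ (1 / 60 : ℝ) with hy
  set L : ℝ := 60 * Real.log y with hL
  set z : ℝ := y⁻¹ with hz
  have hny : (n : ℝ) = y ^ 60 := by
    rw [hy, ← Real.rpow_natCast, ← Real.rpow_mul (Nat.cast_nonneg n)]
    norm_num
  have hz6 : z ^ 6 = (n : ℝ) ^ (-(1 / 10) : ℝ) := by
    rw [hz, hy, ← Real.rpow_neg (Nat.cast_nonneg n), ← Real.rpow_natCast,
      ← Real.rpow_mul (Nat.cast_nonneg n)]
    norm_num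
  have hy1 := B.hy
  have hy0 : 0 < y := by linarith
  have hX1 : 1 ≤ 4 * (1 + 2 * R ^ 2) * y ^ 6 :=
    one_le_mul_of_one_le_of_one_le (by linarith) (one_le_pow₀ hy1)
  have hX12 : 4 * (1 + 2 * R ^ 2) * y ^ 6 ≤ 4 * (1 + 2 * R ^ 2) * y ^ 12 := by
    apply mul_le_mul_of_nonneg_left _ (by positivity)
    exact pow_le_pow_right₀ hy1 (by norm_num)
  obtain ⟨K, k1, k2, k3, k4, k5⟩ := choose_K H hX1 hX12
  have hX0 : 0 < 4 * (1 + 2 * R ^ 2) * y ^ 12 := by positivity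
  have hlogX : Real.log (4 * (1 + 2 * R ^ 2) * y ^ 12) ≤ 2 * L := by
    rw [Real.log_mul (by positivity) (by positivity), Real.log_pow, hL]
    push_cast
    linarith
  have hK4 := K_bound hR0 k5 hlogX le_rfl (by linarith [B.hL1])
  rw [← hcK] at hK4
  have N := num_ok (K := K) (l := l) B hz hny H hcΛ hcK1 hκ k1 k2
    (fun j hj => (k3 j hj).trans (le_of_eq (by rw [hcΛ]; ring))) hK4
  have N2 := num2_ok (K := K) (l := l) B hz hny hcΛ1 hcG1 b1 b2 b3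
    (fun k hk => (k4 k hk).trans (le_of_eq (by rw [hcG]; ring)))
  refine (vol_bad H N N2).trans (ENNReal.ofReal_le_ofReal ?_)
  rw [← hz6]
  exact final_bound B hz hny hcK1 hcG1 hK4

end Pool.Agent.H214.Tri
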