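import Pool.Agent.H214.Tri.Fin
import Pool.Agent.H214.Tri.AE

/-!
# Averages over the multiplier
-/

set_option autoImplicit false

open MeasureTheory Set Filter Topology Metric
open scoped ENNReal NNReal Real

namespace Pool.Agent.H214.Tri

theorem eventually_big (R : ℝ) : ∀ᶠ n : ℕ in atTop, 2 ≤ n ∧ R ≤ n ∧ R + 2 ≤ (2 : ℝ) ^ (n - 2) := by
  have h1 : ∀ᶠ n : ℕ in atTop, R + 4 ≤ (n : ℝ) :=
    tendsto_natCast_atTop_atTop.eventually_ge_atTop (R + 4)
  filter_upwards [h1, eventually_ge_atTop 2] with n h2 h3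
  refine ⟨h3, by linarith, ?_⟩
  have e1 : R + 2 ≤ ((n - 2 : ℕ) : ℝ) := by
    rw [Nat.cast_sub h3]; push_cast; linarith
  have e2 : ((n - 2 : ℕ) : ℝ) < 2 ^ (n - 2) := by exact_mod_cast Nat.lt_two_pow_self
  linarith

/-- For bounded multipliers, the bad parameters are in a disc. -/
theorem bad_subset {R : ℝ} {n : ℕ} (h : 2 ≤ n ∧ R ≤ n ∧ R + 2 ≤ (2 : ℝ) ^ (n - 2)) {l : ℂ}
    (hl : ‖l‖ ≤ R) : {t : ℂ | ¬ Good n l t} ⊆ closedBall 0 (R + 2) := by
  intro t ht
  rw [mem_closedBall, dist_zero_right]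
  by_contra hc
  push Not at hc
  exact ht fun c hc' => Or.inl (good_large h.1 hl h.2.1 h.2.2 hc hc')

theorem tendsto_avg (R : ℝ) : Tendsto (fun n : ℕ => ∫⁻ l in ball (0 : ℂ) R,
    volume {t : ℂ | ¬ Good n l t}) atTop (𝓝 0) := by
  rw [ENNReal.tendsto_nhds_zero]
  intro ε hε
  have hε2 : 0 < ε / 2 := ENNReal.half_pos hε.ne'
  set R1 : ℝ := max R 2 with hR1
  have hR1' : 2 ≤ R1 := le_max_right _ _
  have hπ := Real.pi_pos
  have hpi : (NNReal.pi : ENNReal) = ENNReal.ofReal π := by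
    rw [ENNReal.ofReal, Real.toNNReal_of_nonneg Real.pi_pos.le]; rfl
  have hV : volume (closedBall (0 : ℂ) (R1 + 2)) = ENNReal.ofReal (π * (R1 + 2) ^ 2) := by
    rw [Complex.volume_closedBall, hpi, ← ENNReal.ofReal_pow (by linarith),
      ← ENNReal.ofReal_mul (by positivity), mul_comm]
  -- choose `R'`
  have hlim : Tendsto (fun r : ℝ => ENNReal.ofReal (π * (R1 + 2) ^ 2 * (5 * π / r))) atTop (𝓝 0) := by
    rw [← ENNReal.ofReal_zero]
    apply ENNReal.tendsto_ofReal
    have : Tendsto (fun r : ℝ => π * (R1 + 2) ^ 2 * (5 * π / r)) atTop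
        (𝓝 (π * (R1 + 2) ^ 2 * 0)) := by
      apply Tendsto.const_mul
      exact tendsto_const_nhds.div_atTop tendsto_id
    rwa [mul_zero] at this
  obtain ⟨R', hR'1, hR'2⟩ := ((hlim.eventually_le_const hε2).and (eventually_ge_atTop R1)).exists
  have hR'3 : 2 ≤ R' := hR1'.trans hR'2
  have hR'0 : 0 < R' := by linarith
  set W : Set ℂ := closedBall 0 (1 / R') ∪ {v : ℂ | |‖v‖ - 1| ≤ 1 / R'} with hW
  have hinv : 1 / R' ≤ 1 := by rw [div_le_one hR'0]; linarith
  have hinv0 : 0 < 1 / R' := by positivity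
  have hWm : MeasurableSet W := by
    apply measurableSet_closedBall.union
    exact measurableSet_le (by fun_prop) (by fun_prop)
  have hWvol : volume W ≤ ENNReal.ofReal (5 * π / R') := by
    refine (measure_union_le _ _).trans ?_
    have h1 : volume (closedBall (0 : ℂ) (1 / R')) ≤ ENNReal.ofReal (π * (1 / R')) := by
      rw [Complex.volume_closedBall, hpi, ← ENNReal.ofReal_pow hinv0.le,
        ← ENNReal.ofReal_mul (by positivity), mul_comm]
      apply ENNReal.ofReal_le_ofReal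
      apply mul_le_mul_of_nonneg_left _ hπ.le
      nlinarith
    have h2 := annulus_area hinv0.le hinv
    refine (add_le_add h1 h2).trans ?_
    rw [← ENNReal.ofReal_add (by positivity) (by positivity)]
    apply ENNReal.ofReal_le_ofReal
    apply le_of_eq
    ring
  obtain ⟨C, hC, n₀, hn₀⟩ := area_bound hR'3
  have hlim2 : Tendsto (fun n : ℕ => ENNReal.ofReal (C * (n : ℝ) ^ (-(1 / 10) : ℝ)) *
      volume (ball (0 : ℂ) R)) atTop (𝓝 0) := by
    have h1 : Tendsto (fun n : ℕ => ENNReal.ofReal (C * (n : ℝ) ^ (-(1 / 10) : ℝ))) atTop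
        (𝓝 0) := by
      rw [← ENNReal.ofReal_zero]
      apply ENNReal.tendsto_ofReal
      have : Tendsto (fun n : ℕ => C * (n : ℝ) ^ (-(1 / 10) : ℝ)) atTop (𝓝 (C * 0)) := by
        apply Tendsto.const_mul
        exact (tendsto_rpow_neg_atTop (by norm_num)).comp tendsto_natCast_atTop_atTop
      rwa [mul_zero] at this
    have h2 := ENNReal.Tendsto.mul_const (b := volume (ball (0 : ℂ) R)) h1
      (Or.inr measure_ball_lt_top.ne)
    rwa [zero_mul] at h2
  filter_upwards [eventually_big R1, eventually_ge_atTop n₀, hlim2.eventually_le_const hε2]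
    with n h1 h2 h3
  have hpt : ∀ l ∈ ball (0 : ℂ) R, volume {t : ℂ | ¬ Good n l t} ≤
      W.indicator (fun _ => volume (closedBall (0 : ℂ) (R1 + 2))) l +
        ENNReal.ofReal (C * (n : ℝ) ^ (-(1 / 10) : ℝ)) := by
    intro l hl
    rw [mem_ball, dist_zero_right] at hl
    have hlR1 : ‖l‖ ≤ R1 := hl.le.trans (le_max_left _ _)
    by_cases hlW : l ∈ W
    · rw [indicator_of_mem hlW]
      exact (measure_mono (bad_subset h1 hlR1)).trans le_self_add
    · rw [indicator_of_notMem hlW, zero_add]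
      rw [hW, mem_union, not_or, mem_closedBall, dist_zero_right, mem_ofPred_eq, not_le,
        not_le] at hlW
      exact hn₀ n h2 l ⟨hR'3, hlW.1.le, hlR1.trans hR'2, hlW.2.le⟩
  calc ∫⁻ l in ball (0 : ℂ) R, volume {t : ℂ | ¬ Good n l t}
      ≤ ∫⁻ l in ball (0 : ℂ) R, (W.indicator (fun _ => volume (closedBall (0 : ℂ) (R1 + 2))) l +
        ENNReal.ofReal (C * (n : ℝ) ^ (-(1 / 10) : ℝ))) :=
        setLIntegral_mono' measurableSet_ball hpt
    _ = (∫⁻ l in ball (0 : ℂ) R, W.indicator (fun _ => volume (closedBall (0 : ℂ) (R1 + 2))) l) +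
        ENNReal.ofReal (C * (n : ℝ) ^ (-(1 / 10) : ℝ)) * volume (ball (0 : ℂ) R) := by
        rw [lintegral_add_left (measurable_const.indicator hWm), setLIntegral_const]
    _ ≤ volume (closedBall (0 : ℂ) (R1 + 2)) * volume W + ε / 2 := by
        apply add_le_add _ h3
        refine (setLIntegral_le_lintegral _ _).trans ?_
        rw [lintegral_indicator hWm, setLIntegral_const]
    _ ≤ ε / 2 + ε / 2 := by
        apply add_le_add _ le_rfl
        rw [hV]
        refine (mul_le_mul_right hWvol _).trans ?_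
        rw [← ENNReal.ofReal_mul (by positivity)]
        exact hR'1
    _ = ε := ENNReal.add_halves ε

/-- a good parameter nearby -/
theorem exists_near {S : Set ℂ} {A ρ : ℝ} (hA : volume Sᶜ ≤ ENNReal.ofReal A) (hρ : 0 < ρ)
    (h : A ≤ ρ ^ 2) (t : ℂ) : ∃ t', ‖t' - t‖ ≤ ρ ∧ t' ∈ S := by
  by_contra hcon
  push Not at hcon
  have hsub : closedBall t ρ ⊆ Sᶜ := by
    intro t' ht'
    rw [mem_closedBall, dist_eq_norm] at ht'
    exact hcon t' ht'
  have h1 := (measure_mono hsub).trans hA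
  have hpi : (NNReal.pi : ENNReal) = ENNReal.ofReal π := by
    rw [ENNReal.ofReal, Real.toNNReal_of_nonneg Real.pi_pos.le]; rfl
  rw [Complex.volume_closedBall, hpi, ← ENNReal.ofReal_pow hρ.le,
    ← ENNReal.ofReal_mul (by positivity)] at h1
  have hπ := Real.pi_gt_three
  have h2 : 0 < ρ ^ 2 * π := by positivity
  have h3 : ρ ^ 2 * π ≤ A := by
    by_contra hc
    push Not at hc
    have := (ENNReal.ofReal_lt_ofReal_iff h2).2 hc
    exact absurd h1 (not_le.2 this)
  nlinarith [pow_pos hρ 2]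

end Pool.Agent.H214.Tri
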