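import Pool.Agent.H214.Tri.Sum

/-!
# The choice of the parameters
-/

set_option autoImplicit false

open MeasureTheory Set Filter Topology Metric Polynomial
open scoped ENNReal NNReal Real

namespace Pool.Agent.H214.Tri

/-- the number of steps -/
theorem choose_K {R ℓ X1 X2 : ℝ} (H : Rng R ℓ) (h1 : 1 ≤ X1) (h2 : X1 ≤ X2) :
    ∃ K : ℕ, (1 < ℓ → X2 < ℓ ^ K) ∧ (ℓ < 1 → X1 * ℓ ^ K < 1) ∧
      (∀ j, j ≤ K + 1 → ℓ ^ j ≤ R ^ 2 * X2) ∧ (∀ k, k ≤ K → 1 ≤ R * X1 * ℓ ^ k) ∧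
      (1 + 1 / R) ^ (K - 1) ≤ X2 := by
  have hR := H.hR
  have hR0 : 0 < R := by linarith
  have hl0 : 0 < ℓ := lt_of_lt_of_le (by positivity) H.lo
  have hne := H.ne
  have hX2 : 1 ≤ X2 := h1.trans h2
  have hRi : 0 < 1 / R := by positivity
  rcases lt_or_ge 1 ℓ with hl | hl
  · obtain ⟨k, hk1, hk2⟩ := exists_nat_pow_near hX2 hl
    rw [abs_of_pos (by linarith)] at hne
    refine ⟨k + 1, fun _ => hk2, fun h => absurd h (by linarith), ?_, ?_, ?_⟩
    · intro j hj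
      calc ℓ ^ j ≤ ℓ ^ (k + 2) := pow_le_pow_right₀ hl.le hj
        _ = ℓ ^ 2 * ℓ ^ k := by rw [← pow_add]; congr 1; ring
        _ ≤ R ^ 2 * X2 := mul_le_mul (pow_le_pow_left₀ hl0.le H.hi 2) hk1 (by positivity)
            (by positivity)
    · intro j _
      have h3 : 1 ≤ ℓ ^ j := one_le_pow₀ hl.le
      have h4 : 1 ≤ R * X1 := one_le_mul_of_one_le_of_one_le (by linarith) h1
      exact one_le_mul_of_one_le_of_one_le h4 h3
    · rw [Nat.add_sub_cancel]
      exact (pow_le_pow_left₀ (by positivity) (by linarith) k).trans hk1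
  · have hl1 : ℓ < 1 := by
      rcases lt_or_eq_of_le hl with h | h
      · exact h
      · rw [h, sub_self, abs_zero] at hne; linarith
    rw [abs_of_neg (by linarith)] at hne
    have hinv : 1 < 1 / ℓ := by rw [lt_div_iff₀ hl0]; linarith
    obtain ⟨k, hk1, hk2⟩ := exists_nat_pow_near h1 hinv
    rw [one_div, inv_pow] at hk1 hk2
    have hk1' : 1 ≤ X1 * ℓ ^ k := by
      have := mul_le_mul_of_nonneg_right hk1 (pow_nonneg hl0.le k)
      rwa [inv_mul_cancel₀ (pow_pos hl0 k).ne'] at this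
    have hk2' : X1 * ℓ ^ (k + 1) < 1 := by
      have := mul_lt_mul_of_pos_right hk2 (pow_pos hl0 (k + 1))
      rwa [inv_mul_cancel₀ (pow_pos hl0 (k + 1)).ne'] at this
    refine ⟨k + 1, fun h => absurd h (by linarith), fun _ => hk2', ?_, ?_, ?_⟩
    · intro j _
      have h3 : ℓ ^ j ≤ 1 := pow_le_one₀ hl0.le hl
      have h4 : 1 ≤ R ^ 2 := one_le_pow₀ (by linarith)
      exact h3.trans (one_le_mul_of_one_le_of_one_le h4 hX2)
    · intro j hj
      have h3 : ℓ ^ (k + 1) ≤ ℓ ^ j := pow_le_pow_of_le_one hl0.le hl hj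
      have h4 : 1 ≤ R * ℓ := by
        have := mul_le_mul_of_nonneg_left H.lo hR0.le
        rwa [mul_one_div_cancel hR0.ne'] at this
      calc (1 : ℝ) ≤ (R * ℓ) * (X1 * ℓ ^ k) := one_le_mul_of_one_le_of_one_le h4 hk1'
        _ = R * X1 * ℓ ^ (k + 1) := by ring
        _ ≤ R * X1 * ℓ ^ j := mul_le_mul_of_nonneg_left h3 (by positivity)
    · rw [Nat.add_sub_cancel]
      have h3 : 1 + 1 / R ≤ ℓ⁻¹ := by
        rw [← one_div, le_div_iff₀ hl0]
        nlinarith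
      calc (1 + 1 / R) ^ k ≤ (ℓ⁻¹) ^ k := pow_le_pow_left₀ (by positivity) h3 k
        _ = (ℓ ^ k)⁻¹ := inv_pow _ _
        _ ≤ X1 := hk1
        _ ≤ X2 := h2

/-- the bound on the number of steps -/
theorem K_bound {R X L c : ℝ} (hR : 0 < R) {K : ℕ} (hK : (1 + 1 / R) ^ (K - 1) ≤ X)
    (hL : Real.log X ≤ 2 * L) (hc : 2 / Real.log (1 + 1 / R) + 2 ≤ c) (hL1 : 1 ≤ L) :
    (K : ℝ) + 1 ≤ c * L := by
  have hRi : 0 < 1 / R := by positivity
  have hlog : 0 < Real.log (1 + 1 / R) := Real.log_pos (by linarith)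
  have h1 : ((K - 1 : ℕ) : ℝ) * Real.log (1 + 1 / R) ≤ 2 * L := by
    rw [← Real.log_pow]
    exact (Real.log_le_log (by positivity) hK).trans hL
  have h2 : ((K - 1 : ℕ) : ℝ) ≤ 2 * L / Real.log (1 + 1 / R) := by
    rwa [le_div_iff₀ hlog]
  have h3 : (K : ℝ) ≤ ((K - 1 : ℕ) : ℝ) + 1 := by
    exact_mod_cast (by omega : K ≤ K - 1 + 1)
  have h4 : 2 * L / Real.log (1 + 1 / R) = 2 / Real.log (1 + 1 / R) * L := by ring
  nlinarith

/-- the conditions on `y = n ^ (1 / 60)` -/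
structure Big (R κ y L : ℝ) : Prop where
  hR : 2 ≤ R
  hκ : 1 ≤ κ
  hy : 1 ≤ y
  hL : L = 60 * Real.log y
  hL1 : 2 * R ≤ L
  hL3 : L ^ 3 ≤ y
  /-- all the constants are small with respect to `y` -/
  h16 : 16 ≤ y
  hR4 : R + 4 ≤ y
  hRκ : 18 * R * κ ≤ y
  hκ4 : 4 * κ ≤ y
  hR4' : 4 * R ≤ y

theorem yz_pow {y z : ℝ} (h : y * z = 1) (a b : ℕ) : y ^ a * z ^ (a + b) = z ^ b := by
  rw [pow_add, ← mul_assoc, ← mul_pow, h, one_pow, one_mul]

section
variable {R κ y L z : ℝ}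

theorem zfacts (B : Big R κ y L) (hz : z = y⁻¹) : y * z = 1 ∧ 0 < z ∧ z ≤ 1 ∧ 1 ≤ L ∧ L * z ≤ 1 ∧
    L ^ 3 * z ≤ 1 ∧ z = Real.exp (-Real.log y) := by
  have hy0 : 0 < y := by linarith [B.hy]
  have h1 : y * z = 1 := by rw [hz]; exact mul_inv_cancel₀ hy0.ne'
  have h2 : 0 < z := by rw [hz]; positivity
  have h3 : z ≤ 1 := by rw [hz]; exact inv_le_one_of_one_le₀ B.hy
  have h4 : 1 ≤ L := by linarith [B.hL1, B.hR]
  have h5 : L ^ 3 * z ≤ 1 := by
    rw [← h1]; exact mul_le_mul_of_nonneg_right B.hL3 h2.le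
  have h6 : L ≤ L ^ 3 := by
    calc L = L ^ 1 := (pow_one _).symm
      _ ≤ L ^ 3 := pow_le_pow_right₀ h4 (by norm_num)
  refine ⟨h1, h2, h3, h4, ?_, h5, ?_⟩
  · exact (mul_le_mul_of_nonneg_right h6 h2.le).trans h5
  · rw [hz, Real.exp_neg, Real.exp_log hy0]

/-- powers of numbers slightly below one -/
theorem pow_exp (B : Big R κ y L) (hz : z = y⁻¹) {n : ℕ} (hn : (n : ℝ) = y ^ 60) {x : ℝ}
    (hx : x ≤ 1) {c q : ℝ} (hcx : c * L * z ^ 60 ≤ x) {N a : ℕ} (hN : n ≤ q * N)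
    (hca : 60 * c = q * a) (hc : 0 ≤ c) (hq : 0 < q) :
    (1 - x) ^ N ≤ z ^ a := by
  obtain ⟨h1, h2, h3, h4, h5, h6, h7⟩ := zfacts B hz
  have e1 : (1 - x) ^ N ≤ Real.exp (-x) ^ N :=
    pow_le_pow_left₀ (by linarith) (Real.one_sub_le_exp_neg x) N
  refine e1.trans ?_
  rw [← Real.exp_nat_mul, h7, ← Real.exp_nat_mul]
  apply Real.exp_le_exp.2
  have e2 : c * L = (n : ℝ) * (c * L * z ^ 60) := by
    rw [hn]
    have := yz_pow h1 60 0
    rw [add_zero, pow_zero] at this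
    linear_combination (-c * L) * this
  have e3 : 0 ≤ c * L * z ^ 60 := by positivity
  have e4 : c * L ≤ q * N * x := by
    rw [e2]
    exact mul_le_mul hN hcx e3 (by positivity)
  have e5 : c * L = q * a * Real.log y := by
    rw [B.hL]; linear_combination Real.log y * hca
  have e6 : q * (a * Real.log y) ≤ q * (N * x) := by linarith
  have e7 := le_of_mul_le_mul_left e6 hq
  linarith

variable {n K : ℕ} {l : ℂ}

theorem num_ok (B : Big R κ y L) (hz : z = y⁻¹) (hn : (n : ℝ) = y ^ 60) (H : Rng R ‖l‖)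
    {cΛ cK : ℝ} (hcΛ : cΛ = 4 * R ^ 2 * (1 + 2 * R ^ 2)) (hcK : 1 ≤ cK) (hκ : κ = cK * cΛ ^ 2)
    (hK1 : 1 < ‖l‖ → 4 * (1 + 2 * R ^ 2) * y ^ 12 < ‖l‖ ^ K)
    (hK2 : ‖l‖ < 1 → 4 * (1 + 2 * R ^ 2) * y ^ 6 * ‖l‖ ^ K < 1)
    (hK3 : ∀ j, j ≤ K + 1 → ‖l‖ ^ j ≤ cΛ * y ^ 12) (hK4 : (K : ℝ) + 1 ≤ cK * L) :
    Num n K ‖l‖ (z ^ 6) (z ^ 12) (4 * L * z ^ 60) (z ^ 240) (4 * R) (cΛ * y ^ 12)
      (cK * cΛ * L * z ^ 228) (9 * R * (cK * cΛ * L * z ^ 168)) (2 * R ^ 2) := by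
  obtain ⟨h1, h2, h3, h4, h5, h6, h7⟩ := zfacts B hz
  have hR := B.hR
  have hR0 : 0 < R := by linarith
  have hy1 := B.hy
  have hy0 : 0 < y := by linarith
  have hcΛ1 : 1 ≤ cΛ := by rw [hcΛ]; nlinarith [pow_pos hR0 2]
  have hL0 : 0 < L := by linarith
  have hμ : cK * cΛ ≤ κ := by
    rw [hκ]; nlinarith [mul_nonneg (by linarith : (0 : ℝ) ≤ cK) (by linarith : (0 : ℝ) ≤ cΛ)]
  have hμ0 : 0 < cK * cΛ := by positivity
  have hzp : ∀ {a b : ℕ}, b ≤ a → z ^ a ≤ z ^ b := fun h => pow_le_pow_of_le_one h2.le h3 h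
  have cz : ∀ {c : ℝ}, c ≤ y → c * z ≤ 1 := by
    intro c hc
    rw [← h1]; exact mul_le_mul_of_nonneg_right hc h2.le
  have hn1 : (1 : ℝ) ≤ n := by rw [hn]; exact one_le_pow₀ hy1
  have hny : y ≤ n := by
    rw [hn]
    calc y = y ^ 1 := (pow_one y).symm
      _ ≤ y ^ 60 := pow_le_pow_right₀ hy1 (by norm_num)
  have hn2 : 2 ≤ n := by
    have : (2 : ℝ) ≤ n := by linarith [B.h16]
    exact_mod_cast this
  have hnN : (n : ℝ) ≤ 2 * ((n - 1 : ℕ) : ℝ) := by
    exact_mod_cast (by omega : n ≤ 2 * (n - 1))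
  have h16z := cz B.h16
  have he4 : 4 * (4 * L * z ^ 60) ≤ z ^ 6 := by
    calc 4 * (4 * L * z ^ 60) = (L * z) * (16 * z) * z ^ 58 := by ring
      _ ≤ 1 * 1 * z ^ 58 := by gcongr
      _ = z ^ 58 := by ring
      _ ≤ z ^ 6 := hzp (by norm_num)
  have he4' : 4 * L * z ^ 60 ≤ 1 / 4 := by
    have : z ^ 6 ≤ 1 := pow_le_one₀ h2.le h3
    linarith
  have he0 : 0 < 4 * L * z ^ 60 := by positivity
  have hηR : R * z ^ 240 ≤ z ^ 12 / 4 := by
    calc R * z ^ 240 = (4 * R * z) * z ^ 239 / 4 := by ring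
      _ ≤ 1 * z ^ 239 / 4 := by gcongr; exact cz B.hR4'
      _ ≤ z ^ 12 / 4 := by
          have p1 : z ^ 239 ≤ z ^ 12 := hzp (by norm_num)
          linarith
  have hRne : ∀ {x : ℝ}, 1 / R ≤ x → ∀ {η : ℝ}, 0 ≤ η → η / x ≤ R * η := by
    intro x hx η hη
    have hx0 : 0 < x := lt_of_lt_of_le (by positivity) hx
    rw [div_le_iff₀ hx0]
    have := mul_le_mul_of_nonneg_left hx hR0.le
    rw [mul_one_div_cancel hR0.ne'] at this
    nlinarith
  have hEn : n * (cK * cΛ * L * z ^ 228) = cK * cΛ * L * z ^ 168 := by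
    rw [hn]
    have := yz_pow h1 60 168
    norm_num at this
    linear_combination (cK * cΛ * L) * this
  have hκ0 : 0 < κ := by linarith [B.hκ]
  have hE168 : cK * cΛ * L * z ^ 168 ≤ κ * z ^ 167 := by
    calc cK * cΛ * L * z ^ 168 = cK * cΛ * (L * z) * z ^ 167 := by ring
      _ ≤ κ * 1 * z ^ 167 := by gcongr
      _ = κ * z ^ 167 := by ring
  have hη240 : z ^ 240 * y ^ 12 = z ^ 228 := by
    have := yz_pow h1 12 228
    norm_num at this
    linarith
  refine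
    { hn := hn2
      he0 := he0
      he1 := he4'
      hs0 := by positivity
      hs1 := pow_le_one₀ h2.le h3
      hη0 := by positivity
      inner := ?_
      outer := ?_
      hM := by positivity
      hΛ := hK3
      hE := ?_
      hE2 := ?_
      hEe := ?_
      hD := ?_
      hDr := ?_
      hDe := ?_
      gt := ?_
      lt := ?_
      trap := ?_ }
  · exact pow_exp B hz hn (by linarith) (c := 4) (q := 1) le_rfl (by linarith) (by norm_num)
      (by norm_num) (by norm_num)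
  · have e1 := one_add_mul_le_pow (a := 4 * L * z ^ 60) (by linarith) (n - 1)
    refine le_trans ?_ e1
    have e2 : (n : ℝ) * (4 * L * z ^ 60) = 4 * L := by
      rw [hn]
      have := yz_pow h1 60 0
      rw [add_zero, pow_zero] at this
      linear_combination (4 * L) * this
    have e3 := mul_le_mul_of_nonneg_right hnN he0.le
    have := B.hL1
    nlinarith
  · calc z ^ 240 * ((K + 1) * (cΛ * y ^ 12)) ≤ z ^ 240 * ((cK * L) * (cΛ * y ^ 12)) := by gcongr
      _ = cK * cΛ * L * (z ^ 240 * y ^ 12) := by ring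
      _ = cK * cΛ * L * z ^ 228 := by rw [hη240]
  · have e1 : 0 ≤ 2 * (cK * cΛ * L * z ^ 228) := by positivity
    calc (1 + 2 * (cK * cΛ * L * z ^ 228)) ^ (n - 1)
        ≤ (1 + 2 * (cK * cΛ * L * z ^ 228)) ^ n := pow_le_pow_right₀ (by linarith) (by omega)
      _ ≤ Real.exp (2 * (cK * cΛ * L * z ^ 228)) ^ n := by
          apply pow_le_pow_left₀ (by linarith)
          have := Real.add_one_le_exp (2 * (cK * cΛ * L * z ^ 228))
          linarith
      _ = Real.exp (n * (2 * (cK * cΛ * L * z ^ 228))) := (Real.exp_nat_mul _ _).symm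
      _ ≤ Real.exp (1 / 2) := by
          apply Real.exp_le_exp.2
          have e2 : n * (2 * (cK * cΛ * L * z ^ 228)) = 2 * (cK * cΛ * L * z ^ 168) := by
            rw [← hEn]; ring
          rw [e2]
          have e3 : κ * z ^ 167 ≤ κ * z := by
            gcongr
            calc z ^ 167 ≤ z ^ 1 := hzp (by norm_num)
              _ = z := pow_one z
          have e4 := cz B.hκ4
          linarith
      _ ≤ 2 := by
          have := Real.exp_bound_div_one_sub_of_interval (x := 1 / 2) (by norm_num) (by norm_num)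
          norm_num at this ⊢
          exact this
  · calc cK * cΛ * L * z ^ 228 ≤ κ * L * z ^ 228 := by gcongr
      _ = (4 * κ * z) * (L * z ^ 60) * z ^ 167 / 4 := by ring
      _ ≤ 1 * (L * z ^ 60) * 1 / 4 := by
          gcongr
          · exact cz B.hκ4
          · exact pow_le_one₀ h2.le h3
      _ ≤ 4 * L * z ^ 60 := by
          have : 0 < L * z ^ 60 := by positivity
          linarith
  · have e1 : n * (2 * (4 * R)) * (cK * cΛ * L * z ^ 228) = 8 * R * (cK * cΛ * L * z ^ 168) := by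
      rw [← hEn]; ring
    rw [e1]
    have e2 : ‖l‖ * (cK * cΛ * L * z ^ 228) ≤ R * (cK * cΛ * L * z ^ 168) := by
      apply mul_le_mul H.hi _ (by positivity) (by positivity)
      apply mul_le_mul_of_nonneg_left (hzp (by norm_num)) (by positivity)
    linarith
  · calc 9 * R * (cK * cΛ * L * z ^ 168) ≤ 9 * R * (κ * z ^ 167) := by gcongr
      _ = (18 * R * κ * z) * z ^ 166 / 2 := by ring
      _ ≤ 1 * z ^ 12 / 2 := by
          have p1 : z ^ 166 ≤ z ^ 12 := hzp (by norm_num)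
          have p2 := mul_le_mul (cz B.hRκ) p1 (by positivity) zero_le_one
          linarith
      _ = z ^ 12 / 2 := by ring
  · have e1 : y ^ 12 * z ^ 168 = z ^ 156 := by
      have := yz_pow h1 12 156
      norm_num at this
      exact this
    have e2 : cΛ * y ^ 12 * (9 * R * (cK * cΛ * L * z ^ 168)) ≤ L * z ^ 60 := by
      calc cΛ * y ^ 12 * (9 * R * (cK * cΛ * L * z ^ 168)) =
          9 * R * (cK * cΛ ^ 2) * L * (y ^ 12 * z ^ 168) := by ring
        _ = 9 * R * κ * L * z ^ 156 := by rw [e1, hκ]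
        _ = (18 * R * κ * z) * (L * z ^ 60) * z ^ 95 / 2 := by ring
        _ ≤ 1 * (L * z ^ 60) * 1 / 2 := by
            gcongr
            · exact cz B.hRκ
            · exact pow_le_one₀ h2.le h3
        _ ≤ L * z ^ 60 := by
          have : 0 < L * z ^ 60 := by positivity
          linarith
    have e3 : z ^ 240 * (K * (cΛ * y ^ 12)) ≤ L * z ^ 60 := by
      calc z ^ 240 * (K * (cΛ * y ^ 12)) ≤ z ^ 240 * ((cK * L) * (cΛ * y ^ 12)) := by
            gcongr; linarith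
        _ = cK * cΛ * L * (z ^ 240 * y ^ 12) := by ring
        _ = cK * cΛ * L * z ^ 228 := by rw [hη240]
        _ ≤ κ * L * z ^ 228 := by gcongr
        _ = (4 * κ * z) * (L * z ^ 60) * z ^ 167 / 4 := by ring
        _ ≤ 1 * (L * z ^ 60) * 1 / 4 := by
            gcongr
            · exact cz B.hκ4
            · exact pow_le_one₀ h2.le h3
        _ ≤ L * z ^ 60 := by
            have : 0 < L * z ^ 60 := by positivity
            linarith
    linarith
  · intro hl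
    have hne := H.ne
    rw [abs_of_pos (by linarith)] at hne
    have e1 := (hRne hne (pow_nonneg h2.le 240)).trans hηR
    have e2 : z ^ 12 / 4 ≤ z ^ 12 / 2 - z ^ 240 / (‖l‖ - 1) := by linarith
    have e3 : y ^ 12 * z ^ 12 = 1 := by rw [← mul_pow, h1, one_pow]
    calc 1 + 2 * R ^ 2 = 4 * (1 + 2 * R ^ 2) * (y ^ 12 * z ^ 12) / 4 := by rw [e3]; ring
      _ = 4 * (1 + 2 * R ^ 2) * y ^ 12 * (z ^ 12 / 4) := by ring
      _ < ‖l‖ ^ K * (z ^ 12 / 4) := mul_lt_mul_of_pos_right (hK1 hl) (by positivity)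
      _ ≤ ‖l‖ ^ K * (z ^ 12 / 2 - z ^ 240 / (‖l‖ - 1)) :=
          mul_le_mul_of_nonneg_left e2 (by positivity)
  · intro hl
    have hne := H.ne
    rw [abs_of_neg (by linarith)] at hne
    have e1 := (hRne (x := 1 - ‖l‖) (by linarith) (pow_nonneg h2.le 240)).trans hηR
    have e2 : z ^ 12 / 4 ≤ z ^ 6 / 4 := by
      have p1 : z ^ 12 ≤ z ^ 6 := hzp (by norm_num)
      linarith
    have e3 : y ^ 6 * z ^ 6 = 1 := by rw [← mul_pow, h1, one_pow]
    have e4 : ‖l‖ ^ K * (1 + 2 * R ^ 2) ≤ z ^ 6 / 4 := by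
      calc ‖l‖ ^ K * (1 + 2 * R ^ 2) =
          (4 * (1 + 2 * R ^ 2) * y ^ 6 * ‖l‖ ^ K) * (z ^ 6 / 4) := by
            linear_combination (-‖l‖ ^ K * (1 + 2 * R ^ 2)) * e3
        _ ≤ 1 * (z ^ 6 / 4) := mul_le_mul_of_nonneg_right (hK2 hl).le (by positivity)
        _ = z ^ 6 / 4 := one_mul _
    linarith
  · intro hl
    have hne := H.ne
    rw [abs_of_neg (by linarith)] at hne
    have hz6 : z ^ 6 ≤ 1 := pow_le_one₀ h2.le h3
    have e1 : (1 - z ^ 6 / 2) ^ (n - 1) ≤ z ^ 240 :=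
      pow_exp B hz hn (by linarith) (c := 8) (q := 2) (by linarith) hnN (by norm_num)
        (by norm_num) (by norm_num)
    have e2 : (n : ℝ) * z ^ 240 = z ^ 180 := by
      rw [hn]
      have := yz_pow h1 60 180
      norm_num at this
      exact this
    calc n * (1 - z ^ 6 / 2) ^ (n - 1) ≤ n * z ^ 240 := by gcongr
      _ = z ^ 180 := e2
      _ = (4 * R * z) * z ^ 179 / (4 * R) := by field_simp
      _ ≤ 1 * z ^ 6 / (4 * R) := by
          have p1 : z ^ 179 ≤ z ^ 6 := hzp (by norm_num)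
          have p2 := mul_le_mul (cz B.hR4') p1 (by positivity) zero_le_one
          exact div_le_div_of_nonneg_right p2 (by positivity)
      _ = (1 / R) / 2 * (z ^ 6 / 2) := by field_simp; ring
      _ ≤ (1 - ‖l‖) / 2 * (z ^ 6 / 2) := by gcongr; linarith

end

end Pool.Agent.H214.Tri
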