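import Pool.Agent.H214.Tri.Dyn

/-!
# Bounds for the geometric sums
-/

set_option autoImplicit false

open Set Filter Topology Metric

namespace Pool.Agent.H214.Tri

/-- the size of the geometric sums -/
noncomputable def h (ℓ : ℝ) (j : ℕ) : ℝ := max 1 (ℓ ^ j)

theorem one_le_h (ℓ : ℝ) (j : ℕ) : 1 ≤ h ℓ j := le_max_left _ _

theorem h_pos (ℓ : ℝ) (j : ℕ) : 0 < h ℓ j := lt_of_lt_of_le one_pos (one_le_h ℓ j)

theorem pow_le_h (ℓ : ℝ) (j : ℕ) : ℓ ^ j ≤ h ℓ j := le_max_right _ _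

theorem h_of_ge {ℓ : ℝ} (hl : 1 ≤ ℓ) (j : ℕ) : h ℓ j = ℓ ^ j := max_eq_right (one_le_pow₀ hl)

theorem h_of_le {ℓ : ℝ} (hl0 : 0 ≤ ℓ) (hl : ℓ ≤ 1) (j : ℕ) : h ℓ j = 1 :=
  max_eq_left (pow_le_one₀ hl0 hl)

/-- the range of the multiplier -/
structure Rng (R ℓ : ℝ) : Prop where
  hR : 2 ≤ R
  lo : 1 / R ≤ ℓ
  hi : ℓ ≤ R
  ne : 1 / R ≤ |ℓ - 1|

theorem sg_mul (l : ℂ) (j : ℕ) : (l - 1) * sg l j = l ^ j - 1 := mul_geom_sum l j

theorem sg_upper {R : ℝ} {l : ℂ} (H : Rng R ‖l‖) (j : ℕ) : ‖sg l j‖ ≤ 2 * R ^ 3 * h ‖l‖ j := by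
  have hR := H.hR
  have hR0 : 0 < R := by linarith
  have h1 : ‖l - 1‖ * ‖sg l j‖ ≤ 2 * h ‖l‖ j := by
    rw [← norm_mul, sg_mul]
    refine (norm_sub_le _ _).trans ?_
    rw [norm_pow, norm_one]
    linarith [one_le_h ‖l‖ j, pow_le_h ‖l‖ j]
  have h2 : 1 / R ≤ ‖l - 1‖ := by
    refine H.ne.trans ?_
    have := abs_norm_sub_norm_le l 1
    rwa [norm_one] at this
  have h3 : 1 / R * ‖sg l j‖ ≤ 2 * h ‖l‖ j :=
    (mul_le_mul_of_nonneg_right h2 (norm_nonneg _)).trans h1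
  have h4 : ‖sg l j‖ ≤ 2 * R * h ‖l‖ j := by
    have : ‖sg l j‖ = R * (1 / R * ‖sg l j‖) := by field_simp
    rw [this]
    nlinarith
  refine h4.trans ?_
  apply mul_le_mul_of_nonneg_right _ (h_pos _ _).le
  nlinarith [pow_pos hR0 2]

theorem sg_lower {R : ℝ} {l : ℂ} (H : Rng R ‖l‖) {j : ℕ} (hj : 1 ≤ j) :
    h ‖l‖ j ≤ 2 * R ^ 3 * ‖sg l j‖ := by
  have hR := H.hR
  have hR0 : 0 < R := by linarith
  have h1 : ‖l - 1‖ ≤ 2 * R := by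
    refine (norm_sub_le _ _).trans ?_
    rw [norm_one]
    linarith [H.hi]
  have h2 : |‖l‖ ^ j - 1| ≤ 2 * R * ‖sg l j‖ := by
    have h3 : |‖l‖ ^ j - 1| ≤ ‖l ^ j - 1‖ := by
      have := abs_norm_sub_norm_le (l ^ j) 1
      rwa [norm_one, norm_pow] at this
    refine h3.trans ?_
    rw [← sg_mul, norm_mul]
    exact mul_le_mul_of_nonneg_right h1 (norm_nonneg _)
  have hne := H.ne
  have h0 := norm_nonneg l
  rcases le_total ‖l‖ 1 with hl | hl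
  · rw [h_of_le h0 hl]
    have h4 : ‖l‖ ^ j ≤ ‖l‖ := by
      calc ‖l‖ ^ j ≤ ‖l‖ ^ 1 := pow_le_pow_of_le_one h0 hl hj
        _ = ‖l‖ := pow_one _
    rw [abs_of_nonpos (by linarith)] at hne h2
    have h5 : 1 / R ≤ 2 * R * ‖sg l j‖ := by linarith
    have h6 : 1 ≤ 2 * R ^ 2 * ‖sg l j‖ := by
      have : (1 : ℝ) = R * (1 / R) := by field_simp
      rw [this]
      nlinarith
    have h7 : 2 * R ^ 2 * ‖sg l j‖ ≤ 2 * R ^ 3 * ‖sg l j‖ := by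
      apply mul_le_mul_of_nonneg_right _ (norm_nonneg _)
      nlinarith [pow_pos hR0 2]
    linarith
  · rw [h_of_ge hl]
    have h4 : 1 ≤ ‖l‖ ^ j := one_le_pow₀ hl
    rw [abs_of_nonneg (by linarith)] at hne h2
    -- `ℓ ^ j - 1 ≥ ℓ ^ j / R ^ 2`
    have h5 : ‖l‖ ^ j ≤ R ^ 2 * (‖l‖ ^ j - 1) := by
      obtain ⟨i, rfl⟩ : ∃ i, j = i + 1 := ⟨j - 1, by omega⟩
      have h6 : 1 ≤ ‖l‖ ^ i := one_le_pow₀ hl
      have h7 : ‖l‖ ^ (i + 1) - 1 ≥ ‖l‖ ^ i * (‖l‖ - 1) := by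
        rw [pow_succ]; nlinarith
      have h8 : ‖l‖ ^ i * (1 / R) ≤ ‖l‖ ^ i * (‖l‖ - 1) :=
        mul_le_mul_of_nonneg_left hne (by positivity)
      have h9 : R ^ 2 * (‖l‖ ^ i * (1 / R)) = R * ‖l‖ ^ i := by field_simp
      have h10 : R ^ 2 * (‖l‖ ^ i * (1 / R)) ≤ R ^ 2 * (‖l‖ ^ (i + 1) - 1) :=
        mul_le_mul_of_nonneg_left (h8.trans h7) (by positivity)
      rw [h9] at h10
      refine le_trans ?_ h10
      rw [pow_succ, mul_comm]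
      exact mul_le_mul_of_nonneg_right H.hi (by positivity)
    calc ‖l‖ ^ j ≤ R ^ 2 * (‖l‖ ^ j - 1) := h5
      _ ≤ R ^ 2 * (2 * R * ‖sg l j‖) := mul_le_mul_of_nonneg_left h2 (by positivity)
      _ = 2 * R ^ 3 * ‖sg l j‖ := by ring

theorem sg_add (l : ℂ) (i j : ℕ) : sg l (i + j) = sg l i + l ^ i * sg l j := by
  induction j with
  | zero => simp [sg_zero]
  | succ j ih =>
    have h1 : sg l (i + (j + 1)) = sg l (i + j) + l ^ (i + j) := by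
      unfold sg; rw [← add_assoc, Finset.sum_range_succ]
    have h2 : sg l (j + 1) = sg l j + l ^ j := by
      unfold sg; rw [Finset.sum_range_succ]
    rw [h1, h2, ih, pow_add]
    ring

/-- `u (m + k + 1)` in terms of `u m` -/
theorem u_shift {l : ℂ} {m : ℕ} (hs : sg l (m + 1) ≠ 0) (a t : ℂ) (k : ℕ) :
    u l a t (m + k + 1) = sg l (m + k + 2) / sg l (m + 1) * u l a t m -
      l ^ m * a * sg l (k + 1) / sg l (m + 1) := by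
  have h1 : sg l (m + k + 2) = sg l (k + 1) + l ^ (k + 1) * sg l (m + 1) := by
    rw [← sg_add]; congr 1; ring
  unfold u
  rw [show m + k + 1 + 1 = m + k + 2 by ring]
  have h2 : l ^ (m + k + 1) = l ^ m * l ^ (k + 1) := by rw [← pow_add]; congr 1
  rw [h2]
  field_simp
  rw [h1]
  ring

/-- first comparison -/
theorem h_cmp1 {R ℓ G : ℝ} (H : Rng R ℓ) (hG : 1 ≤ G) (m k : ℕ) (hk : 1 ≤ G * ℓ ^ k) :
    h ℓ (m + k + 2) ≤ R * G * (ℓ ^ k * h ℓ (m + 1)) := by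
  have hR := H.hR
  have hl0 : 0 < ℓ := lt_of_lt_of_le (by positivity) H.lo
  rcases le_total ℓ 1 with hl | hl
  · rw [h_of_le hl0.le hl, h_of_le hl0.le hl, mul_one, mul_assoc]
    nlinarith
  · rw [h_of_ge hl, h_of_ge hl]
    have h1 : ℓ ^ (m + k + 2) = ℓ * (ℓ ^ k * ℓ ^ (m + 1)) := by ring
    rw [h1]
    apply mul_le_mul_of_nonneg_right _ (by positivity)
    nlinarith [H.hi]

/-- second comparison -/
theorem h_cmp2 {R ℓ G : ℝ} (H : Rng R ℓ) (hG : 1 ≤ G) (m k : ℕ) (hm : 1 ≤ G * ℓ ^ m) :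
    h ℓ k * h ℓ (m + 1) ^ 2 ≤ R * G * (h ℓ (m + k + 2) * h ℓ (k + 1) * ℓ ^ (m + 1)) := by
  have hR := H.hR
  have hl0 : 0 < ℓ := lt_of_lt_of_le (by positivity) H.lo
  rcases le_total ℓ 1 with hl | hl
  · rw [h_of_le hl0.le hl, h_of_le hl0.le hl, h_of_le hl0.le hl, h_of_le hl0.le hl]
    have h1 : 1 ≤ R * ℓ := by
      have := mul_le_mul_of_nonneg_left H.lo (by linarith : 0 ≤ R)
      rwa [mul_one_div_cancel (by linarith)] at this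
    have h2 : R * G * (1 * 1 * ℓ ^ (m + 1)) = (R * ℓ) * (G * ℓ ^ m) := by ring
    rw [h2]
    nlinarith
  · rw [h_of_ge hl, h_of_ge hl, h_of_ge hl, h_of_ge hl]
    have h1 : ℓ ^ (m + k + 2) * ℓ ^ (k + 1) * ℓ ^ (m + 1) =
        ℓ ^ (k + 2) * (ℓ ^ k * (ℓ ^ (m + 1)) ^ 2) := by ring
    rw [h1]
    have h2 : 1 ≤ ℓ ^ (k + 2) := one_le_pow₀ hl
    have h3 : 0 ≤ ℓ ^ k * (ℓ ^ (m + 1)) ^ 2 := by positivity
    have h5 : 1 ≤ R * G := by nlinarith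
    have h4 : 1 ≤ R * G * ℓ ^ (k + 2) := one_le_mul_of_one_le_of_one_le h5 h2
    calc ℓ ^ k * (ℓ ^ (m + 1)) ^ 2 ≤ (R * G * ℓ ^ (k + 2)) * (ℓ ^ k * (ℓ ^ (m + 1)) ^ 2) :=
          le_mul_of_one_le_left h3 h4
      _ = _ := by ring

theorem h_cmp3 {R ℓ : ℝ} (H : Rng R ℓ) (hl : 1 ≤ ℓ) (m : ℕ) :
    h ℓ (m + 2) ≤ R * h ℓ (m + 1) := by
  rw [h_of_ge hl, h_of_ge hl, show m + 2 = (m + 1) + 1 by ring, pow_succ _ (m + 1), mul_comm]
  exact mul_le_mul_of_nonneg_right H.hi (by positivity)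

end Pool.Agent.H214.Tri
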