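import Pool.Agent.H214.Tri.Vol
import Pool.Agent.H214.Tri.Det

/-!
# The area of the set of bad parameters
-/

set_option autoImplicit false

open MeasureTheory Set Filter Topology Metric Polynomial
open scoped ENNReal NNReal Real

namespace Pool.Agent.H214.Tri

/-- all the critical points escape or (if `‖l‖ < 1` and `‖t‖ < ‖1 - l‖`) are attracted by a fixed
point -/
def Good (n : ℕ) (l t : ℂ) : Prop :=
  ∀ c : ℂ, n * c ^ (n - 1) + l = 0 →
    Tendsto (fun k : ℕ => ‖(f n l t)^[k] c‖) atTop atTop ∨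
      (‖l‖ < 1 ∧ ‖t / (1 - l)‖ < 1 ∧ ∃ x : ℂ, f n l t x = x ∧ ‖deriv (f n l t) x‖ < 1 ∧
        Tendsto (fun k : ℕ => (f n l t)^[k] c) atTop (𝓝 x))

/-- the second list of numerical conditions -/
structure Num2 (n K : ℕ) (ℓ R s r e δ G Λ : ℝ) : Prop where
  hRn : R ≤ n
  hne : 1 / n ≤ e
  hen : (1 - e) ^ (n - 1) ≤ 1 / (R * n)
  hes : 4 * e ≤ s
  hr : 0 ≤ r
  hrs : r ≤ s / 4
  hG : 1 ≤ G
  hGk : ∀ k, k ≤ K → 1 ≤ G * ℓ ^ k
  hδ : 0 < δ
  hB1 : 2 * (2 * R ^ 3) ^ 2 * R * G ≤ n * δ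
  hB2 : 2 * Λ * (e + δ) ≤ 1
  hB3 : 2 * R * (2 * R ^ 3) ≤ n * s / (16 * (2 * R ^ 3))
  hbig : R + 2 ≤ 2 ^ (n - 2)

variable {n K : ℕ} {l : ℂ} {R s r e δ G η Λ E D : ℝ}

/-- the size of the critical values -/
theorem crit_size (H : Rng R ‖l‖) (hn : 2 ≤ n) (he0 : 0 < e) (he1 : e ≤ 1 / 4)
    (N2 : Num2 n K ‖l‖ R s r e δ G Λ) {c : ℂ} (hc : n * c ^ (n - 1) + l = 0) :
    ‖c ^ n + l * c‖ ≤ ‖l‖ ∧ (1 - 2 * e) * ‖l‖ ≤ ‖c ^ n + l * c‖ := by
  have hR := H.hR
  have hR0 : 0 < R := by linarith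
  have hl0 : 0 < ‖l‖ := lt_of_lt_of_le (by positivity) H.lo
  have hn0 : (0 : ℝ) < n := by exact_mod_cast (by omega : 0 < n)
  have hnc : (n : ℂ) ≠ 0 := by exact_mod_cast (by omega : n ≠ 0)
  have h1 : c ^ n = c ^ (n - 1) * c := by rw [← pow_succ]; congr 1; omega
  have h2 : c ^ n + l * c = l * (1 - 1 / n) * c := by
    rw [h1]
    have h3 : c ^ (n - 1) = -l / n := by field_simp; linear_combination hc
    rw [h3]
    field_simp
    ring
  have h3 : ‖c‖ ^ (n - 1) = ‖l‖ / n := by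
    have h4 : (n : ℂ) * c ^ (n - 1) = -l := by linear_combination hc
    have h5 := congrArg norm h4
    rw [norm_mul, norm_pow, norm_neg, Complex.norm_natCast] at h5
    field_simp
    linarith
  have hcle : ‖c‖ ≤ 1 := by
    by_contra h
    push Not at h
    have h4 : 1 < ‖c‖ ^ (n - 1) := one_lt_pow₀ h (by omega)
    rw [h3, lt_div_iff₀ hn0] at h4
    linarith [H.hi, N2.hRn]
  have hcge : 1 - e ≤ ‖c‖ := by
    by_contra h
    push Not at h
    have h4 : ‖c‖ ^ (n - 1) < (1 - e) ^ (n - 1) := pow_lt_pow_left₀ h (norm_nonneg _) (by omega)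
    have h5 : 1 / (R * n) ≤ ‖l‖ / n := by
      rw [one_div, mul_inv, div_eq_mul_inv]
      apply mul_le_mul_of_nonneg_right _ (by positivity)
      rw [← one_div]; exact H.lo
    linarith [N2.hen]
  have hnn : ‖(1 : ℂ) - 1 / n‖ = 1 - 1 / n := by
    have h4 : (1 : ℂ) - 1 / n = ((1 - 1 / n : ℝ) : ℂ) := by push_cast; ring
    rw [h4, Complex.norm_real, Real.norm_eq_abs, abs_of_nonneg]
    rw [sub_nonneg, div_le_one hn0]
    exact_mod_cast (by omega : 1 ≤ n)
  have h1n : 0 ≤ 1 / (n : ℝ) := by positivity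
  have h1n' : 1 / (n : ℝ) ≤ e := N2.hne
  rw [h2, norm_mul, norm_mul, hnn]
  constructor
  · calc ‖l‖ * (1 - 1 / n) * ‖c‖ ≤ ‖l‖ * 1 * 1 := by gcongr <;> linarith
      _ = ‖l‖ := by ring
  · have h5 : (1 - 2 * e) ≤ (1 - 1 / n) * ‖c‖ := by
      calc 1 - 2 * e ≤ (1 - e) * (1 - e) := by nlinarith
        _ ≤ (1 - 1 / n) * ‖c‖ := mul_le_mul (by linarith) hcge (by linarith) (by linarith)
    calc (1 - 2 * e) * ‖l‖ ≤ ((1 - 1 / n) * ‖c‖) * ‖l‖ := mul_le_mul_of_nonneg_right h5 hl0.le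
      _ = _ := by ring

/-- the size of the critical values, upper bound -/
theorem crit_upper (hn : 2 ≤ n) (hl : ‖l‖ ≤ R) (hRn : R ≤ n) {c : ℂ}
    (hc : n * c ^ (n - 1) + l = 0) : ‖c ^ n + l * c‖ ≤ R := by
  have hn0 : (0 : ℝ) < n := by exact_mod_cast (by omega : 0 < n)
  have hnc : (n : ℂ) ≠ 0 := by exact_mod_cast (by omega : n ≠ 0)
  have h1 : c ^ n = c ^ (n - 1) * c := by rw [← pow_succ]; congr 1; omega
  have h2 : c ^ n + l * c = l * (1 - 1 / n) * c := by
    rw [h1]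
    have h3 : c ^ (n - 1) = -l / n := by field_simp; linear_combination hc
    rw [h3]
    field_simp
    ring
  have h3 : ‖c‖ ^ (n - 1) = ‖l‖ / n := by
    have h4 : (n : ℂ) * c ^ (n - 1) = -l := by linear_combination hc
    have h5 := congrArg norm h4
    rw [norm_mul, norm_pow, norm_neg, Complex.norm_natCast] at h5
    field_simp
    linarith
  have hcle : ‖c‖ ≤ 1 := by
    by_contra h
    push Not at h
    have h4 : 1 < ‖c‖ ^ (n - 1) := one_lt_pow₀ h (by omega)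
    rw [h3, lt_div_iff₀ hn0] at h4
    linarith
  have hnn : ‖(1 : ℂ) - 1 / n‖ = 1 - 1 / n := by
    have h4 : (1 : ℂ) - 1 / n = ((1 - 1 / n : ℝ) : ℂ) := by push_cast; ring
    rw [h4, Complex.norm_real, Real.norm_eq_abs, abs_of_nonneg]
    rw [sub_nonneg, div_le_one hn0]
    exact_mod_cast (by omega : 1 ≤ n)
  have h1n : 0 ≤ 1 / (n : ℝ) := by positivity
  have h1n' : 1 / (n : ℝ) ≤ 1 := by
    rw [div_le_one hn0]
    exact_mod_cast (by omega : 1 ≤ n)
  rw [h2, norm_mul, norm_mul, hnn]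
  calc ‖l‖ * (1 - 1 / n) * ‖c‖ ≤ R * 1 * 1 := by
        have := norm_nonneg l
        have hR0 : 0 ≤ R := this.trans hl
        apply mul_le_mul _ hcle (norm_nonneg _) (by linarith)
        exact mul_le_mul hl (by linarith) (by linarith) hR0
    _ = R := by ring

/-- large parameters -/
theorem good_large (hn : 2 ≤ n) (hl : ‖l‖ ≤ R) (hRn : R ≤ n) (hbig : R + 2 ≤ 2 ^ (n - 2))
    {t : ℂ} (ht : R + 2 < ‖t‖) {c : ℂ} (hc : n * c ^ (n - 1) + l = 0) :
    Tendsto (fun k : ℕ => ‖(f n l t)^[k] c‖) atTop atTop := by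
  have h1 := crit_upper hn hl hRn hc
  have hR0 : 0 ≤ R := (norm_nonneg l).trans hl
  apply escape_iter 1
  rw [Function.iterate_one]
  apply escape (M := 2 + ‖l‖ + ‖t‖) hn le_rfl
  set v := f n l t c with hv
  have h2 : v = (c ^ n + l * c) + t := by rw [hv]; rfl
  have h3 : ‖t‖ ≤ ‖v‖ + R := by
    have : t = v - (c ^ n + l * c) := by rw [h2]; ring
    rw [this]
    exact (norm_sub_le _ _).trans (add_le_add le_rfl h1)
  have h4 : 2 ≤ ‖v‖ := by linarith
  obtain ⟨i, rfl⟩ : ∃ i, n = i + 2 := ⟨n - 2, by omega⟩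
  have h5 := hbig
  rw [Nat.add_sub_cancel] at h5
  rw [show i + 2 - 1 = i + 1 by omega, pow_succ]
  have h6 : (2 : ℝ) ^ i ≤ ‖v‖ ^ i := pow_le_pow_left₀ (by norm_num) h4 _
  have h7 : (R + 2) * ‖v‖ ≤ ‖v‖ ^ i * ‖v‖ :=
    mul_le_mul_of_nonneg_right (h5.trans h6) (norm_nonneg _)
  nlinarith

/-- the area of the set of the bad parameters -/
theorem vol_bad (H : Rng R ‖l‖) (N : Num n K ‖l‖ s r e η (4 * R) Λ E D (2 * R ^ 2))
    (N2 : Num2 n K ‖l‖ R s r e δ G Λ) :
    volume {t : ℂ | ¬ Good n l t} ≤ ENNReal.ofReal (16 * π * R ^ 2 * s +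
      n * (K + 1) ^ 2 * (n * (4 * π * (2 * e)) / (n * δ / (2 * (2 * R ^ 3) * R * G)) ^ 2 +
        (2 * R ^ 3) ^ 2 * (12 * π * (2 * e * √(12 * (2 * R ^ 3) ^ 4 * R * G * (e + δ)))) +
        n * (π * r ^ 2) / (n * s / (16 * (2 * R ^ 3))) ^ 2)) := by
  classical
  have hR := H.hR
  have hR0 : 0 < R := by linarith
  have hn := N.hn
  have he0 := N.he0
  have he1 := N.he1
  have hs0 := N.hs0
  have hl0 : 0 < ‖l‖ := lt_of_lt_of_le (by positivity) H.lo
  have hlne : ‖l‖ ≠ 1 := by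
    intro h
    have h2 := H.ne
    rw [h, sub_self, abs_zero] at h2
    have : 0 < 1 / R := by positivity
    linarith
  have hne : 1 - l ≠ 0 := by
    intro h
    have h1 : l = 1 := by linear_combination -h
    exact hlne (by rw [h1, norm_one])
  have hnc : (n : ℂ) ≠ 0 := by exact_mod_cast (by omega : n ≠ 0)
  -- the critical points
  set Q : ℂ[X] := C (n : ℂ) * X ^ (n - 1) + C l with hQ
  have hQdeg : Q.natDegree = n - 1 := by
    rw [hQ, natDegree_add_C]
    exact natDegree_C_mul_X_pow _ _ hnc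
  have hQ0 : Q ≠ 0 := by
    intro h
    rw [h, natDegree_zero] at hQdeg
    omega
  set cs : Finset ℂ := Q.roots.toFinset with hcs
  have hmem : ∀ c : ℂ, c ∈ cs ↔ (n : ℂ) * c ^ (n - 1) + l = 0 := by
    intro c
    rw [hcs, Multiset.mem_toFinset, mem_roots hQ0, IsRoot.def, hQ]
    simp
  have hcard : cs.card ≤ n := by
    calc cs.card ≤ Multiset.card Q.roots := Multiset.toFinset_card_le _
      _ ≤ Q.natDegree := card_roots' _
      _ ≤ n := by omega
  set V1 : ℝ := n * (4 * π * (2 * e)) / (n * δ / (2 * (2 * R ^ 3) * R * G)) ^ 2 with hV1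
  set V2 : ℝ := (2 * R ^ 3) ^ 2 * (12 * π * (2 * e * √(12 * (2 * R ^ 3) ^ 4 * R * G * (e + δ))))
    with hV2
  set V3 : ℝ := n * (π * r ^ 2) / (n * s / (16 * (2 * R ^ 3))) ^ 2 with hV3
  have hπ := Real.pi_pos
  have hV1' : 0 ≤ V1 := by positivity
  have hV2' : 0 ≤ V2 := by positivity
  have hV3' : 0 ≤ V3 := by positivity
  set S0 : Set ℂ := {t : ℂ | |‖t / (1 - l)‖ - 1| ≤ s} with hS0
  set S : ℂ × ℕ × ℕ → Set ℂ := fun q =>
    ({t : ℂ | |‖u l (q.1 ^ n + l * q.1) t q.2.1‖ - 1| ≤ 2 * e ∧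
        δ ≤ ‖u l (q.1 ^ n + l * q.1) t q.2.1‖ ^ (n - 1) ∧
        |‖w n l (q.1 ^ n + l * q.1) t q.2.1 q.2.2‖ - 1| ≤ 2 * e} ∪
      {t : ℂ | |‖u l (q.1 ^ n + l * q.1) t q.2.1‖ - 1| ≤ 2 * e ∧
        ‖u l (q.1 ^ n + l * q.1) t q.2.1‖ ^ (n - 1) < δ ∧
        |‖w n l (q.1 ^ n + l * q.1) t q.2.1 q.2.2‖ - 1| ≤ 2 * e}) ∪
      {t : ℂ | 1 < ‖l‖ ∧ (s ≤ |‖t / (1 - l)‖ - 1| ∧
        |‖u l (q.1 ^ n + l * q.1) t q.2.1‖ - 1| ≤ 2 * e ∧
        ‖w n l (q.1 ^ n + l * q.1) t q.2.1 0 - t / (1 - l)‖ ≤ r)} with hS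
  set I : Finset (ℂ × ℕ × ℕ) := cs ×ˢ (Finset.range (K + 1) ×ˢ Finset.range (K + 1)) with hI
  -- the volume of one piece
  have hvolS : ∀ q ∈ I, volume (S q) ≤ ENNReal.ofReal (V1 + V2 + V3) := by
    rintro ⟨c, m, k⟩ hq
    rw [hI, Finset.mem_product, Finset.mem_product, Finset.mem_range, Finset.mem_range] at hq
    obtain ⟨hc, hm, hk⟩ := hq
    simp only at hc hm hk
    have hcs' := crit_size H hn he0 he1 N2 ((hmem c).1 hc)
    have ha : ‖l‖ / 2 ≤ ‖c ^ n + l * c‖ := by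
      refine le_trans ?_ hcs'.2
      nlinarith
    have hhk : 2 * h ‖l‖ k * (e + δ) ≤ 1 := by
      refine le_trans ?_ N2.hB2
      have h1 : h ‖l‖ k ≤ Λ := by
        apply max_le
        · simpa using N.hΛ 0 (Nat.zero_le _)
        · exact N.hΛ k (by omega)
      have h2 : 0 ≤ e + δ := by linarith [N2.hδ]
      nlinarith
    have v1 := vol_S1 (a := c ^ n + l * c) H (by omega : 1 ≤ n) N2.hG he0.le he1 m k
      (N2.hGk k (by omega)) N2.hB1
    have v2 := vol_S2 (a := c ^ n + l * c) (n := n) H (by omega : 1 ≤ n) N2.hG he0.le he1 N2.hδ ha m k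
      (N2.hGk m (by omega)) hhk
    have v3 : volume {t : ℂ | 1 < ‖l‖ ∧ (s ≤ |‖t / (1 - l)‖ - 1| ∧
        |‖u l (c ^ n + l * c) t m‖ - 1| ≤ 2 * e ∧
        ‖w n l (c ^ n + l * c) t m 0 - t / (1 - l)‖ ≤ r)} ≤ ENNReal.ofReal V3 := by
      by_cases hl1 : 1 < ‖l‖
      · refine (measure_mono ?_).trans (vol_S3 (a := c ^ n + l * c) H (by omega : 1 ≤ n) hl1 he1
          hs0 N2.hes N2.hr N2.hrs m N2.hB3)
        rintro t ⟨-, ht⟩
        exact ht
      · have : {t : ℂ | 1 < ‖l‖ ∧ (s ≤ |‖t / (1 - l)‖ - 1| ∧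
            |‖u l (c ^ n + l * c) t m‖ - 1| ≤ 2 * e ∧
            ‖w n l (c ^ n + l * c) t m 0 - t / (1 - l)‖ ≤ r)} = ∅ := by
          ext t
          simp only [mem_ofPred_eq, mem_empty_iff_false, iff_false]
          rintro ⟨h1, -⟩
          exact hl1 h1
        rw [this, measure_empty]
        exact bot_le
    calc volume (S (c, m, k)) ≤ _ := measure_union_le _ _
      _ ≤ _ := add_le_add (measure_union_le _ _) le_rfl
      _ ≤ (ENNReal.ofReal V1 + ENNReal.ofReal V2) + ENNReal.ofReal V3 :=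
          add_le_add (add_le_add v1 v2) v3
      _ = ENNReal.ofReal (V1 + V2 + V3) := by
          rw [← ENNReal.ofReal_add hV1' hV2', ← ENNReal.ofReal_add (by positivity) hV3']
  -- the bad set is covered
  have hcover : {t : ℂ | ¬ Good n l t} ⊆ S0 ∪ ⋃ q ∈ I, S q := by
    intro t ht
    by_contra hnot
    apply ht
    rw [mem_union, not_or] at hnot
    obtain ⟨hn0, hnS⟩ := hnot
    have hnS' : ∀ c, (n : ℂ) * c ^ (n - 1) + l = 0 → ∀ m, m ≤ K → ∀ k, k ≤ K → t ∉ S (c, m, k) := by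
      intro c hc m hm k hk hmem'
      apply hnS
      simp only [mem_iUnion]
      refine ⟨(c, m, k), ?_, hmem'⟩
      rw [hI, Finset.mem_product, Finset.mem_product, Finset.mem_range, Finset.mem_range]
      exact ⟨(hmem c).2 hc, by simp only; omega, by simp only; omega⟩
    intro c hc
    rcases lt_or_ge (R + 2) ‖t‖ with hbig | hsmall
    · exact Or.inl (good_large hn H.hi N2.hRn N2.hbig hbig hc)
    have hG0' : s < |‖t / (1 - l)‖ - 1| := by
      rw [hS0, mem_ofPred_eq, not_le] at hn0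
      exact hn0
    obtain ⟨hcs1, hcs2⟩ := crit_size H hn he0 he1 N2 hc
    have hp : l * (t / (1 - l)) + t = t / (1 - l) := by
      field_simp
      ring
    have hpP : ‖t / (1 - l)‖ ≤ 2 * R ^ 2 := by
      have h1 := abs_norm_sub_norm_le 1 l
      rw [norm_one, abs_sub_comm] at h1
      have h2 := mul_le_mul_of_nonneg_left (H.ne.trans h1) hR0.le
      rw [mul_one_div_cancel hR0.ne'] at h2
      rw [norm_div, div_le_iff₀ (norm_pos_iff.2 hne)]
      have h3 : 2 * R ^ 2 * ‖1 - l‖ = 2 * R * (R * ‖1 - l‖) := by ring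
      rw [h3]
      nlinarith
    have hdet := det (a := c ^ n + l * c) (t := t) N hlne hp (by linarith [H.hi]) hpP hG0'.le
      (by
        intro m hm k hk h1 h2
        have h3 := hnS' c hc m hm k hk
        apply h3
        rcases le_or_gt δ (‖u l (c ^ n + l * c) t m‖ ^ (n - 1)) with h4 | h4
        · exact Or.inl (Or.inl ⟨h1, h4, h2⟩)
        · exact Or.inl (Or.inr ⟨h1, h4, h2⟩))
      (by
        intro hl1 m hm h1
        by_contra h2
        push Not at h2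
        have h3 := hnS' c hc m hm 0 (Nat.zero_le _)
        apply h3
        exact Or.inr ⟨hl1, hG0'.le, h1, h2.le⟩)
      (by
        intro hl1
        have h1 : t + (c ^ n + l * c) - t / (1 - l) = (c ^ n + l * c) - l * (t / (1 - l)) := by
          linear_combination hp
        rw [h1]
        have h2 := abs_norm_sub_norm_le (c ^ n + l * c) (l * (t / (1 - l)))
        rw [norm_mul] at h2
        refine le_trans ?_ h2
        have hrs := N2.hrs
        have hes := N2.hes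
        rcases le_total ‖t / (1 - l)‖ 1 with h3 | h3
        · rw [abs_of_nonpos (by linarith)] at hG0'
          refine le_trans ?_ (le_abs_self _)
          nlinarith
        · rw [abs_of_nonneg (by linarith)] at hG0'
          rw [abs_sub_comm]
          refine le_trans ?_ (le_abs_self _)
          nlinarith)
    have hval : f n l t c = t + (c ^ n + l * c) := by unfold f; ring
    rcases hdet with h1 | ⟨h1, h1p, x, hx1, hx2, hx3⟩
    · left
      apply escape_iter 1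
      rw [Function.iterate_one, hval]
      exact h1
    · right
      refine ⟨h1, h1p, x, hx1, hx2, ?_⟩
      apply tendsto_iter 1
      rw [Function.iterate_one, hval]
      exact hx3
  -- the sum
  have hs1 := N.hs1
  have hVnn : 0 ≤ V1 + V2 + V3 := by positivity
  clear_value V1 V2 V3
  have hIcard : (I.card : ℝ) ≤ n * (K + 1) ^ 2 := by
    rw [hI, Finset.card_product, Finset.card_product, Finset.card_range]
    push_cast
    have : (cs.card : ℝ) ≤ n := by exact_mod_cast hcard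
    have hK : (0 : ℝ) ≤ ((K : ℝ) + 1) * ((K : ℝ) + 1) := by positivity
    nlinarith
  calc volume {t : ℂ | ¬ Good n l t} ≤ volume (S0 ∪ ⋃ q ∈ I, S q) := measure_mono hcover
    _ ≤ volume S0 + volume (⋃ q ∈ I, S q) := measure_union_le _ _
    _ ≤ ENNReal.ofReal (16 * π * R ^ 2 * s) + ∑ q ∈ I, volume (S q) :=
        add_le_add (vol_S0 H hs0.le hs1) (measure_biUnion_finset_le _ _)
    _ ≤ ENNReal.ofReal (16 * π * R ^ 2 * s) + ∑ q ∈ I, ENNReal.ofReal (V1 + V2 + V3) :=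
        add_le_add le_rfl (Finset.sum_le_sum hvolS)
    _ = ENNReal.ofReal (16 * π * R ^ 2 * s) + ENNReal.ofReal (I.card * (V1 + V2 + V3)) := by
        rw [Finset.sum_const, nsmul_eq_mul, ENNReal.ofReal_mul (p := (I.card : ℝ)) (by positivity),
          ENNReal.ofReal_natCast]
    _ ≤ ENNReal.ofReal (16 * π * R ^ 2 * s + n * (K + 1) ^ 2 * (V1 + V2 + V3)) := by
        have h16 : 0 ≤ 16 * π * R ^ 2 * s := by positivity
        have hI0 : 0 ≤ (I.card : ℝ) * (V1 + V2 + V3) := mul_nonneg (Nat.cast_nonneg _) hVnn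
        rw [← ENNReal.ofReal_add h16 hI0]
        apply ENNReal.ofReal_le_ofReal
        have := mul_le_mul_of_nonneg_right hIcard hVnn
        linarith

end Pool.Agent.H214.Tri
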