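import Pool.Agent.H214.Tri.Sig
import Pool.Agent.H214.Tri.Weak

/-!
# The areas of the sets of bad parameters
-/

set_option autoImplicit false

open MeasureTheory Set Filter Topology Metric Polynomial
open scoped ENNReal NNReal Real

namespace Pool.Agent.H214.Tri

/-- `poly_area` in a convenient form -/
theorem poly_area' {E : Set ℂ} (hE : MeasurableSet E) {P : ℂ[X]} {b : ℝ} (hb : 0 < b)
    (h0 : ∀ z ∈ E, b ≤ ‖(derivative P).eval z‖) {N : ℕ} (hN : P.natDegree ≤ N)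
    {A : Set ℂ} (hA : MeasurableSet A) (hgA : ∀ z ∈ E, P.eval z ∈ A) {X : ℝ}
    (hX : volume A ≤ ENNReal.ofReal X) :
    volume E ≤ ENNReal.ofReal (N * X / b ^ 2) := by
  have h1 := poly_area hE hb h0 hN hA hgA
  have hb2 : 0 < b ^ 2 := by positivity
  have h2 : ENNReal.ofReal (b ^ 2) * volume E ≤ ENNReal.ofReal (N * X) := by
    refine h1.trans ?_
    rw [ENNReal.ofReal_mul (by positivity), ENNReal.ofReal_natCast]
    exact mul_le_mul_right hX _
  rw [ENNReal.ofReal_div_of_pos hb2, ENNReal.le_div_iff_mul_le (Or.inl (by simpa using hb2.ne'))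
    (Or.inl ENNReal.ofReal_ne_top), mul_comm]
  exact h2

/-- the polynomial `t ↦ u l a t m` -/
noncomputable def UP (l a : ℂ) (m : ℕ) : ℂ[X] := C (sg l (m + 1)) * X + C (l ^ m * a)

theorem UP_eval (l a t : ℂ) (m : ℕ) : (UP l a m).eval t = u l a t m := by
  simp [UP, u]

theorem UP_deriv (l a : ℂ) (m : ℕ) : derivative (UP l a m) = C (sg l (m + 1)) := by
  simp [UP]

theorem UP_deg (l a : ℂ) (m : ℕ) : (UP l a m).natDegree ≤ 1 := by
  unfold UP; compute_degree

/-- the polynomial `t ↦ w n l a t m k` -/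
noncomputable def WP (n : ℕ) (l a : ℂ) (m k : ℕ) : ℂ[X] :=
  C (l ^ k) * UP l a m ^ n + UP l a (m + k + 1)

theorem WP_eval (n : ℕ) (l a t : ℂ) (m k : ℕ) : (WP n l a m k).eval t = w n l a t m k := by
  simp [WP, w, UP_eval]

theorem WP_deriv (n : ℕ) (l a t : ℂ) (m k : ℕ) : (derivative (WP n l a m k)).eval t =
    l ^ k * (n * u l a t m ^ (n - 1) * sg l (m + 1)) + sg l (m + k + 2) := by
  unfold WP
  rw [derivative_add, derivative_C_mul, derivative_pow, UP_deriv, UP_deriv]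
  simp [UP_eval]

theorem WP_deg {n : ℕ} (hn : 1 ≤ n) (l a : ℂ) (m k : ℕ) : (WP n l a m k).natDegree ≤ n := by
  unfold WP
  refine (natDegree_add_le _ _).trans (max_le ?_ ((UP_deg _ _ _).trans hn))
  refine (natDegree_C_mul_le _ _).trans ((natDegree_pow_le).trans ?_)
  calc n * (UP l a m).natDegree ≤ n * 1 := Nat.mul_le_mul_left _ (UP_deg _ _ _)
    _ = n := mul_one _

theorem u_cont (l a : ℂ) (m : ℕ) : Continuous fun t => u l a t m := by
  unfold u; fun_prop

theorem w_cont (n : ℕ) (l a : ℂ) (m k : ℕ) : Continuous fun t => w n l a t m k := by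
  unfold w
  have h1 := u_cont l a m
  have h2 := u_cont l a (m + k + 1)
  fun_prop

variable {n K : ℕ} {l a : ℂ} {R s r e δ G : ℝ}

/-- strong visits -/
theorem vol_S1 (H : Rng R ‖l‖) (hn : 1 ≤ n) (hG : 1 ≤ G) (he : 0 ≤ e) (he1 : e ≤ 1 / 4)
    (m k : ℕ) (hk : 1 ≤ G * ‖l‖ ^ k) (hB : 2 * (2 * R ^ 3) ^ 2 * R * G ≤ n * δ)  :
    volume {t : ℂ | |‖u l a t m‖ - 1| ≤ 2 * e ∧ δ ≤ ‖u l a t m‖ ^ (n - 1) ∧
      |‖w n l a t m k‖ - 1| ≤ 2 * e} ≤
      ENNReal.ofReal (n * (4 * π * (2 * e)) / (n * δ / (2 * (2 * R ^ 3) * R * G)) ^ 2) := by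
  have hR := H.hR
  have hR0 : 0 < R := by linarith
  set B := 2 * R ^ 3 with hBdef
  have hB0 : 0 < B := by positivity
  have hu := u_cont l a m
  have hw := w_cont n l a m k
  have hmeas : MeasurableSet {t : ℂ | |‖u l a t m‖ - 1| ≤ 2 * e ∧ δ ≤ ‖u l a t m‖ ^ (n - 1) ∧
      |‖w n l a t m k‖ - 1| ≤ 2 * e} := by
    have m1 : IsClosed {t : ℂ | |‖u l a t m‖ - 1| ≤ 2 * e} := isClosed_le (by fun_prop) (by fun_prop)
    have m2 : IsClosed {t : ℂ | δ ≤ ‖u l a t m‖ ^ (n - 1)} := isClosed_le (by fun_prop) (by fun_prop)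
    have m3 : IsClosed {t : ℂ | |‖w n l a t m k‖ - 1| ≤ 2 * e} :=
      isClosed_le (by fun_prop) (by fun_prop)
    exact m1.measurableSet.inter (m2.measurableSet.inter m3.measurableSet)
  have hnδ : 0 < n * δ := lt_of_lt_of_le (by positivity) hB
  have hA : MeasurableSet {v : ℂ | |‖v‖ - 1| ≤ 2 * e} :=
    measurableSet_le (by fun_prop) (by fun_prop)
  refine poly_area' hmeas (P := WP n l a m k) (by positivity) ?_ (WP_deg hn l a m k) hA ?_
    (annulus_area (by linarith) (by linarith))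
  · rintro t ⟨h1, h2, h3⟩
    rw [WP_deriv]
    have c1 := h_cmp1 H hG m k hk
    have c2 := sg_lower H (j := m + 1) (by omega)
    have c3 := sg_upper H (m + k + 2)
    rw [← hBdef] at c2 c3
    have hh : 1 ≤ h ‖l‖ (m + k + 2) := one_le_h _ _
    have hlow : n * δ / (B * R * G) * h ‖l‖ (m + k + 2) ≤
        ‖l ^ k * (n * u l a t m ^ (n - 1) * sg l (m + 1))‖ := by
      rw [norm_mul, norm_mul, norm_mul, norm_pow, norm_pow, Complex.norm_natCast]
      have e1 : ‖l‖ ^ k * h ‖l‖ (m + 1) ≤ B * (‖l‖ ^ k * ‖sg l (m + 1)‖) := by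
        have := mul_le_mul_of_nonneg_left c2 (pow_nonneg (norm_nonneg l) k)
        linarith
      have e2 : h ‖l‖ (m + k + 2) ≤ R * G * (B * (‖l‖ ^ k * ‖sg l (m + 1)‖)) :=
        c1.trans (mul_le_mul_of_nonneg_left e1 (by positivity))
      have e3 : n * δ / (B * R * G) * h ‖l‖ (m + k + 2) ≤ n * δ / (B * R * G) *
          (R * G * (B * (‖l‖ ^ k * ‖sg l (m + 1)‖))) :=
        mul_le_mul_of_nonneg_left e2 (by positivity)
      refine e3.trans ?_
      have e4 : n * δ / (B * R * G) * (R * G * (B * (‖l‖ ^ k * ‖sg l (m + 1)‖))) =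
          ‖l‖ ^ k * (n * δ * ‖sg l (m + 1)‖) := by
        field_simp
      rw [e4]
      gcongr
    have hup : ‖sg l (m + k + 2)‖ ≤ n * δ / (2 * B * R * G) * h ‖l‖ (m + k + 2) := by
      refine c3.trans (mul_le_mul_of_nonneg_right ?_ (h_pos _ _).le)
      rw [le_div_iff₀ (by positivity)]
      calc B * (2 * B * R * G) = 2 * B ^ 2 * R * G := by ring
        _ ≤ n * δ := hB
    have h4 : n * δ / (B * R * G) = 2 * (n * δ / (2 * B * R * G)) := by field_simp
    have h5 : ‖l ^ k * (n * u l a t m ^ (n - 1) * sg l (m + 1))‖ ≤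
        ‖l ^ k * (n * u l a t m ^ (n - 1) * sg l (m + 1)) + sg l (m + k + 2)‖ +
          ‖sg l (m + k + 2)‖ := by
      have : l ^ k * (n * u l a t m ^ (n - 1) * sg l (m + 1)) =
        (l ^ k * (n * u l a t m ^ (n - 1) * sg l (m + 1)) + sg l (m + k + 2)) -
          sg l (m + k + 2) := by ring
      conv_lhs => rw [this]
      exact norm_sub_le _ _
    rw [h4] at hlow
    have h6 : 0 ≤ n * δ / (2 * B * R * G) := by positivity
    nlinarith
  · rintro t ⟨h1, h2, h3⟩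
    rw [WP_eval]
    exact h3

/-- weak visits -/
theorem vol_S2 (H : Rng R ‖l‖) (hn : 1 ≤ n) (hG : 1 ≤ G) (he : 0 ≤ e) (he1 : e ≤ 1 / 4)
    (hδ : 0 < δ) (ha : ‖l‖ / 2 ≤ ‖a‖) (m k : ℕ) (hm : 1 ≤ G * ‖l‖ ^ m)
    (hH : 2 * h ‖l‖ k * (e + δ) ≤ 1) :
    volume {t : ℂ | |‖u l a t m‖ - 1| ≤ 2 * e ∧ ‖u l a t m‖ ^ (n - 1) < δ ∧
      |‖w n l a t m k‖ - 1| ≤ 2 * e} ≤
      ENNReal.ofReal ((2 * R ^ 3) ^ 2 * (12 * π * (2 * e *
        √(12 * (2 * R ^ 3) ^ 4 * R * G * (e + δ))))) := by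
  have hR := H.hR
  have hR0 : 0 < R := by linarith
  set B := 2 * R ^ 3 with hBdef
  have hB0 : 0 < B := by positivity
  have hu := u_cont l a m
  have hw := w_cont n l a m k
  have hl0 : 0 < ‖l‖ := lt_of_lt_of_le (by positivity) H.lo
  have ha0 : 0 < ‖a‖ := by linarith
  have hmeas : MeasurableSet {t : ℂ | |‖u l a t m‖ - 1| ≤ 2 * e ∧ ‖u l a t m‖ ^ (n - 1) < δ ∧
      |‖w n l a t m k‖ - 1| ≤ 2 * e} := by
    have m1 : IsClosed {t : ℂ | |‖u l a t m‖ - 1| ≤ 2 * e} := isClosed_le (by fun_prop) (by fun_prop)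
    have m2 : IsOpen {t : ℂ | ‖u l a t m‖ ^ (n - 1) < δ} := isOpen_lt (by fun_prop) (by fun_prop)
    have m3 : IsClosed {t : ℂ | |‖w n l a t m k‖ - 1| ≤ 2 * e} :=
      isClosed_le (by fun_prop) (by fun_prop)
    exact m1.measurableSet.inter (m2.measurableSet.inter m3.measurableSet)
  have c1 := sg_lower H (j := m + 1) (by omega)
  have c2 := sg_lower H (j := m + k + 2) (by omega)
  have c3 := sg_lower H (j := k + 1) (by omega)
  have c4 := sg_upper H (m + 1)
  rw [← hBdef] at c1 c2 c3 c4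
  have h1p := h_pos ‖l‖ (m + 1)
  have h2p := h_pos ‖l‖ (m + k + 2)
  have h3p := h_pos ‖l‖ (k + 1)
  have s1 : 0 < ‖sg l (m + 1)‖ := by
    by_contra hc
    push Not at hc
    nlinarith
  have s2 : 0 < ‖sg l (m + k + 2)‖ := by
    by_contra hc
    push Not at hc
    nlinarith
  have s3 : 0 < ‖sg l (k + 1)‖ := by
    by_contra hc
    push Not at hc
    nlinarith
  have s1' : sg l (m + 1) ≠ 0 := norm_pos_iff.1 s1
  set α : ℂ := sg l (m + k + 2) / sg l (m + 1) with hα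
  set β : ℂ := l ^ m * a * sg l (k + 1) / sg l (m + 1) with hβ
  have hαn : ‖α‖ = ‖sg l (m + k + 2)‖ / ‖sg l (m + 1)‖ := norm_div _ _
  have hβn : ‖β‖ = ‖l‖ ^ m * ‖a‖ * ‖sg l (k + 1)‖ / ‖sg l (m + 1)‖ := by
    rw [hβ, norm_div, norm_mul, norm_mul, norm_pow]
  have hα0 : 0 < ‖α‖ := by rw [hαn]; positivity
  have hβ0 : 0 < ‖β‖ := by rw [hβn]; positivity
  set y : ℝ := 6 * h ‖l‖ k * (e + δ) with hy
  have hA : MeasurableSet {v : ℂ | |‖v‖ - 1| ≤ 2 * e ∧ |‖α * v - β‖ ^ 2 - 1| ≤ y} := by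
    have m1 : MeasurableSet {v : ℂ | |‖v‖ - 1| ≤ 2 * e} :=
      measurableSet_le (by fun_prop) (by fun_prop)
    have m2 : MeasurableSet {v : ℂ | |‖α * v - β‖ ^ 2 - 1| ≤ y} :=
      measurableSet_le (by fun_prop) (by fun_prop)
    exact m1.inter m2
  have hAvol := weak_area (y := y) hα0 hβ0 (x := 2 * e) (by linarith) (by linarith)
  have hmain := poly_area' hmeas (P := UP l a m) (b := 1 / B) (by positivity)
    (by
      rintro t -
      rw [UP_deriv, eval_C, div_le_iff₀ hB0]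
      linarith [one_le_h ‖l‖ (m + 1)]) (UP_deg l a m) hA
    (by
      rintro t ⟨q1, q2, q3⟩
      rw [UP_eval]
      refine ⟨q1, ?_⟩
      have e1 : α * u l a t m - β = u l a t (m + k + 1) := (u_shift s1' a t k).symm
      rw [e1]
      -- the power is small
      have e2 : ‖l ^ k * u l a t m ^ n‖ ≤ 2 * (h ‖l‖ k * δ) := by
        rw [norm_mul, norm_pow, norm_pow]
        have e3 : ‖u l a t m‖ ^ n = ‖u l a t m‖ ^ (n - 1) * ‖u l a t m‖ := by
          rw [← pow_succ]; congr 1; omega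
        have e4 : ‖u l a t m‖ ≤ 2 := by
          have := (abs_le.1 q1).2
          linarith
        have e5 : ‖u l a t m‖ ^ n ≤ δ * 2 := by
          rw [e3]
          exact mul_le_mul q2.le e4 (norm_nonneg _) hδ.le
        calc ‖l‖ ^ k * ‖u l a t m‖ ^ n ≤ h ‖l‖ k * (δ * 2) :=
              mul_le_mul (pow_le_h _ _) e5 (by positivity) (h_pos _ _).le
          _ = 2 * (h ‖l‖ k * δ) := by ring
      have e6 : |‖u l a t (m + k + 1)‖ - 1| ≤ 2 * h ‖l‖ k * (e + δ) := by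
        have e7 : |‖w n l a t m k‖ - ‖u l a t (m + k + 1)‖| ≤ ‖l ^ k * u l a t m ^ n‖ := by
          refine (abs_norm_sub_norm_le _ _).trans (le_of_eq ?_)
          unfold w
          congr 1
          ring
        have e8 : |‖u l a t (m + k + 1)‖ - 1| ≤ |‖w n l a t m k‖ - ‖u l a t (m + k + 1)‖| +
            |‖w n l a t m k‖ - 1| := by
          have : ‖u l a t (m + k + 1)‖ - 1 =
            -(‖w n l a t m k‖ - ‖u l a t (m + k + 1)‖) + (‖w n l a t m k‖ - 1) := by ring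
          rw [this]
          refine (abs_add_le _ _).trans ?_
          rw [abs_neg]
        have e9 : e ≤ h ‖l‖ k * e := le_mul_of_one_le_left he (one_le_h _ _)
        nlinarith
      have e7 : ‖u l a t (m + k + 1)‖ ≤ 2 := by
        have := (abs_le.1 e6).2
        linarith
      have e8 : ‖u l a t (m + k + 1)‖ ^ 2 - 1 =
          (‖u l a t (m + k + 1)‖ - 1) * (‖u l a t (m + k + 1)‖ + 1) := by ring
      rw [e8, abs_mul, abs_of_nonneg (by positivity : 0 ≤ ‖u l a t (m + k + 1)‖ + 1)]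
      calc |‖u l a t (m + k + 1)‖ - 1| * (‖u l a t (m + k + 1)‖ + 1)
          ≤ 2 * h ‖l‖ k * (e + δ) * 3 :=
            mul_le_mul e6 (by linarith) (by positivity) (by have := h_pos ‖l‖ k; positivity)
        _ = y := by rw [hy]; ring) hAvol
  refine hmain.trans (ENNReal.ofReal_le_ofReal ?_)
  have hq : y / (‖α‖ * ‖β‖) ≤ 12 * B ^ 4 * R * G * (e + δ) := by
    have c5 := h_cmp2 H hG m k hm
    rw [div_le_iff₀ (by positivity), hαn, hβn]
    have d1 : ‖sg l (m + k + 2)‖ / ‖sg l (m + 1)‖ *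
        (‖l‖ ^ m * ‖a‖ * ‖sg l (k + 1)‖ / ‖sg l (m + 1)‖) =
        ‖sg l (m + k + 2)‖ * ‖sg l (k + 1)‖ * (‖l‖ ^ m * ‖a‖) / ‖sg l (m + 1)‖ ^ 2 := by
      field_simp
    rw [d1]
    -- numerator
    have d2 : h ‖l‖ (m + k + 2) * h ‖l‖ (k + 1) ≤
        B ^ 2 * (‖sg l (m + k + 2)‖ * ‖sg l (k + 1)‖) := by
      calc h ‖l‖ (m + k + 2) * h ‖l‖ (k + 1) ≤
          (B * ‖sg l (m + k + 2)‖) * (B * ‖sg l (k + 1)‖) :=
            mul_le_mul c2 c3 h3p.le (by positivity)
        _ = _ := by ring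
    have d3 : ‖l‖ ^ (m + 1) ≤ 2 * (‖l‖ ^ m * ‖a‖) := by
      rw [pow_succ]
      have := mul_le_mul_of_nonneg_left ha (pow_nonneg hl0.le m)
      linarith
    have d4 : h ‖l‖ (m + k + 2) * h ‖l‖ (k + 1) * ‖l‖ ^ (m + 1) ≤
        2 * B ^ 2 * (‖sg l (m + k + 2)‖ * ‖sg l (k + 1)‖ * (‖l‖ ^ m * ‖a‖)) := by
      calc h ‖l‖ (m + k + 2) * h ‖l‖ (k + 1) * ‖l‖ ^ (m + 1) ≤
          B ^ 2 * (‖sg l (m + k + 2)‖ * ‖sg l (k + 1)‖) * (2 * (‖l‖ ^ m * ‖a‖)) :=
            mul_le_mul d2 d3 (by positivity) (by positivity)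
        _ = _ := by ring
    have d5 : h ‖l‖ k * ‖sg l (m + 1)‖ ^ 2 ≤ 2 * B ^ 4 * R * G *
        (‖sg l (m + k + 2)‖ * ‖sg l (k + 1)‖ * (‖l‖ ^ m * ‖a‖)) := by
      have d6 : ‖sg l (m + 1)‖ ^ 2 ≤ B ^ 2 * h ‖l‖ (m + 1) ^ 2 := by
        rw [← mul_pow]
        exact pow_le_pow_left₀ (norm_nonneg _) c4 2
      calc h ‖l‖ k * ‖sg l (m + 1)‖ ^ 2 ≤ h ‖l‖ k * (B ^ 2 * h ‖l‖ (m + 1) ^ 2) :=
            mul_le_mul_of_nonneg_left d6 (h_pos _ _).le
        _ = B ^ 2 * (h ‖l‖ k * h ‖l‖ (m + 1) ^ 2) := by ring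
        _ ≤ B ^ 2 * (R * G * (h ‖l‖ (m + k + 2) * h ‖l‖ (k + 1) * ‖l‖ ^ (m + 1))) :=
            mul_le_mul_of_nonneg_left c5 (by positivity)
        _ ≤ B ^ 2 * (R * G * (2 * B ^ 2 *
            (‖sg l (m + k + 2)‖ * ‖sg l (k + 1)‖ * (‖l‖ ^ m * ‖a‖)))) := by
            apply mul_le_mul_of_nonneg_left _ (by positivity)
            exact mul_le_mul_of_nonneg_left d4 (by positivity)
        _ = _ := by ring
    rw [mul_div_assoc', le_div_iff₀ (by positivity), hy]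
    calc 6 * h ‖l‖ k * (e + δ) * ‖sg l (m + 1)‖ ^ 2 =
        6 * (e + δ) * (h ‖l‖ k * ‖sg l (m + 1)‖ ^ 2) := by ring
      _ ≤ 6 * (e + δ) * (2 * B ^ 4 * R * G *
        (‖sg l (m + k + 2)‖ * ‖sg l (k + 1)‖ * (‖l‖ ^ m * ‖a‖))) :=
          mul_le_mul_of_nonneg_left d5 (by positivity)
      _ = _ := by ring
  have hsq := Real.sqrt_le_sqrt hq
  have hπ := Real.pi_pos
  rw [Nat.cast_one, one_mul, one_div, inv_pow, div_inv_eq_mul, mul_comm]
  apply mul_le_mul_of_nonneg_left _ (by positivity)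
  apply mul_le_mul_of_nonneg_left _ (by positivity)
  exact mul_le_mul_of_nonneg_left hsq (by positivity)

/-- visits followed by a passage near the fixed point -/
theorem vol_S3 (H : Rng R ‖l‖) (hn : 1 ≤ n) (hl : 1 < ‖l‖) (he1 : e ≤ 1 / 4)
    (hs : 0 < s) (hes : 4 * e ≤ s) (hr : 0 ≤ r) (hrs : r ≤ s / 4) (m : ℕ)
    (hB : 2 * R * (2 * R ^ 3) ≤ n * s / (16 * (2 * R ^ 3))) :
    volume {t : ℂ | s ≤ |‖t / (1 - l)‖ - 1| ∧ |‖u l a t m‖ - 1| ≤ 2 * e ∧
      ‖w n l a t m 0 - t / (1 - l)‖ ≤ r} ≤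
      ENNReal.ofReal (n * (π * r ^ 2) / (n * s / (16 * (2 * R ^ 3))) ^ 2) := by
  have hR := H.hR
  have hR0 : 0 < R := by linarith
  set B := 2 * R ^ 3 with hBdef
  have hB0 : 0 < B := by positivity
  have hu := u_cont l a m
  have hw := w_cont n l a m 0
  have hl0 : 0 < ‖l‖ := lt_of_lt_of_le (by positivity) H.lo
  have hne : 1 - l ≠ 0 := by
    intro h
    have : l = 1 := by linear_combination -h
    rw [this, norm_one] at hl
    exact lt_irrefl _ hl
  have hmeas : MeasurableSet {t : ℂ | s ≤ |‖t / (1 - l)‖ - 1| ∧ |‖u l a t m‖ - 1| ≤ 2 * e ∧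
      ‖w n l a t m 0 - t / (1 - l)‖ ≤ r} := by
    have m0 : IsClosed {t : ℂ | s ≤ |‖t / (1 - l)‖ - 1|} := isClosed_le (by fun_prop) (by fun_prop)
    have m1 : IsClosed {t : ℂ | |‖u l a t m‖ - 1| ≤ 2 * e} := isClosed_le (by fun_prop) (by fun_prop)
    have m3 : IsClosed {t : ℂ | ‖w n l a t m 0 - t / (1 - l)‖ ≤ r} :=
      isClosed_le (by fun_prop) (by fun_prop)
    exact m0.measurableSet.inter (m1.measurableSet.inter m3.measurableSet)
  have hn0 : (0 : ℝ) < n := by exact_mod_cast hn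
  have hvol : volume (closedBall (0 : ℂ) r) ≤ ENNReal.ofReal (π * r ^ 2) := by
    rw [Complex.volume_closedBall]
    have hpi : (NNReal.pi : ENNReal) = ENNReal.ofReal π := by
      rw [ENNReal.ofReal, Real.toNNReal_of_nonneg Real.pi_pos.le]; rfl
    rw [hpi, ← ENNReal.ofReal_pow hr, ← ENNReal.ofReal_mul (by positivity), mul_comm]
  set Q : ℂ[X] := WP n l a m 0 - C (1 / (1 - l)) * X with hQ
  have hQe : ∀ t, Q.eval t = w n l a t m 0 - t / (1 - l) := by
    intro t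
    rw [hQ, eval_sub, WP_eval]
    simp
    ring
  have hQd : Q.natDegree ≤ n := by
    refine (natDegree_sub_le _ _).trans (max_le (WP_deg hn _ _ _ _) ?_)
    refine le_trans ?_ hn
    compute_degree
  refine poly_area' hmeas (P := Q) (by positivity) ?_ hQd measurableSet_closedBall ?_ hvol
  · rintro t ⟨q0, q1, q2⟩
    have hd : (derivative Q).eval t = n * u l a t m ^ (n - 1) * sg l (m + 1) +
        (sg l (m + 2) - 1 / (1 - l)) := by
      rw [hQ, derivative_sub, eval_sub, WP_deriv]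
      simp
      ring
    rw [hd]
    -- the fixed point
    have hp : t / (1 - l) = l * (t / (1 - l)) + t := by
      field_simp
      ring
    have e1 : w n l a t m 0 - t / (1 - l) = u l a t m ^ n + l * (u l a t m - t / (1 - l)) := by
      rw [w_zero]
      unfold f
      linear_combination -hp
    have e2 : s / 2 ≤ ‖u l a t m - t / (1 - l)‖ := by
      have e3 := abs_norm_sub_norm_le (u l a t m) (t / (1 - l))
      have e4 : |‖t / (1 - l)‖ - 1| ≤ |‖u l a t m‖ - ‖t / (1 - l)‖| + |‖u l a t m‖ - 1| := by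
        have : ‖t / (1 - l)‖ - 1 = -(‖u l a t m‖ - ‖t / (1 - l)‖) + (‖u l a t m‖ - 1) := by ring
        rw [this]
        refine (abs_add_le _ _).trans ?_
        rw [abs_neg]
      linarith
    have e3 : s / 4 ≤ ‖u l a t m‖ ^ n := by
      have e4 : ‖l * (u l a t m - t / (1 - l))‖ ≤ ‖w n l a t m 0 - t / (1 - l)‖ + ‖u l a t m ^ n‖ := by
        have : l * (u l a t m - t / (1 - l)) = (w n l a t m 0 - t / (1 - l)) - u l a t m ^ n := by
          rw [e1]; ring
        rw [this]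
        exact norm_sub_le _ _
      rw [norm_mul, norm_pow] at e4
      nlinarith
    have e4 : s / 8 ≤ ‖u l a t m‖ ^ (n - 1) := by
      have e5 : ‖u l a t m‖ ^ n = ‖u l a t m‖ ^ (n - 1) * ‖u l a t m‖ := by
        rw [← pow_succ]; congr 1; omega
      have e6 : ‖u l a t m‖ ≤ 2 := by
        have := (abs_le.1 q1).2
        linarith
      have e7 : ‖u l a t m‖ ^ (n - 1) * ‖u l a t m‖ ≤ ‖u l a t m‖ ^ (n - 1) * 2 :=
        mul_le_mul_of_nonneg_left e6 (by positivity)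
      linarith
    have c1 := sg_lower H (j := m + 1) (by omega)
    have c2 := sg_upper H (m + 2)
    have c3 := h_cmp3 H hl.le m
    rw [← hBdef] at c1 c2
    have hh := one_le_h ‖l‖ (m + 1)
    have e5 : n * s / (8 * B) * h ‖l‖ (m + 1) ≤ ‖(n : ℂ) * u l a t m ^ (n - 1) * sg l (m + 1)‖ := by
      rw [norm_mul, norm_mul, norm_pow, Complex.norm_natCast]
      calc n * s / (8 * B) * h ‖l‖ (m + 1) ≤ n * s / (8 * B) * (B * ‖sg l (m + 1)‖) :=
            mul_le_mul_of_nonneg_left c1 (by positivity)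
        _ = n * (s / 8) * ‖sg l (m + 1)‖ := by field_simp
        _ ≤ n * ‖u l a t m‖ ^ (n - 1) * ‖sg l (m + 1)‖ := by gcongr
    have e6 : ‖1 / (1 - l)‖ ≤ R := by
      rw [norm_div, norm_one, div_le_iff₀ (norm_pos_iff.2 hne)]
      have h1 := abs_norm_sub_norm_le 1 l
      rw [norm_one, abs_sub_comm] at h1
      have h2 := mul_le_mul_of_nonneg_left (H.ne.trans h1) hR0.le
      rwa [mul_one_div_cancel hR0.ne'] at h2
    have hB1 : 1 ≤ B := by
      rw [hBdef]
      nlinarith [pow_pos hR0 2, pow_pos hR0 3]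
    have e7 : ‖sg l (m + 2) - 1 / (1 - l)‖ ≤ 2 * R * B * h ‖l‖ (m + 1) := by
      refine (norm_sub_le _ _).trans ?_
      have d1 : ‖sg l (m + 2)‖ ≤ B * (R * h ‖l‖ (m + 1)) :=
        c2.trans (mul_le_mul_of_nonneg_left c3 hB0.le)
      have d2 : R ≤ R * B * h ‖l‖ (m + 1) := by
        have : 1 ≤ B * h ‖l‖ (m + 1) := one_le_mul_of_one_le_of_one_le hB1 hh
        nlinarith
      linarith
    have e8 : ‖(n : ℂ) * u l a t m ^ (n - 1) * sg l (m + 1)‖ ≤
        ‖(n : ℂ) * u l a t m ^ (n - 1) * sg l (m + 1) + (sg l (m + 2) - 1 / (1 - l))‖ +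
          ‖sg l (m + 2) - 1 / (1 - l)‖ := by
      have : (n : ℂ) * u l a t m ^ (n - 1) * sg l (m + 1) =
        ((n : ℂ) * u l a t m ^ (n - 1) * sg l (m + 1) + (sg l (m + 2) - 1 / (1 - l))) -
          (sg l (m + 2) - 1 / (1 - l)) := by ring
      conv_lhs => rw [this]
      exact norm_sub_le _ _
    have e9 : n * s / (8 * B) = 2 * (n * s / (16 * B)) := by
      field_simp
      ring
    rw [e9] at e5
    have e10 : 2 * R * B * h ‖l‖ (m + 1) ≤ n * s / (16 * B) * h ‖l‖ (m + 1) :=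
      mul_le_mul_of_nonneg_right hB (by linarith)
    have e11 : n * s / (16 * B) ≤ n * s / (16 * B) * h ‖l‖ (m + 1) :=
      le_mul_of_one_le_right (by positivity) hh
    linarith
  · rintro t ⟨q0, q1, q2⟩
    rw [hQe, mem_closedBall, dist_zero_right]
    exact q2

/-- the fixed point is near the unit circle -/
theorem vol_S0 (H : Rng R ‖l‖) (hs : 0 ≤ s) (hs1 : s ≤ 1) :
    volume {t : ℂ | |‖t / (1 - l)‖ - 1| ≤ s} ≤ ENNReal.ofReal (16 * π * R ^ 2 * s) := by
  have hR := H.hR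
  have hR0 : 0 < R := by linarith
  have hne : 1 - l ≠ 0 := by
    intro h
    have h1 : l = 1 := by linear_combination -h
    have h2 := H.ne
    rw [h1, norm_one, sub_self, abs_zero] at h2
    have : 0 < 1 / R := by positivity
    linarith
  have hmeas : MeasurableSet {t : ℂ | |‖t / (1 - l)‖ - 1| ≤ s} :=
    measurableSet_le (by fun_prop) (by fun_prop)
  have hA : MeasurableSet {v : ℂ | |‖v‖ - 1| ≤ s} :=
    measurableSet_le (by fun_prop) (by fun_prop)
  have hmain := poly_area' hmeas (P := C (1 / (1 - l)) * X) (b := 1 / (2 * R)) (by positivity)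
    (by
      rintro t -
      simp only [derivative_mul, derivative_C, zero_mul, derivative_X, mul_one, zero_add, eval_C]
      rw [norm_div, norm_one]
      apply one_div_le_one_div_of_le (norm_pos_iff.2 hne)
      refine (norm_sub_le _ _).trans ?_
      rw [norm_one]
      linarith [H.hi]) (N := 1) (by compute_degree) hA
    (by
      intro t ht
      have : (C (1 / (1 - l)) * X : ℂ[X]).eval t = t / (1 - l) := by
        simp
        ring
      rw [this]
      exact ht) (annulus_area hs hs1)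
  refine hmain.trans (ENNReal.ofReal_le_ofReal (le_of_eq ?_))
  rw [Nat.cast_one, one_mul]
  field_simp
  ring

end Pool.Agent.H214.Tri
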